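import Pool.Agent.Helper1x.EQ.Rec

/-!
# The gauge equivariant determinantal representation of a tensor network given by an order of the vertices
-/

set_option autoImplicit false

namespace Pool.Agent.Helper1x.EQ

open Matrix Finset

/-- A matrix with ones on the diagonal whose other entries go up in rank has determinant one. -/
theorem det_eq_one_of_rank {R ι : Type*} [CommRing R] [Fintype ι] [DecidableEq ι] (A : Matrix ι ι R) (b : ι → ℕ)
    (h1 : ∀ i, A i i = 1) (h2 : ∀ i j, A i j ≠ 0 → i = j ∨ b i < b j) : A.det = 1 := by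
  classical
  rw [Matrix.det_apply, Finset.sum_eq_single (1 : Equiv.Perm ι)]
  · simp [h1]
  · intro σ _ hσ
    have h3 : ∏ i, A (σ i) i = 0 := by
      by_contra hne
      apply hσ
      have h4 : ∀ i, A (σ i) i ≠ 0 := fun i h => hne (Finset.prod_eq_zero (Finset.mem_univ i) h)
      have h5 : ∀ i, b (σ i) ≤ b i := by
        intro i
        rcases h2 _ _ (h4 i) with h | h
        · rw [h]
        · exact h.le
      have h6 : ∑ i, b (σ i) = ∑ i, b i := Equiv.sum_comp σ b
      ext i
      rcases h2 _ _ (h4 i) with h | h
      · exact h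
      · exfalso
        have h7 : ∑ i, b (σ i) < ∑ i, b i := Finset.sum_lt_sum (fun i _ => h5 i) ⟨i, Finset.mem_univ i, h⟩
        omega
    rw [h3, smul_zero]
  · intro h
    exact absurd (Finset.mem_univ _) h

variable {V E : Type*} [Fintype V] [DecidableEq V] [Fintype E] [DecidableEq E]

/-- the nodes: the step number and a labelling of the edges of the cut -/
abbrev Node (src tgt : E → V) (q : ℕ) (S : ℕ → Finset V) (d : ℕ) : Type _ :=
  {p : Fin d × (E → Fin (q + 1)) // Ok src tgt (S p.1) p.2}

/-- the number of the next step -/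
def nxt (d k : ℕ) : ℕ := if k + 1 < d then k + 1 else 0

variable {q : ℕ} {K : Type*} [Field K] (src tgt : E → V)

/-- the matrix -/
noncomputable def mat (K : Type*) [Field K] (q : ℕ) (S : ℕ → Finset V) (v : ℕ → V) (d : ℕ) :
    Matrix (Node src tgt q S d) (Node src tgt q S d) (MvPolynomial (V × (E → Fin (q + 1))) K) :=
  fun p p' => (if p = p' ∧ (p.1.1 : ℕ) ≠ 0 then 1 else 0) + (if (p.1.1 : ℕ) = 0 then 1 else -1) *
    (if (p'.1.1 : ℕ) = nxt d p.1.1 ∧ Compat src tgt (S p.1.1) (S (p.1.1 + 1)) p.1.2 p'.1.2 then
      MvPolynomial.X (v p.1.1, tau src tgt (S p.1.1) (v p.1.1) p.1.2 p'.1.2) else 0)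

variable {S : ℕ → Finset V} {v : ℕ → V} {d : ℕ}

theorem ok_empty {α : E → Fin (q + 1)} (h : Ok src tgt (∅ : Finset V) α) : α = 0 := by
  funext e
  exact h e (by simp [IsCut])

theorem not_isCut_univ (e : E) : ¬ IsCut src tgt (univ : Finset V) e := by simp [IsCut]

theorem mat_mulVec (hloop : ∀ e, src e ≠ tgt e) (h0 : S 0 = ∅) (hd : S d = univ)
    (hs : ∀ k < d, v k ∉ S k ∧ S (k + 1) = insert (v k) (S k)) :
    mat src tgt K q S v d *ᵥ (fun p => if (p.1.1 : ℕ) = 0 then 1 else suf K src tgt (S p.1.1) p.1.2) =
      fun p => if (p.1.1 : ℕ) = 0 then net K q src tgt else 0 := by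
  classical
  funext p
  obtain ⟨⟨⟨k, hk⟩, α⟩, hp⟩ := p
  simp only at hp
  have inner : (∑ p' : Node src tgt q S d, (if (p'.1.1 : ℕ) = nxt d k ∧
      Compat src tgt (S k) (S (k + 1)) α p'.1.2 then
      MvPolynomial.X (v k, tau src tgt (S k) (v k) α p'.1.2) else 0) *
      (if (p'.1.1 : ℕ) = 0 then 1 else suf K src tgt (S p'.1.1) p'.1.2)) = suf K src tgt (S k) α := by
    rw [← Finset.sum_subtype (univ.filter fun p : Fin d × (E → Fin (q + 1)) => Ok src tgt (S p.1) p.2) (by simp)
      (fun x : Fin d × (E → Fin (q + 1)) => (if (x.1 : ℕ) = nxt d k ∧ Compat src tgt (S k) (S (k + 1)) α x.2 then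
      (MvPolynomial.X (v k, tau src tgt (S k) (v k) α x.2) : MvPolynomial (V × (E → Fin (q + 1))) K) else 0) *
      (if (x.1 : ℕ) = 0 then 1 else suf K src tgt (S x.1) x.2)), Finset.sum_filter, Fintype.sum_prod_type]
    rw [suf_step hloop (hs k hk).1 α, ← (hs k hk).2]
    by_cases hlast : k + 1 < d
    · rw [Finset.sum_eq_single (⟨k + 1, hlast⟩ : Fin d)]
      · refine Finset.sum_congr rfl fun α' _ => ?_
        simp only [nxt, if_pos hlast, true_and, Nat.add_eq_zero_iff, one_ne_zero, and_false, if_false]
        by_cases h1 : Ok src tgt (S (k + 1)) α' <;>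
          by_cases h2 : Compat src tgt (S k) (S (k + 1)) α α' <;> simp [h1, h2]
      · intro b _ hb
        refine Finset.sum_eq_zero fun α' _ => ?_
        have h1 : ¬ ((b : ℕ) = nxt d k) := by
          intro h
          apply hb
          ext
          simp only [nxt, if_pos hlast] at h
          exact h
        simp [h1]
      · intro h
        exact absurd (Finset.mem_univ _) h
    · have hkd : k + 1 = d := by omega
      have hd0 : 0 < d := by omega
      rw [Finset.sum_eq_single (⟨0, hd0⟩ : Fin d)]
      · refine Finset.sum_congr rfl fun α' _ => ?_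
        have h1 : Ok src tgt (S (k + 1)) α' ↔ Ok src tgt (S 0) α' := by
          rw [hkd, hd, h0]
          unfold Ok
          constructor
          · intro h e _
            exact h e (not_isCut_univ src tgt e)
          · intro h e _
            exact h e (by simp [IsCut])
        simp only [nxt, if_neg hlast, true_and, if_true, mul_one]
        by_cases h2 : Ok src tgt (S 0) α'
        · rw [if_pos h2]
          have h3 : suf K src tgt (S (k + 1)) α' = 1 := by rw [hkd, hd, suf_univ]
          rw [h3, mul_one]
          by_cases h4 : Compat src tgt (S k) (S (k + 1)) α α'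
          · rw [if_pos h4, if_pos ⟨h1.2 h2, h4⟩]
          · rw [if_neg h4, if_neg (fun h => h4 h.2)]
        · rw [if_neg h2, if_neg (fun h => h2 (h1.1 h.1))]
      · intro b _ hb
        refine Finset.sum_eq_zero fun α' _ => ?_
        have h1 : ¬ ((b : ℕ) = nxt d k) := by
          intro h
          apply hb
          ext
          simp only [nxt, if_neg hlast] at h
          exact h
        simp [h1]
      · intro h
        exact absurd (Finset.mem_univ _) h
  simp only [Matrix.mulVec, dotProduct, mat, add_mul, Finset.sum_add_distrib]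
  simp only [mul_assoc, ← Finset.mul_sum]
  rw [inner]
  by_cases hk0 : k = 0
  · subst hk0
    simp [h0, suf_empty]
  · have h1 : (∑ p' : Node src tgt q S d, (if (⟨(⟨k, hk⟩, α), hp⟩ : Node src tgt q S d) = p' ∧ k ≠ 0 then
        (1 : MvPolynomial (V × (E → Fin (q + 1))) K) else 0) *
        (if (p'.1.1 : ℕ) = 0 then 1 else suf K src tgt (S p'.1.1) p'.1.2)) = suf K src tgt (S k) α := by
      rw [Finset.sum_eq_single (⟨(⟨k, hk⟩, α), hp⟩ : Node src tgt q S d)]
      · simp [hk0]
      · intro b _ hb
        rw [if_neg (fun h => hb h.1.symm), zero_mul]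
      · intro h
        exact absurd (Finset.mem_univ _) h
    rw [h1]
    simp [hk0]

theorem mat_det (hloop : ∀ e, src e ≠ tgt e) (h0 : S 0 = ∅) (hd : S d = univ) (hd0 : 0 < d)
    (hs : ∀ k < d, v k ∉ S k ∧ S (k + 1) = insert (v k) (S k)) : (mat src tgt K q S v d).det = net K q src tgt := by
  classical
  set M := mat src tgt K q S v d with hM
  have hok0 : Ok src tgt (S (⟨0, hd0⟩ : Fin d)) (0 : E → Fin (q + 1)) := fun e _ => rfl
  set p0 : Node src tgt q S d := ⟨(⟨0, hd0⟩, 0), hok0⟩ with hp0
  have huniq : ∀ p : Node src tgt q S d, (p.1.1 : ℕ) = 0 → p = p0 := by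
    rintro ⟨⟨⟨k, hk⟩, α⟩, hp⟩ hk0
    simp only at hk0
    subst hk0
    simp only [h0] at hp
    have := ok_empty src tgt hp
    subst this
    rfl
  have h1 := congrFun (congrArg (fun x => M.adjugate *ᵥ x) (mat_mulVec (K := K) (q := q) src tgt hloop h0 hd hs)) p0
  simp only [← hM] at h1
  rw [Matrix.mulVec_mulVec, Matrix.adjugate_mul, Matrix.smul_mulVec, Matrix.one_mulVec] at h1
  simp only [Pi.smul_apply, smul_eq_mul] at h1
  rw [if_pos (show ((p0.1.1 : ℕ) = 0) from by simp [hp0]), mul_one] at h1
  rw [h1]
  simp only [Matrix.mulVec, dotProduct]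
  rw [Finset.sum_eq_single p0]
  · rw [if_pos (by simp [hp0])]
    have h2 : M.adjugate p0 p0 = 1 := by
      rw [Matrix.adjugate_apply]
      refine det_eq_one_of_rank _ (fun p => if (p.1.1 : ℕ) = 0 then d else (p.1.1 : ℕ)) ?_ ?_
      · intro p
        by_cases hp : p = p0
        · rw [hp, Matrix.updateRow_self, Pi.single_eq_same]
        · rw [Matrix.updateRow_ne hp]
          have hk : (p.1.1 : ℕ) ≠ 0 := fun h => hp (huniq p h)
          have hn : ¬ ((p.1.1 : ℕ) = nxt d p.1.1) := by
            unfold nxt
            split_ifs <;> omega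
          simp [hM, mat, hk, hn]
      · intro p p' hne
        by_cases hp : p = p0
        · rw [hp, Matrix.updateRow_self] at hne
          by_cases h3 : p' = p0
          · left; rw [hp, h3]
          · rw [Pi.single_eq_of_ne h3] at hne
            exact absurd rfl hne
        · rw [Matrix.updateRow_ne hp] at hne
          have hk : (p.1.1 : ℕ) ≠ 0 := fun h => hp (huniq p h)
          by_cases hpp : p = p'
          · exact Or.inl hpp
          · right
            have h4 : (p'.1.1 : ℕ) = nxt d p.1.1 := by
              by_contra h5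
              apply hne
              simp [hM, mat, hpp, h5]
            have h5 := p.1.1.2
            rw [if_neg hk]
            unfold nxt at h4
            split_ifs at h4 with h6
            · rw [if_neg (by omega), h4]
              omega
            · rw [if_pos h4]
              exact h5
    rw [h2, one_mul]
  · intro p _ hp
    rw [if_neg (fun h => hp (huniq p h)), mul_zero]
  · intro h
    exact absurd (Finset.mem_univ _) h

theorem mat_degree (p p' : Node src tgt q S d) : (mat src tgt K q S v d p p').totalDegree ≤ 1 := by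
  unfold mat
  refine (MvPolynomial.totalDegree_add _ _).trans (max_le ?_ ?_)
  · split_ifs <;> simp
  · refine (MvPolynomial.totalDegree_mul _ _).trans ?_
    have h1 : (if (p.1.1 : ℕ) = 0 then 1 else -1 : MvPolynomial (V × (E → Fin (q + 1))) K).totalDegree = 0 := by
      split_ifs
      · simp
      · rw [MvPolynomial.totalDegree_neg, MvPolynomial.totalDegree_one]
    rw [h1, zero_add]
    split_ifs
    · rw [MvPolynomial.totalDegree_X]
    · simp

/-- the weight of a node -/
noncomputable def nodeWt (t : E → Fin (q + 1) → Kˣ) (p : Node src tgt q S d) : Kˣ :=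
  ∏ e, t e (p.1.2 e) ^ cutv src tgt (S p.1.1) e

theorem cutv_eq_zero {U : Finset V} {e : E} (h : ¬ IsCut src tgt U e) : cutv src tgt U e = 0 := by
  by_contra hne
  exact h ((cutv_ne_zero src tgt U e).1 hne)

theorem gauge_step (hloop : ∀ e, src e ≠ tgt e) (t : E → Fin (q + 1) → Kˣ) {U : Finset V} {x : V} (hx : x ∉ U)
    {α α' : E → Fin (q + 1)} (hc : Compat src tgt U (insert x U) α α') :
    gauge src tgt t (x, tau src tgt U x α α') * ((∏ e, t e (α e) ^ cutv src tgt U e : Kˣ) : K) =
      ((∏ e, t e (α' e) ^ cutv src tgt (insert x U) e : Kˣ) : K) := by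
  unfold gauge
  rw [← Units.val_mul, ← Finset.prod_mul_distrib]
  congr 1
  refine Finset.prod_congr rfl fun e _ => ?_
  simp only
  have hsum : cutv src tgt (insert x U) e = inc src tgt x e + cutv src tgt U e := by
    rw [← sum_inc, ← sum_inc, Finset.sum_insert hx]
  by_cases h1 : src e = x ∨ tgt e = x
  · by_cases h2 : IsCut src tgt U e
    · have h3 : ¬ IsCut src tgt (insert x U) e := by
        unfold IsCut at h2 ⊢
        intro h4
        apply h4
        rcases h1 with h1 | h1
        · have h5 : src e ∉ U := by rw [h1]; exact hx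
          have h6 : tgt e ∈ U := by
            by_contra h7
            exact h2 ⟨fun h => absurd h h5, fun h => absurd h h7⟩
          exact ⟨fun _ => Finset.mem_insert_of_mem h6, fun _ => by rw [h1]; exact Finset.mem_insert_self _ _⟩
        · have h5 : tgt e ∉ U := by rw [h1]; exact hx
          have h6 : src e ∈ U := by
            by_contra h7
            exact h2 ⟨fun h => absurd h h7, fun h => absurd h h5⟩
          exact ⟨fun _ => by rw [h1]; exact Finset.mem_insert_self _ _, fun _ => Finset.mem_insert_of_mem h6⟩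
      have h4 := cutv_eq_zero src tgt h3
      rw [h4] at hsum
      have h5 : tau src tgt U x α α' e = α e := by simp [tau, h1, h2]
      rw [h4, h5, ← _root_.zpow_add, ← hsum, zpow_zero, zpow_zero]
    · have h4 := cutv_eq_zero src tgt h2
      rw [h4, add_zero] at hsum
      have h5 : tau src tgt U x α α' e = α' e := by simp [tau, h1, h2]
      rw [h4, h5, hsum, zpow_zero, mul_one]
  · have h2 : inc src tgt x e = 0 := by
      push Not at h1
      simp [inc, h1.1, h1.2]
    rw [h2, zero_add] at hsum
    rw [h2, zpow_zero, one_mul, hsum]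
    by_cases h3 : IsCut src tgt U e
    · have h4 : IsCut src tgt (insert x U) e := by
        have h5 := (cutv_ne_zero src tgt U e).2 h3
        rw [← hsum] at h5
        exact (cutv_ne_zero src tgt _ e).1 h5
      rw [hc e h3 h4]
    · rw [cutv_eq_zero src tgt h3, zpow_zero, zpow_zero]

theorem mat_equivariant (hloop : ∀ e, src e ≠ tgt e) (h0 : S 0 = ∅) (hd : S d = univ)
    (hs : ∀ k < d, v k ∉ S k ∧ S (k + 1) = insert (v k) (S k)) (t : E → Fin (q + 1) → Kˣ) :
    (mat src tgt K q S v d).map (scale (gauge src tgt t)) =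
      (Matrix.diagonal fun p => (((nodeWt src tgt t p)⁻¹ : Kˣ) : K)).map MvPolynomial.C * mat src tgt K q S v d *
        (Matrix.diagonal fun p => ((nodeWt src tgt t p : Kˣ) : K)).map MvPolynomial.C := by
  classical
  ext1 p p'
  have hmap : ∀ f : Node src tgt q S d → K, (Matrix.diagonal f).map MvPolynomial.C =
      (Matrix.diagonal fun p => MvPolynomial.C (f p) :
        Matrix _ _ (MvPolynomial (V × (E → Fin (q + 1))) K)) := by
    intro f
    rw [Matrix.diagonal_map (by simp)]
  rw [hmap, hmap, Matrix.mul_diagonal, Matrix.diagonal_mul, Matrix.map_apply]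
  have hsc : scale (gauge src tgt t) (mat src tgt K q S v d p p') =
      (if p = p' ∧ (p.1.1 : ℕ) ≠ 0 then 1 else 0) + (if (p.1.1 : ℕ) = 0 then 1 else -1) *
    (if (p'.1.1 : ℕ) = nxt d p.1.1 ∧ Compat src tgt (S p.1.1) (S (p.1.1 + 1)) p.1.2 p'.1.2 then
      MvPolynomial.C (gauge src tgt t (v p.1.1, tau src tgt (S p.1.1) (v p.1.1) p.1.2 p'.1.2)) *
      MvPolynomial.X (v p.1.1, tau src tgt (S p.1.1) (v p.1.1) p.1.2 p'.1.2) else 0) := by
    unfold mat
    rw [map_add, map_mul]
    congr 1
    · split_ifs <;> simp
    · congr 1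
      · split_ifs <;> simp
      · split_ifs
        · rw [scale_X]
        · simp
  rw [hsc]
  unfold mat
  rw [mul_add, add_mul]
  congr 1
  · by_cases h1 : p = p'
    · subst h1
      by_cases h2 : (p.1.1 : ℕ) = 0
      · simp [h2]
      · simp only [h2, ne_eq, not_false_eq_true, and_self, if_true, mul_one]
        rw [← map_mul, ← Units.val_mul, inv_mul_cancel, Units.val_one, map_one]
    · simp [h1]
  · by_cases h1 : (p'.1.1 : ℕ) = nxt d p.1.1 ∧ Compat src tgt (S p.1.1) (S (p.1.1 + 1)) p.1.2 p'.1.2
    · rw [if_pos h1, if_pos h1]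
      obtain ⟨h2, h3⟩ := h1
      have hk := p.1.1.2
      obtain ⟨h4, h5⟩ := hs p.1.1 hk
      rw [h5] at h3
      have h6 := gauge_step (K := K) src tgt hloop t h4 h3
      have h7 : nodeWt src tgt t p' = ∏ e, t e (p'.1.2 e) ^ cutv src tgt (insert (v p.1.1) (S p.1.1)) e := by
        unfold nodeWt
        rw [← h5, h2]
        unfold nxt
        split_ifs with h8
        · rfl
        · have h9 : (p.1.1 : ℕ) + 1 = d := by omega
          rw [h9, hd, h0]
          refine Finset.prod_congr rfl fun e _ => ?_
          rw [cutv_eq_zero src tgt (not_isCut_univ src tgt e), cutv_eq_zero src tgt (by simp [IsCut])]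
      have h8 : gauge src tgt t (v p.1.1, tau src tgt (S p.1.1) (v p.1.1) p.1.2 p'.1.2) =
          (((nodeWt src tgt t p)⁻¹ : Kˣ) : K) * ((nodeWt src tgt t p' : Kˣ) : K) := by
        rw [h7, ← h6]
        unfold nodeWt
        rw [mul_comm, mul_assoc, ← Units.val_mul, mul_inv_cancel, Units.val_one, mul_one]
      rw [h8, map_mul]
      ring
    · rw [if_neg h1, if_neg h1]
      simp

theorem card_ok (U : Finset V) : (univ.filter fun α : E → Fin (q + 1) => Ok src tgt U α).card =
    (q + 1) ^ cutSize src tgt U := by
  classical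
  have h1 : (univ.filter fun α : E → Fin (q + 1) => Ok src tgt U α) =
      Fintype.piFinset fun e => if IsCut src tgt U e then univ else {0} := by
    ext α
    rw [Finset.mem_filter, Fintype.mem_piFinset]
    constructor
    · rintro ⟨_, h⟩ e
      split_ifs with he
      · exact Finset.mem_univ _
      · rw [Finset.mem_singleton]
        exact h e he
    · intro h
      refine ⟨Finset.mem_univ _, fun e he => ?_⟩
      have := h e
      rw [if_neg he, Finset.mem_singleton] at this
      exact this
  rw [h1, Fintype.card_piFinset]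
  have h2 : ∀ e, (if IsCut src tgt U e then (univ : Finset (Fin (q + 1))) else {0}).card =
      if IsCut src tgt U e then q + 1 else 1 := by
    intro e
    split_ifs
    · rw [Finset.card_univ, Fintype.card_fin]
    · exact Finset.card_singleton _
  rw [Finset.prod_congr rfl fun e _ => h2 e, Finset.prod_ite, Finset.prod_const_one, mul_one, Finset.prod_const]
  rfl

theorem card_node {w : ℕ} (hw : ∀ k, cutSize src tgt (S k) ≤ w) :
    Fintype.card (Node src tgt q S d) ≤ d * (q + 1) ^ w := by
  classical
  rw [Fintype.card_subtype, Finset.card_filter, Fintype.sum_prod_type]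
  have h1 : ∀ k : Fin d, (∑ α : E → Fin (q + 1), if Ok src tgt (S k) α then 1 else 0) ≤ (q + 1) ^ w := by
    intro k
    rw [← Finset.card_filter, card_ok]
    exact Nat.pow_le_pow_right (Nat.succ_pos q) (hw k)
  refine (Finset.sum_le_sum fun k _ => h1 k).trans ?_
  rw [Finset.sum_const, Finset.card_univ, Fintype.card_fin, smul_eq_mul]

/-- The upper bound: a determinantal representation which is equivariant under all gauge transformations. -/
theorem net_upper (K : Type*) [Field K] (q : ℕ) (src tgt : E → V) (hloop : ∀ e, src e ≠ tgt e) (hV : 1 ≤ Fintype.card V) :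
    ∃ m ≤ Fintype.card V * (q + 1) ^ cutwidth src tgt,
      ∃ M : Matrix (Fin m) (Fin m) (MvPolynomial (V × (E → Fin (q + 1))) K), IsDetRep M (net K q src tgt) ∧
        ∀ t : E → Fin (q + 1) → Kˣ, Equivariant (gauge src tgt t) M := by
  classical
  have hne : {w : ℕ | ∃ L : List V, L.Nodup ∧ L.toFinset = univ ∧
      ∀ k, cutSize src tgt (L.take k).toFinset ≤ w}.Nonempty := by
    refine ⟨Fintype.card E, (univ : Finset V).toList, Finset.nodup_toList _, Finset.toList_toFinset _, fun k => ?_⟩
    exact Finset.card_le_univ _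
  obtain ⟨L, h1, h2, h3⟩ := Nat.sInf_mem hne
  change ∀ k, cutSize src tgt (L.take k).toFinset ≤ cutwidth src tgt at h3
  have hlen : L.length = Fintype.card V := by
    rw [← List.toFinset_card_of_nodup h1, h2, Finset.card_univ]
  obtain ⟨v0⟩ : Nonempty V := Fintype.card_pos_iff.1 (by omega)
  set S : ℕ → Finset V := fun k => (L.take k).toFinset with hS
  set v : ℕ → V := fun k => L.getD k v0 with hv
  have h0 : S 0 = ∅ := by simp [hS]
  have hd : S (Fintype.card V) = univ := by
    rw [hS]
    simp only
    rw [← hlen, List.take_length, h2]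
  have hs : ∀ k < Fintype.card V, v k ∉ S k ∧ S (k + 1) = insert (v k) (S k) := by
    intro k hk
    have hk' : k < L.length := by omega
    have h4 : L.take (k + 1) = L.take k ++ [L[k]] := List.take_succ_eq_append_getElem hk'
    have h5 : v k = L[k] := by
      rw [hv]
      simp [List.getD_eq_getElem?_getD, List.getElem?_eq_getElem hk']
    have h6 : (L.take (k + 1)).Nodup := h1.sublist (List.take_sublist _ _)
    rw [h4, List.nodup_append] at h6
    refine ⟨?_, ?_⟩
    · rw [h5, hS]
      simp only [List.mem_toFinset]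
      intro h
      exact h6.2.2 _ h _ (List.mem_singleton_self _) rfl
    · rw [hS]
      simp only
      rw [h4, h5]
      ext x
      rw [List.mem_toFinset, List.mem_append, List.mem_singleton, Finset.mem_insert, List.mem_toFinset]
      exact or_comm
  set e : Node src tgt q S (Fintype.card V) ≃ Fin (Fintype.card (Node src tgt q S (Fintype.card V))) :=
    Fintype.equivFin _ with he
  refine ⟨Fintype.card (Node src tgt q S (Fintype.card V)), card_node src tgt h3,
    Matrix.reindex e e (mat src tgt K q S v (Fintype.card V)), ⟨fun i j => ?_, ?_⟩, fun t => ?_⟩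
  · exact mat_degree src tgt _ _
  · rw [Matrix.det_reindex_self]
    exact mat_det src tgt hloop h0 hd (by omega) hs
  · have h4 := mat_equivariant (K := K) (q := q) src tgt hloop h0 hd hs t
    refine ⟨Matrix.reindex e e (Matrix.diagonal fun p => (((nodeWt src tgt t p)⁻¹ : Kˣ) : K)),
      Matrix.reindex e e (Matrix.diagonal fun p => ((nodeWt src tgt t p : Kˣ) : K)), ?_, ?_, Or.inl ?_⟩
    · rw [Matrix.det_reindex_self, Matrix.det_diagonal, ← Units.coe_prod]
      exact Units.isUnit _
    · rw [Matrix.det_reindex_self, Matrix.det_diagonal, ← Units.coe_prod]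
      exact Units.isUnit _
    · have h5 : ∀ (A : Matrix (Node src tgt q S (Fintype.card V)) (Node src tgt q S (Fintype.card V)) K),
          (Matrix.reindex e e A).map MvPolynomial.C =
          (Matrix.reindex e e (A.map MvPolynomial.C) : Matrix _ _ (MvPolynomial (V × (E → Fin (q + 1))) K)) :=
        fun A => rfl
      rw [h5, h5]
      have h6 : (Matrix.reindex e e (mat src tgt K q S v (Fintype.card V))).map (scale (gauge src tgt t)) =
          Matrix.reindex e e ((mat src tgt K q S v (Fintype.card V)).map (scale (gauge src tgt t))) := rfl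
      rw [h6, h4]
      simp only [Matrix.reindex_apply, Matrix.submatrix_mul_equiv]

end Pool.Agent.Helper1x.EQ
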