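import Pool.Agent.H20VP.Val
import Pool.Agent.Helper1x.EQ.Upper

/-!
# From weakly skew circuits to determinants

Every weakly skew circuit with `s` nodes gives a determinantal representation of size `s + 1`; a circuit whose nodes compute
homogeneous polynomials (with respect to weights of the variables) gives a graded matrix.
-/

set_option autoImplicit false

namespace Pool.Agent.Helper1x.EQ

open Matrix Finset Pool.Agent.H20VP

variable {K X : Type}

theorem exists_rank (C : Circuit K X) : ∃ τ : C.N → ℕ, ∀ m n, C.Edge m n → τ m < τ n := by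
  classical
  have : Fintype C.N := C.fin
  refine ⟨fun n => (univ.filter fun m => Relation.TransGen C.Edge m n).card, fun m n h => ?_⟩
  apply Finset.card_lt_card
  rw [Finset.ssubset_iff_of_subset]
  · refine ⟨m, ?_, ?_⟩
    · rw [Finset.mem_filter]
      exact ⟨Finset.mem_univ _, Relation.TransGen.single h⟩
    · rw [Finset.mem_filter]
      rintro ⟨_, h1⟩
      exact C.acyclic m h1
  · intro x hx
    rw [Finset.mem_filter] at hx ⊢
    exact ⟨Finset.mem_univ _, hx.2.tail h⟩

/-- the node is a multiplication gate -/
def IsMul (C : Circuit K X) (g : C.N) : Prop := ∃ a b, C.gate g = .mul a b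

theorem exists_priv (C : Circuit K X) (hC : C.WeaklySkew) : ∃ pv ot : C.N → C.N, ∀ g a b, C.gate g = .mul a b →
    ((pv g = a ∧ ot g = b) ∨ (pv g = b ∧ ot g = a)) ∧ C.Cut (pv g) (ot g) g := by
  classical
  have h : ∀ g, ∃ p : C.N × C.N, ∀ a b, C.gate g = .mul a b →
      ((p.1 = a ∧ p.2 = b) ∨ (p.1 = b ∧ p.2 = a)) ∧ C.Cut p.1 p.2 g := by
    intro g
    by_cases hg : ∃ a b, C.gate g = .mul a b
    · obtain ⟨a, b, hab⟩ := hg
      rcases hC g a b hab with h1 | h1
      · refine ⟨(a, b), fun a' b' h2 => ?_⟩
        rw [hab] at h2
        simp only [Gate.mul.injEq] at h2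
        obtain ⟨rfl, rfl⟩ := h2
        exact ⟨Or.inl ⟨rfl, rfl⟩, h1⟩
      · refine ⟨(b, a), fun a' b' h2 => ?_⟩
        rw [hab] at h2
        simp only [Gate.mul.injEq] at h2
        obtain ⟨rfl, rfl⟩ := h2
        exact ⟨Or.inr ⟨rfl, rfl⟩, h1⟩
    · exact ⟨(g, g), fun a b hab => absurd ⟨a, b, hab⟩ hg⟩
  choose p hp using h
  exact ⟨fun g => (p g).1, fun g => (p g).2, hp⟩

section

variable {C : Circuit K X} {pv ot : C.N → C.N}
  (hpv : ∀ g a b, C.gate g = .mul a b →
    ((pv g = a ∧ ot g = b) ∨ (pv g = b ∧ ot g = a)) ∧ C.Cut (pv g) (ot g) g)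

include hpv

theorem edge_pv {g : C.N} (hg : IsMul C g) : C.Edge (pv g) g := by
  obtain ⟨a, b, hab⟩ := hg
  unfold Circuit.Edge
  rw [hab]
  rcases (hpv g a b hab).1 with h | h
  · rw [h.1]; simp [Gate.preds]
  · rw [h.1]; simp [Gate.preds]

theorem edge_ot {g : C.N} (hg : IsMul C g) : C.Edge (ot g) g := by
  obtain ⟨a, b, hab⟩ := hg
  unfold Circuit.Edge
  rw [hab]
  rcases (hpv g a b hab).1 with h | h
  · rw [h.2]; simp [Gate.preds]
  · rw [h.2]; simp [Gate.preds]

theorem cut_pv {g : C.N} (hg : IsMul C g) : C.Cut (pv g) (ot g) g := by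
  obtain ⟨a, b, hab⟩ := hg
  exact (hpv g a b hab).2

theorem not_below_pv {g : C.N} (hg : IsMul C g) : ¬ C.Below g (pv g) := fun h =>
  C.acyclic g (Relation.TransGen.tail' h (edge_pv hpv hg))

/-- an edge does not change the private sub-circuits, with one exception -/
theorem below_edge {g : C.N} (hg : IsMul C g) {m n : C.N} (h : C.Edge m n) (hne : ¬ (m = pv g ∧ n = g)) :
    C.Below m (pv g) ↔ C.Below n (pv g) := by
  constructor
  · intro h1
    by_contra h2
    exact hne ((cut_pv hpv hg).2 m n h1 h2 h)
  · intro h1
    exact Relation.ReflTransGen.head h h1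

end

/-- the multiplication gates whose private sub-circuit contains `n` -/
noncomputable def ctx (C : Circuit K X) (pv : C.N → C.N) (n : C.N) : Finset C.N :=
  @Finset.filter C.N (fun g => IsMul C g ∧ C.Below n (pv g)) (fun _ => Classical.propDecidable _)
    (@Finset.univ C.N C.fin)

theorem mem_ctx {C : Circuit K X} {pv : C.N → C.N} {n g : C.N} : g ∈ ctx C pv n ↔ IsMul C g ∧ C.Below n (pv g) := by
  unfold ctx
  constructor
  · intro h
    exact (@Finset.mem_filter C.N _ (fun _ => Classical.propDecidable _) _ _).1 h |>.2
  · intro h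
    exact (@Finset.mem_filter C.N _ (fun _ => Classical.propDecidable _) _ _).2 ⟨@Finset.mem_univ C.N C.fin g, h⟩

section

variable {C : Circuit K X} [DecidableEq C.N] {pv ot : C.N → C.N}
  (hpv : ∀ g a b, C.gate g = .mul a b →
    ((pv g = a ∧ ot g = b) ∨ (pv g = b ∧ ot g = a)) ∧ C.Cut (pv g) (ot g) g)

include hpv

omit [DecidableEq C.N] in
theorem ctx_edge {m n : C.N} (h : C.Edge m n) (hne : ∀ g, IsMul C g → ¬ (m = pv g ∧ n = g)) :
    ctx C pv m = ctx C pv n := by
  ext g
  rw [mem_ctx, mem_ctx]
  constructor
  · rintro ⟨h1, h2⟩
    exact ⟨h1, (below_edge hpv h1 h (hne g h1)).1 h2⟩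
  · rintro ⟨h1, h2⟩
    exact ⟨h1, (below_edge hpv h1 h (hne g h1)).2 h2⟩

omit [DecidableEq C.N] in
theorem ctx_add {m n : C.N} {l : List C.N} (hn : C.gate n = .add l) (hm : m ∈ l) : ctx C pv m = ctx C pv n := by
  refine ctx_edge hpv (by unfold Circuit.Edge; rw [hn]; exact hm) ?_
  rintro g ⟨a, b, hab⟩ ⟨_, rfl⟩
  rw [hab] at hn
  cases hn

omit [DecidableEq C.N] in
theorem ctx_ot {g : C.N} (hg : IsMul C g) : ctx C pv (ot g) = ctx C pv g := by
  refine ctx_edge hpv (edge_ot hpv hg) ?_
  rintro g' hg' ⟨h1, rfl⟩
  exact (cut_pv hpv hg).1 h1.symm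

omit [DecidableEq C.N] in
theorem self_notMem_ctx {g : C.N} : g ∉ ctx C pv g := by
  rw [mem_ctx]
  rintro ⟨h1, h2⟩
  exact not_below_pv hpv h1 h2

theorem ctx_pv {g : C.N} (hg : IsMul C g) : ctx C pv (pv g) = insert g (ctx C pv g) := by
  ext g'
  rw [Finset.mem_insert, mem_ctx, mem_ctx]
  by_cases h : g' = g
  · subst h
    simp only [true_or, iff_true]
    exact ⟨hg, Relation.ReflTransGen.refl⟩
  · simp only [h, false_or]
    constructor
    · rintro ⟨h1, h2⟩
      exact ⟨h1, (below_edge hpv h1 (edge_pv hpv hg) (fun h3 => h h3.2.symm)).1 h2⟩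
    · rintro ⟨h1, h2⟩
      exact ⟨h1, (below_edge hpv h1 (edge_pv hpv hg) (fun h3 => h h3.2.symm)).2 h2⟩

theorem exists_inner {τ : C.N → ℕ} (hτ : ∀ m n, C.Edge m n → τ m < τ n) {n : C.N} (hne : (ctx C pv n).Nonempty) :
    ∃ g, IsMul C g ∧ ctx C pv n = insert g (ctx C pv g) := by
  have hτ2 : ∀ {a b : C.N}, C.Below a b → τ a ≤ τ b := by
    intro a b h
    unfold Circuit.Below at h
    induction h with
    | refl => exact le_rfl
    | tail _ h ih => exact ih.trans (hτ _ _ h).le
  obtain ⟨g, hg, hmin⟩ := Finset.exists_min_image (ctx C pv n) τ hne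
  have hg' := mem_ctx.1 hg
  refine ⟨g, hg'.1, ?_⟩
  ext g'
  rw [Finset.mem_insert]
  constructor
  · intro h
    by_cases h0 : g' = g
    · exact Or.inl h0
    · right
      have h' := mem_ctx.1 h
      rcases below_or (cut_pv hpv hg'.1) (edge_pv hpv hg'.1) hg'.2 h'.2 with h1 | h1
      · exfalso
        have h2 := (below_edge hpv hg'.1 (edge_pv hpv h'.1) (fun h3 => h0 h3.2)).1 h1
        have h3 := hτ2 h2
        have h4 := hτ _ _ (edge_pv hpv hg'.1)
        have h5 := hmin g' h
        omega
      · exact mem_ctx.2 ⟨h'.1, h1⟩
  · rintro (rfl | h)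
    · exact hg
    · have h' := mem_ctx.1 h
      refine mem_ctx.2 ⟨h'.1, ?_⟩
      exact hg'.2.trans (Relation.ReflTransGen.head (edge_pv hpv hg'.1) h'.2)

/-- the source of the edge which enters the input `n` -/
theorem exists_src {τ : C.N → ℕ} (hτ : ∀ m n, C.Edge m n → τ m < τ n) : ∃ src : C.N → Option C.N, ∀ n,
    (ctx C pv n = ∅ ∧ src n = none) ∨ ∃ g, IsMul C g ∧ ctx C pv n = insert g (ctx C pv g) ∧ src n = some (ot g) := by
  have h : ∀ n, ∃ s : Option C.N, (ctx C pv n = ∅ ∧ s = none) ∨
      ∃ g, IsMul C g ∧ ctx C pv n = insert g (ctx C pv g) ∧ s = some (ot g) := by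
    intro n
    rcases Finset.eq_empty_or_nonempty (ctx C pv n) with h1 | h1
    · exact ⟨none, Or.inl ⟨h1, rfl⟩⟩
    · obtain ⟨g, hg, hg'⟩ := exists_inner hpv hτ h1
      exact ⟨some (ot g), Or.inr ⟨g, hg, hg', rfl⟩⟩
  choose s hs using h
  exact ⟨s, hs⟩

end

/-- **Weakly skew circuits and determinants.** -/
theorem ws_det [Field K] {Γ : Type*} [AddCommGroup Γ] (w : X → Γ) (C : Circuit K X) (hC : C.WeaklySkew)
    (φ : C.N → MvPolynomial X K) (hφ : ∀ n, φ n = (C.gate n).value φ)
    (hhom : ∀ n, ∃ d, MvPolynomial.IsWeightedHomogeneous w (φ n) d) :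
    ∃ (ι : Type) (_ : Fintype ι) (_ : DecidableEq ι) (M : Matrix ι ι (MvPolynomial X K)) (a b : ι → Γ),
      Fintype.card ι = C.size + 1 ∧ (∀ i j, (M i j).totalDegree ≤ 1) ∧ M.det = φ C.out ∧
      (∀ i j, MvPolynomial.IsWeightedHomogeneous w (M i j) (a i + b j)) ∧
      ∃ (e : C.N → ι) (s : C.N → ι), ∀ i j x, x ∈ (M i j).vars → ∃ n, i = e n ∧ j = s n ∧ C.gate n = .var x := by
  classical
  let _ : Fintype C.N := C.fin
  obtain ⟨pv, ot, hpv⟩ := exists_priv C hC
  obtain ⟨τ, hτ⟩ := exists_rank C
  obtain ⟨src, hsrc⟩ := exists_src hpv hτ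
  choose d hd using hhom
  -- the linear system
  set κ : C.N → MvPolynomial X K := fun n => ∏ g ∈ ctx C pv n, φ (ot g) with hκ
  set p : Option C.N → MvPolynomial X K := fun o => o.elim 1 fun n => κ n * φ n with hp
  set R : Option C.N → ℕ := fun o => o.elim 0 fun n => 4 ^ τ n + ∑ g ∈ ctx C pv n, (4 ^ τ (ot g) + 1) with hR
  set D : Option C.N → Γ := fun o => o.elim 0 fun n => d n + ∑ g ∈ ctx C pv n, d (ot g) with hD
  set A : Option C.N → Option C.N → MvPolynomial X K := fun i j => i.elim 0 fun n =>
    match C.gate n with
    | .var x => if j = src n then MvPolynomial.X x else 0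
    | .const c => if j = src n then MvPolynomial.C c else 0
    | .add l => (l.map fun m => if d m = d n ∧ j = some m then (1 : MvPolynomial X K) else 0).sum
    | .mul _ _ => if j = some (pv n) ∧ d n = d (pv n) + d (ot n) then 1 else 0 with hA
  -- the source of an input
  have hsrc_p : ∀ n, p (src n) = κ n := by
    intro n
    rcases hsrc n with ⟨h1, h2⟩ | ⟨g, hg, h1, h2⟩
    · rw [h2, hp, hκ]
      simp [h1]
    · rw [h2, hp, hκ]
      simp only [Option.elim]
      rw [ctx_ot hpv hg, h1, Finset.prod_insert (self_notMem_ctx hpv), mul_comm]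
  have hsrc_R : ∀ n, R (src n) < R (some n) := by
    intro n
    rcases hsrc n with ⟨h1, h2⟩ | ⟨g, hg, h1, h2⟩
    · rw [h2, hR]
      simp only [Option.elim]
      have : 0 < 4 ^ τ n := by positivity
      omega
    · rw [h2, hR]
      simp only [Option.elim]
      rw [ctx_ot hpv hg, h1, Finset.sum_insert (self_notMem_ctx hpv)]
      have : 0 < 4 ^ τ n := by positivity
      omega
  have hsrc_D : ∀ n, D (some n) = d n + D (src n) := by
    intro n
    rcases hsrc n with ⟨h1, h2⟩ | ⟨g, hg, h1, h2⟩
    · rw [h2, hD]
      simp [h1]
    · rw [h2, hD]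
      simp only [Option.elim]
      rw [ctx_ot hpv hg, h1, Finset.sum_insert (self_notMem_ctx hpv)]
  have hmul_R : ∀ g, IsMul C g → R (some (pv g)) < R (some g) := by
    intro g hg
    rw [hR]
    simp only [Option.elim]
    rw [ctx_pv hpv hg, Finset.sum_insert (self_notMem_ctx hpv)]
    obtain ⟨t, ht⟩ : ∃ t, τ g = t + 1 := ⟨τ g - 1, by have := hτ _ _ (edge_pv hpv hg); omega⟩
    have h1 : 4 ^ τ (pv g) ≤ 4 ^ t := Nat.pow_le_pow_right (by norm_num) (by
      have := hτ _ _ (edge_pv hpv hg); omega)
    have h2 : 4 ^ τ (ot g) ≤ 4 ^ t := Nat.pow_le_pow_right (by norm_num) (by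
      have := hτ _ _ (edge_ot hpv hg); omega)
    have h3 : 0 < 4 ^ t := by positivity
    rw [ht, pow_succ]
    omega
  have hmul_D : ∀ g, IsMul C g → D (some (pv g)) = d (pv g) + d (ot g) + ∑ g' ∈ ctx C pv g, d (ot g') := by
    intro g hg
    rw [hD]
    simp only [Option.elim]
    rw [ctx_pv hpv hg, Finset.sum_insert (self_notMem_ctx hpv), add_assoc]
  have hmul_p : ∀ g, IsMul C g → p (some (pv g)) = p (some g) := by
    intro g hg
    rw [hp]
    simp only [Option.elim]
    have h1 : φ g = φ (pv g) * φ (ot g) := by
      obtain ⟨a, b, hab⟩ := hg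
      rw [hφ g, hab]
      rcases (hpv g a b hab).1 with h | h
      · rw [h.1, h.2]; rfl
      · rw [h.1, h.2, mul_comm]; rfl
    rw [h1, hκ]
    simp only
    rw [ctx_pv hpv hg, Finset.prod_insert (self_notMem_ctx hpv)]
    ring
  have hadd_R : ∀ n l m, C.gate n = .add l → m ∈ l → R (some m) < R (some n) := by
    intro n l m hn hm
    rw [hR]
    simp only [Option.elim]
    rw [ctx_add hpv hn hm]
    have : 4 ^ τ m < 4 ^ τ n := Nat.pow_lt_pow_right (by norm_num) (hτ _ _ (by
      unfold Circuit.Edge; rw [hn]; exact hm))
    omega
  have hadd_κ : ∀ n l m, C.gate n = .add l → m ∈ l → κ m = κ n := by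
    intro n l m hn hm
    rw [hκ]
    simp only
    rw [ctx_add hpv hn hm]
  have hadd_D : ∀ n l m, C.gate n = .add l → m ∈ l → d m = d n → D (some m) = D (some n) := by
    intro n l m hn hm hdm
    rw [hD]
    simp only [Option.elim]
    rw [ctx_add hpv hn hm, hdm]
  -- non-zero entries
  have hAR : ∀ i j, A i j ≠ 0 → R j < R i := by
    intro i j h
    cases i with
    | none => exact absurd rfl h
    | some n =>
      rw [hA] at h
      simp only [Option.elim] at h
      rcases hg : C.gate n with x | c | l | ⟨a, b⟩
      · rw [hg] at h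
        simp only at h
        split_ifs at h with h1
        · rw [h1]; exact hsrc_R n
        · exact absurd rfl h
      · rw [hg] at h
        simp only at h
        split_ifs at h with h1
        · rw [h1]; exact hsrc_R n
        · exact absurd rfl h
      · rw [hg] at h
        simp only at h
        have h1 : ∃ m ∈ l, d m = d n ∧ j = some m := by
          by_contra hcon
          push Not at hcon
          apply h
          apply List.sum_eq_zero
          intro y hy
          rw [List.mem_map] at hy
          obtain ⟨m, hm, rfl⟩ := hy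
          rw [if_neg]
          rintro ⟨h1, h2⟩
          exact hcon m hm h1 h2
        obtain ⟨m, hm, _, rfl⟩ := h1
        exact hadd_R n l m hg hm
      · rw [hg] at h
        simp only at h
        split_ifs at h with h1
        · rw [h1.1]; exact hmul_R n ⟨a, b, hg⟩
        · exact absurd rfl h
  -- the equations
  have heq : ∀ i, p i = (if i = none then 1 else 0) + ∑ j, A i j * p j := by
    intro i
    cases i with
    | none => simp [hp, hA]
    | some n =>
      rw [if_neg (by simp), zero_add]
      rw [hA]
      simp only [Option.elim]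
      rcases hg : C.gate n with x | c | l | ⟨a, b⟩
      · simp only
        rw [Finset.sum_eq_single (src n)]
        · rw [if_pos rfl, hsrc_p, mul_comm]
          change κ n * φ n = _
          rw [hφ n, hg]
          rfl
        · intro j _ hj
          rw [if_neg hj, zero_mul]
        · intro h
          exact absurd (Finset.mem_univ _) h
      · simp only
        rw [Finset.sum_eq_single (src n)]
        · rw [if_pos rfl, hsrc_p, mul_comm]
          change κ n * φ n = _
          rw [hφ n, hg]
          rfl
        · intro j _ hj
          rw [if_neg hj, zero_mul]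
        · intro h
          exact absurd (Finset.mem_univ _) h
      · simp only
        have h1 : ∀ l' : List C.N, (∀ m ∈ l', κ m = κ n) →
            ∑ j, (l'.map fun m => if d m = d n ∧ j = some m then (1 : MvPolynomial X K) else 0).sum * p j =
            κ n * (l'.map fun m => if d m = d n then φ m else 0).sum := by
          intro l'
          induction l' with
          | nil => simp
          | cons m l' ih =>
            intro h
            simp only [List.map_cons, List.sum_cons, add_mul, Finset.sum_add_distrib, mul_add]
            rw [ih (fun m' hm' => h m' (List.mem_cons_of_mem _ hm'))]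
            congr 1
            by_cases h2 : d m = d n
            · simp only [h2, true_and, if_true]
              rw [Finset.sum_eq_single (some m)]
              · rw [if_pos rfl, one_mul]
                change κ m * φ m = _
                rw [h m (List.mem_cons_self)]
              · intro j _ hj
                rw [if_neg hj, zero_mul]
              · intro h
                exact absurd (Finset.mem_univ _) h
            · simp [h2]
        rw [h1 l (fun m hm => hadd_κ n l m hg hm)]
        change κ n * φ n = _
        congr 1
        -- compare the homogeneous parts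
        have h2 : φ n = (l.map φ).sum := by rw [hφ n, hg]; rfl
        have h3 : ∀ u, ∀ q : C.N → MvPolynomial X K, MvPolynomial.coeff u (l.map q).sum =
            (l.map fun m => MvPolynomial.coeff u (q m)).sum := by
          intro u q
          have h4 := map_list_sum (MvPolynomial.coeffAddMonoidHom (R := K) u) (l.map q)
          rw [List.map_map] at h4
          exact h4
        ext u
        by_cases h5 : Finsupp.weight w u = d n
        · rw [h2, h3, h3]
          congr 1
          refine List.map_congr_left fun m _ => ?_
          split_ifs with h6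
          · rfl
          · rw [MvPolynomial.coeff_zero]
            by_contra h7
            exact h6 ((hd m h7).symm.trans h5)
        · rw [h3]
          have h6 : MvPolynomial.coeff u (φ n) = 0 := by
            by_contra h7
            exact h5 (hd n h7)
          rw [h6]
          symm
          apply List.sum_eq_zero
          intro y hy
          rw [List.mem_map] at hy
          obtain ⟨m, _, rfl⟩ := hy
          split_ifs with h7
          · by_contra h8
            exact h5 ((hd m h8).trans h7)
          · rfl
      · simp only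
        have hmu : IsMul C n := ⟨a, b, hg⟩
        by_cases h2 : d n = d (pv n) + d (ot n)
        · simp only [h2, and_true]
          rw [Finset.sum_eq_single (some (pv n))]
          · rw [if_pos rfl, one_mul, hmul_p n hmu]
          · intro j _ hj
            rw [if_neg hj, zero_mul]
          · intro h
            exact absurd (Finset.mem_univ _) h
        · simp only [h2, and_false, if_false, zero_mul, Finset.sum_const_zero]
          change κ n * φ n = 0
          have h3 : φ n = 0 := by
            by_contra hne
            apply h2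
            have h4 : φ n = φ (pv n) * φ (ot n) := by
              rw [hφ n, hg]
              rcases (hpv n a b hg).1 with h | h
              · rw [h.1, h.2]; rfl
              · rw [h.1, h.2, mul_comm]; rfl
            have h5 := (hd (pv n)).mul (hd (ot n))
            rw [← h4] at h5
            exact (hd n).inj_right hne h5
          rw [h3, mul_zero]
  -- the matrix
  set B : Matrix (Option C.N) (Option C.N) (MvPolynomial X K) := 1 - Matrix.of A with hB
  have hBp : B *ᵥ p = Pi.single none 1 := by
    rw [hB, Matrix.sub_mulVec, Matrix.one_mulVec]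
    funext i
    rw [Pi.sub_apply, heq i]
    simp only [Matrix.mulVec, dotProduct, Matrix.of_apply, add_sub_cancel_right]
    rw [Pi.single_apply]
  have hAii : ∀ i, A i i = 0 := by
    intro i
    by_contra h
    exact lt_irrefl _ (hAR i i h)
  have hBdet : B.det = 1 := by
    rw [← Matrix.det_transpose]
    refine det_eq_one_of_rank _ R ?_ ?_
    · intro i
      rw [Matrix.transpose_apply, hB, Matrix.sub_apply, Matrix.one_apply_eq, Matrix.of_apply, hAii, sub_zero]
    · intro i j h
      rw [Matrix.transpose_apply, hB, Matrix.sub_apply, Matrix.of_apply] at h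
      by_cases hij : i = j
      · exact Or.inl hij
      · right
        rw [Matrix.one_apply_ne (Ne.symm hij), zero_sub, neg_ne_zero] at h
        exact hAR j i h
  have hctx_out : ctx C pv C.out = ∅ := by
    rw [Finset.eq_empty_iff_forall_notMem]
    intro g hg
    obtain ⟨h1, h2⟩ := mem_ctx.1 hg
    rcases Relation.reflTransGen_iff_eq_or_transGen.1 h2 with h3 | h3
    · have h4 := (C.sink C.out).2 rfl g
      apply h4
      have h5 := edge_pv hpv h1
      rw [h3] at h5
      exact h5
    · obtain ⟨m, hm, _⟩ := Relation.TransGen.head'_iff.1 h3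
      exact (C.sink C.out).2 rfl m hm
  have hpout : p (some C.out) = φ C.out := by
    rw [hp]
    simp only [Option.elim]
    rw [hκ]
    simp only
    rw [hctx_out]
    simp
  set M : Matrix (Option C.N) (Option C.N) (MvPolynomial X K) := B.updateCol (some C.out) (Pi.single none 1) with hM
  have hMdet : M.det = φ C.out := by
    have h1 : M.det = (B.cramer (Pi.single none 1)) (some C.out) := by
      rw [Matrix.cramer_apply, hM]
    rw [h1, Matrix.cramer_eq_adjugate_mulVec, ← hBp, Matrix.mulVec_mulVec, Matrix.adjugate_mul, hBdet, one_smul,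
      Matrix.one_mulVec, hpout]
  -- the entries of `A`
  have hconst : ∀ (n : C.N) (j : Option C.N) (l : List C.N), ∃ c : ℕ,
      (l.map fun m => if d m = d n ∧ j = some m then (1 : MvPolynomial X K) else 0).sum = MvPolynomial.C (c : K) := by
    intro n j l
    induction l with
    | nil => exact ⟨0, by simp⟩
    | cons m l ih =>
      obtain ⟨c, hc⟩ := ih
      rw [List.map_cons, List.sum_cons, hc]
      split_ifs
      · exact ⟨1 + c, by push_cast; rw [map_add, map_one]⟩
      · exact ⟨c, by rw [zero_add]⟩
  have hAdeg : ∀ i j, (A i j).totalDegree ≤ 1 := by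
    intro i j
    cases i with
    | none => simp [hA]
    | some n =>
      rw [hA]
      simp only [Option.elim]
      rcases hg : C.gate n with x | c | l | ⟨a, b⟩
      · simp only
        split_ifs
        · rw [MvPolynomial.totalDegree_X]
        · simp
      · simp only
        split_ifs <;> simp
      · simp only
        obtain ⟨c, hc⟩ := hconst n j l
        rw [hc, MvPolynomial.totalDegree_C]
        exact Nat.zero_le _
      · simp only
        split_ifs <;> simp
  have hAhom : ∀ i j, MvPolynomial.IsWeightedHomogeneous w (A i j) (D i - D j) := by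
    intro i j
    cases i with
    | none => exact MvPolynomial.isWeightedHomogeneous_zero K w _
    | some n =>
      rw [hA]
      simp only [Option.elim]
      rcases hg : C.gate n with x | c | l | ⟨a, b⟩
      · simp only
        split_ifs with h
        · have h1 : φ n = MvPolynomial.X x := by rw [hφ n, hg]; rfl
          have h2 : d n = w x := by
            have h3 := hd n
            rw [h1] at h3
            exact (h3.inj_right (MvPolynomial.X_ne_zero x) (MvPolynomial.isWeightedHomogeneous_X K w x))
          rw [h, hsrc_D, add_sub_cancel_right, h2]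
          exact MvPolynomial.isWeightedHomogeneous_X K w x
        · exact MvPolynomial.isWeightedHomogeneous_zero K w _
      · simp only
        split_ifs with h
        · have h1 : φ n = MvPolynomial.C c := by rw [hφ n, hg]; rfl
          by_cases hc : c = 0
          · rw [hc, map_zero]
            exact MvPolynomial.isWeightedHomogeneous_zero K w _
          · have h2 : d n = 0 := by
              have h3 := hd n
              rw [h1] at h3
              exact (h3.inj_right ((map_ne_zero_iff _ (MvPolynomial.C_injective X K)).2 hc)
                (MvPolynomial.isWeightedHomogeneous_C w c))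
            rw [h, hsrc_D, add_sub_cancel_right, h2]
            exact MvPolynomial.isWeightedHomogeneous_C w c
        · exact MvPolynomial.isWeightedHomogeneous_zero K w _
      · simp only
        by_cases h : ∃ m ∈ l, d m = d n ∧ j = some m
        · obtain ⟨m, hm, h1, rfl⟩ := h
          obtain ⟨c, hc⟩ := hconst n (some m) l
          rw [hc, hadd_D n l m hg hm h1, sub_self]
          exact MvPolynomial.isWeightedHomogeneous_C w _
        · have h1 : (l.map fun m => if d m = d n ∧ j = some m then (1 : MvPolynomial X K) else 0).sum = 0 := by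
            push Not at h
            apply List.sum_eq_zero
            intro y hy
            rw [List.mem_map] at hy
            obtain ⟨m, hm, rfl⟩ := hy
            rw [if_neg]
            rintro ⟨h1, h2⟩
            exact h m hm h1 h2
          rw [h1]
          exact MvPolynomial.isWeightedHomogeneous_zero K w _
      · simp only
        split_ifs with h
        · rw [h.1, hmul_D n ⟨a, b, hg⟩, ← h.2]
          change MvPolynomial.IsWeightedHomogeneous w 1 (d n + ∑ g ∈ ctx C pv n, d (ot g) - _)
          rw [sub_self]
          exact MvPolynomial.isWeightedHomogeneous_one K w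
        · exact MvPolynomial.isWeightedHomogeneous_zero K w _
  have hAvar : ∀ i j x, x ∈ (A i j).vars → ∃ n, i = some n ∧ j = src n ∧ C.gate n = .var x := by
    intro i j x hx
    cases i with
    | none => simp [hA] at hx
    | some n =>
      rw [hA] at hx
      simp only [Option.elim] at hx
      rcases hg : C.gate n with y | c | l | ⟨a, b⟩
      · rw [hg] at hx
        simp only at hx
        split_ifs at hx with h
        · rw [MvPolynomial.vars_X, Finset.mem_singleton] at hx
          exact ⟨n, rfl, h, by rw [hg, hx]⟩
        · simp at hx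
      · rw [hg] at hx
        simp only at hx
        split_ifs at hx <;> simp at hx
      · rw [hg] at hx
        simp only at hx
        obtain ⟨c, hc⟩ := hconst n j l
        rw [hc, MvPolynomial.vars_C] at hx
        simp at hx
      · rw [hg] at hx
        simp only at hx
        split_ifs at hx <;> simp at hx
  refine ⟨Option C.N, inferInstance, inferInstance, M, D, fun j => if j = some C.out then 0 else - D j, ?_, ?_, hMdet,
    ?_, some, src, ?_⟩
  · rw [Fintype.card_option]
    rfl
  · intro i j
    rw [hM, Matrix.updateCol_apply]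
    split_ifs with h
    · rw [Pi.single_apply]
      split_ifs <;> simp
    · rw [hB, Matrix.sub_apply, Matrix.one_apply, Matrix.of_apply]
      refine (MvPolynomial.totalDegree_sub _ _).trans (max_le ?_ (hAdeg i j))
      split_ifs <;> simp
  · intro i j
    rw [hM, Matrix.updateCol_apply]
    by_cases h : j = some C.out
    · simp only [if_pos h]
      rw [Pi.single_apply]
      split_ifs with h1
      · rw [h1]
        change MvPolynomial.IsWeightedHomogeneous w 1 (0 + 0)
        rw [add_zero]
        exact MvPolynomial.isWeightedHomogeneous_one K w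
      · exact MvPolynomial.isWeightedHomogeneous_zero K w _
    · simp only [if_neg h]
      rw [← sub_eq_add_neg, hB, Matrix.sub_apply, Matrix.one_apply, Matrix.of_apply]
      refine MvPolynomial.IsWeightedHomogeneous.sub ?_ (hAhom i j)
      split_ifs with h1
      · rw [h1, sub_self]
        exact MvPolynomial.isWeightedHomogeneous_one K w
      · exact MvPolynomial.isWeightedHomogeneous_zero K w _
  · intro i j x hx
    rw [hM, Matrix.updateCol_apply] at hx
    split_ifs at hx with h
    · rw [Pi.single_apply] at hx
      split_ifs at hx <;> simp at hx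
    · rw [hB, Matrix.sub_apply, Matrix.one_apply, Matrix.of_apply] at hx
      apply hAvar
      have h1 := MvPolynomial.vars_sub_subset _ hx
      rw [Finset.mem_union] at h1
      rcases h1 with h1 | h1
      · exfalso
        split_ifs at h1 <;> simp at h1
      · exact h1

end Pool.Agent.Helper1x.EQ
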