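import Pool.Agent.Helper1x.EQ.Tree

/-!
# Existence of generic gauge transformations over infinite fields; the symmetry of the tree family
-/

set_option autoImplicit false

namespace Pool.Agent.Helper1x.EQ

open Matrix Finset Pool.Agent.H20VP

/-- a number which is zero modulo `2 b + 1` and has absolute value at most `b` is zero -/
theorem balanced (b : ℕ) : ∀ (N : ℕ) (a : Fin N → ℤ), (∀ k, |a k| ≤ b) → ∑ k, a k * (2 * b + 1) ^ (k : ℕ) = 0 → a = 0 := by
  intro N
  induction N with
  | zero =>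
    intro a _ _
    funext k
    exact k.elim0
  | succ N ih =>
    intro a ha hs
    rw [Fin.sum_univ_succ] at hs
    have h1 : ∑ k : Fin N, a k.succ * (2 * (b : ℤ) + 1) ^ ((k.succ : Fin (N + 1)) : ℕ) =
        (2 * b + 1) * ∑ k : Fin N, a k.succ * (2 * (b : ℤ) + 1) ^ (k : ℕ) := by
      rw [Finset.mul_sum]
      refine Finset.sum_congr rfl fun k _ => ?_
      rw [Fin.val_succ, pow_succ]
      ring
    rw [h1] at hs
    simp only [Fin.val_zero, pow_zero, mul_one] at hs
    have h0 : a 0 = 0 := by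
      have hd : (2 * (b : ℤ) + 1) ∣ a 0 := ⟨-∑ k : Fin N, a k.succ * (2 * (b : ℤ) + 1) ^ (k : ℕ), by linarith⟩
      apply Int.eq_zero_of_abs_lt_dvd hd
      have := ha 0
      have hb : (0 : ℤ) ≤ b := Int.natCast_nonneg b
      linarith
    rw [h0, zero_add] at hs
    have h2 : ∑ k : Fin N, a k.succ * (2 * (b : ℤ) + 1) ^ (k : ℕ) = 0 := by
      rcases mul_eq_zero.1 hs with h | h
      · exfalso
        have hb : (0 : ℤ) ≤ b := Int.natCast_nonneg b
        linarith
      · exact h
    have h3 := ih (fun k => a k.succ) (fun k => ha k.succ) h2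
    funext k
    refine Fin.cases h0 (fun k => ?_) k
    exact congrFun h3 k

/-- in an infinite field there are units which satisfy no short relation -/
theorem exists_unit (K : Type*) [Field K] [Infinite K] (B : ℕ) : ∃ g : Kˣ, ∀ n : ℤ, |n| ≤ B → g ^ n = 1 → n = 0 := by
  classical
  set P : Polynomial K := Polynomial.X * ∏ m ∈ Finset.Icc 1 B, (Polynomial.X ^ m - 1) with hP
  have hP0 : P ≠ 0 := by
    rw [hP]
    refine mul_ne_zero Polynomial.X_ne_zero ?_
    rw [Finset.prod_ne_zero_iff]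
    intro m hm
    rw [Finset.mem_Icc] at hm
    exact Polynomial.X_pow_sub_C_ne_zero (by omega) 1
  obtain ⟨x, hx⟩ := Polynomial.exists_eval_ne_zero_of_natDegree_lt_card P hP0 (by
    exact lt_of_lt_of_le (Cardinal.natCast_lt_aleph0) (Cardinal.aleph0_le_mk K))
  rw [hP, Polynomial.eval_mul, Polynomial.eval_X, Polynomial.eval_prod] at hx
  have hx0 : x ≠ 0 := left_ne_zero_of_mul hx
  have hx1 := right_ne_zero_of_mul hx
  rw [Finset.prod_ne_zero_iff] at hx1
  have key : ∀ m : ℕ, 1 ≤ m → m ≤ B → (Units.mk0 x hx0) ^ m ≠ 1 := by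
    intro m h1 h2 h3
    have h4 := hx1 m (Finset.mem_Icc.2 ⟨h1, h2⟩)
    apply h4
    have h5 := congrArg Units.val h3
    rw [Units.val_pow_eq_pow_val, Units.val_mk0, Units.val_one] at h5
    simp [h5]
  refine ⟨Units.mk0 x hx0, fun n hn h => ?_⟩
  by_contra hne
  rw [Int.abs_eq_natAbs] at hn
  rcases Int.natAbs_eq n with h1 | h1
  · refine key n.natAbs (by omega) (by omega) ?_
    rw [h1, zpow_natCast] at h
    exact h
  · refine key n.natAbs (by omega) (by omega) ?_
    rw [h1, _root_.zpow_neg, zpow_natCast, inv_eq_one] at h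
    exact h

/-- over every infinite field there are generic families -/
theorem exists_generic (K : Type*) [Field K] [Infinite K] (E Λ : Type*) [Fintype E] [Fintype Λ] (b : ℕ) :
    ∃ t : E → Λ → Kˣ, Generic b t := by
  classical
  set idx := Fintype.equivFin (E × Λ) with hidx
  set N := Fintype.card (E × Λ) with hN
  obtain ⟨g, hg⟩ := exists_unit K (∑ k : Fin N, b * (2 * b + 1) ^ (k : ℕ))
  refine ⟨fun e i => g ^ ((2 * b + 1) ^ (idx (e, i) : ℕ)), fun a ha hprod => ?_⟩
  have h1 : ∏ e, ∏ i, (g ^ ((2 * b + 1) ^ (idx (e, i) : ℕ))) ^ a e i =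
      g ^ ∑ k : Fin N, a (idx.symm k).1 (idx.symm k).2 * (2 * (b : ℤ) + 1) ^ (k : ℕ) := by
    rw [← Fintype.prod_prod_type' (f := fun e i => (g ^ ((2 * b + 1) ^ (idx (e, i) : ℕ))) ^ a e i)]
    rw [← prod_zpow_eq, ← Equiv.prod_comp idx.symm]
    refine Finset.prod_congr rfl fun k _ => ?_
    simp only [Prod.mk.eta, Equiv.apply_symm_apply]
    rw [← zpow_natCast, ← _root_.zpow_mul, mul_comm]
    push_cast
    rfl
  rw [h1] at hprod
  have h2 := hg _ ?_ hprod
  · have h3 := balanced b N (fun k => a (idx.symm k).1 (idx.symm k).2) (fun k => ha _ _) h2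
    funext e i
    have h4 := congrFun h3 (idx (e, i))
    simp only [Equiv.symm_apply_apply, Pi.zero_apply] at h4
    exact h4
  · refine (Finset.abs_sum_le_sum_abs _ _).trans ?_
    push_cast
    refine Finset.sum_le_sum fun k _ => ?_
    rw [abs_mul]
    have hpos : (0 : ℤ) ≤ (2 * (b : ℤ) + 1) ^ (k : ℕ) := by positivity
    rw [abs_of_nonneg hpos]
    exact mul_le_mul_of_nonneg_right (ha _ _) hpos

/-- the extension by one -/
noncomputable def extOne {K : Type} [Field K] {r h : ℕ} (t : TE h → {i : Ix r // i ≠ 0} → Kˣ) (u : ℕ) (i : Ix r) : Kˣ :=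
  if hu : u ∈ Finset.Ico 2 (2 ^ (h + 1)) then (if hi : i ≠ 0 then t ⟨u, hu⟩ ⟨i, hi⟩ else 1) else 1

theorem extOne_zero {K : Type} [Field K] {r h : ℕ} (t : TE h → {i : Ix r // i ≠ 0} → Kˣ) (u : ℕ) :
    extOne t u 0 = 1 := by
  unfold extOne
  split_ifs with h1 h2
  · exact absurd rfl h2
  · rfl
  · rfl

theorem extOne_out {K : Type} [Field K] {r h : ℕ} (t : TE h → {i : Ix r // i ≠ 0} → Kˣ) {u : ℕ}
    (hu : u ∉ Finset.Ico 2 (2 ^ (h + 1))) (i : Ix r) : extOne t u i = 1 := by
  unfold extOne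
  rw [dif_neg hu]

theorem extOne_coe {K : Type} [Field K] {r h : ℕ} (t : TE h → {i : Ix r // i ≠ 0} → Kˣ) (e : TE h)
    (i : {i : Ix r // i ≠ 0}) : extOne t e.1 i.1 = t e i := by
  unfold extOne
  rw [dif_pos e.2, dif_pos i.2]

/-- the tree polynomials are semi-invariant under the gauge transformations -/
theorem tree_symm (K : Type) [Field K] {r : ℕ} (t : ℕ → Ix r → Kˣ) (ht0 : ∀ u, t u 0 = 1) (s v : ℕ) (i : Ix r) :
    scale (treeGauge t) (tree K r s v i) = MvPolynomial.C (t v i : K) * tree K r s v i := by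
  induction s generalizing v i with
  | zero =>
    rw [tree, scale_X]
    congr 2
    unfold treeGauge
    simp [ht0]
  | succ s ih =>
    rw [tree, map_sum, Finset.mul_sum]
    refine Finset.sum_congr rfl fun j _ => ?_
    rw [map_sum, Finset.mul_sum]
    refine Finset.sum_congr rfl fun k _ => ?_
    rw [map_mul, map_mul, scale_X, ih, ih]
    have h1 : (treeGauge t (v, i, j, k) : K) * (t (2 * v) j : K) * (t (2 * v + 1) k : K) = (t v i : K) := by
      unfold treeGauge
      simp only
      rw [← Units.val_mul, ← Units.val_mul]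
      congr 1
      rw [show t v i * (t (2 * v) j)⁻¹ * (t (2 * v + 1) k)⁻¹ * t (2 * v) j * t (2 * v + 1) k =
        t v i * ((t (2 * v) j)⁻¹ * t (2 * v) j) * ((t (2 * v + 1) k)⁻¹ * t (2 * v + 1) k) by
          simp only [mul_assoc, mul_comm, mul_left_comm]]
      rw [inv_mul_cancel, inv_mul_cancel, mul_one, mul_one]
    calc _ = MvPolynomial.C ((treeGauge t (v, i, j, k) : K) * (t (2 * v) j : K) * (t (2 * v + 1) k : K)) *
        (MvPolynomial.X (v, i, j, k) * tree K r s (2 * v) j * tree K r s (2 * v + 1) k) := by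
          rw [map_mul, map_mul]
          ring
      _ = _ := by rw [h1]

end Pool.Agent.Helper1x.EQ
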