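import Pool.Agent.Helper1x.EQ.WS
import Pool.Agent.Helper1x.EQ.Gen

/-!
# Circuits all of whose nodes compute homogeneous polynomials with respect to the gauge grading
-/

set_option autoImplicit false

namespace Pool.Agent.Helper1x.EQ

open Matrix Finset Pool.Agent.H20VP

/-- The gauge degree with respect to the edge number `u` and the label `i`: the variable `x_v(i', j, k)` has the degree
`[v = u, i' = i] - [2 v = u, j = i] - [2 v + 1 = u, k = i]`. -/
def gdeg {r : ℕ} (u : ℕ) (i : Ix r) (x : Vr r) : ℤ :=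
  (if x.1 = u ∧ x.2.1 = i then 1 else 0) - (if 2 * x.1 = u ∧ x.2.2.1 = i then 1 else 0) -
    (if 2 * x.1 + 1 = u ∧ x.2.2.2 = i then 1 else 0)

/-- The circuit `C` computes `f`, and the polynomial computed at each of its nodes is homogeneous with respect to the gauge
degree of each edge `u` of the tree of height `h` and each label `i ≠ 0`. -/
def HomComputes {K : Type} [CommSemiring K] {r : ℕ} (h : ℕ) (C : Circuit K (Vr r)) (f : MvPolynomial (Vr r) K) : Prop :=
  ∃ φ : C.N → MvPolynomial (Vr r) K, (∀ n, φ n = (C.gate n).value φ) ∧ φ C.out = f ∧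
    ∀ n u i, 2 ≤ u → u < 2 ^ (h + 1) → i ≠ 0 → ∃ d : ℤ, MvPolynomial.IsWeightedHomogeneous (gdeg u i) (φ n) d

section

variable {K : Type} [CommSemiring K] {r : ℕ}

theorem tree_hom (u : ℕ) (i : Ix r) (hi : i ≠ 0) (s v : ℕ) (i' : Ix r) :
    MvPolynomial.IsWeightedHomogeneous (gdeg u i) (tree K r s v i') (if v = u ∧ i' = i then 1 else 0) := by
  induction s generalizing v i' with
  | zero =>
    rw [tree]
    have h1 := MvPolynomial.isWeightedHomogeneous_X K (gdeg u i) (v, i', 0, 0)
    have h2 : gdeg u i (v, i', 0, 0) = if v = u ∧ i' = i then 1 else 0 := by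
      unfold gdeg
      simp [hi.symm]
    rwa [h2] at h1
  | succ s ih =>
    rw [tree]
    refine MvPolynomial.IsWeightedHomogeneous.sum _ _ _ fun j _ => ?_
    refine MvPolynomial.IsWeightedHomogeneous.sum _ _ _ fun k _ => ?_
    have h1 := ((MvPolynomial.isWeightedHomogeneous_X K (gdeg u i) (v, i', j, k)).mul (ih (2 * v) j)).mul
      (ih (2 * v + 1) k)
    have h2 : gdeg u i (v, i', j, k) + (if 2 * v = u ∧ j = i then 1 else 0) +
        (if 2 * v + 1 = u ∧ k = i then 1 else 0) = if v = u ∧ i' = i then 1 else 0 := by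
      unfold gdeg
      simp only
      ring
    rwa [h2] at h1

theorem circ_hom (h : ℕ) : HomComputes h (circ K r h) (tree K r h 1 0) := by
  classical
  refine ⟨fun t => phi K r h t.1, ?_, ?_, ?_⟩
  · intro t
    show phi K r h t.1 = ((gT K r h t.1).restrict (ok_preds K h t.1 t.2)).value _
    rw [phi_eq K t.1 t.2]
    exact (value_restrict (phi K r h) _ _).symm
  · have h0 : 1 < 2 ^ (h + 1) := by
      have : 1 ≤ 2 ^ h := Nat.one_le_two_pow
      rw [pow_succ]; omega
    have h1 : ht h 1 = h := by
      have : Nat.log 2 1 = 0 := Nat.log_one_right 2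
      unfold ht
      omega
    show phi K r h (fn r h 1 0) = _
    rw [phi_fn K 0 (le_refl 1) h0, h1]
  · intro n u i _ _ hi
    obtain ⟨t, ht'⟩ := n
    simp only
    cases t with
    | leaf v i' => exact ⟨_, MvPolynomial.isWeightedHomogeneous_X K _ _⟩
    | xv v i' j k => exact ⟨_, MvPolynomial.isWeightedHomogeneous_X K _ _⟩
    | pr v j k => exact ⟨_, (tree_hom u i hi _ _ _).mul (tree_hom u i hi _ _ _)⟩
    | sm v i' l z =>
      refine ⟨if v = u ∧ i' = i then 1 else 0, ?_⟩
      simp only [phi]
      refine MvPolynomial.IsWeightedHomogeneous.sum _ _ _ fun y _ => ?_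
      split_ifs with hy hv
      · have h1 := (MvPolynomial.isWeightedHomogeneous_X K (gdeg u i) (v, i', lft y, rgt y)).mul
          ((tree_hom u i hi (ht h v - 1) (2 * v) (lft y)).mul (tree_hom u i hi (ht h v - 1) (2 * v + 1) (rgt y)))
        have h2 : gdeg u i (v, i', lft y, rgt y) + ((if 2 * v = u ∧ lft y = i then 1 else 0) +
            (if 2 * v + 1 = u ∧ rgt y = i then 1 else 0)) = 1 := by
          unfold gdeg
          simp only
          rw [if_pos hv]
          ring
        rwa [h2] at h1
      · have h1 := (MvPolynomial.isWeightedHomogeneous_X K (gdeg u i) (v, i', lft y, rgt y)).mul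
          ((tree_hom u i hi (ht h v - 1) (2 * v) (lft y)).mul (tree_hom u i hi (ht h v - 1) (2 * v + 1) (rgt y)))
        have h2 : gdeg u i (v, i', lft y, rgt y) + ((if 2 * v = u ∧ lft y = i then 1 else 0) +
            (if 2 * v + 1 = u ∧ rgt y = i then 1 else 0)) = 0 := by
          unfold gdeg
          simp only
          rw [if_neg hv]
          ring
        rwa [h2] at h1
      · exact MvPolynomial.isWeightedHomogeneous_zero K _ _
      · exact MvPolynomial.isWeightedHomogeneous_zero K _ _

end

/-- a graded matrix is equivariant -/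
theorem equivariant_of_graded {K L X ι Γ : Type*} [Field K] [Field L] [Fintype ι] [DecidableEq ι] [AddCommGroup Γ]
    (f : K →+* L) (w : X → Γ) (χ : Multiplicative Γ →* Lˣ) {M : Matrix ι ι (MvPolynomial X K)} {a b : ι → Γ}
    (hM : ∀ i j, MvPolynomial.IsWeightedHomogeneous w (M i j) (a i + b j)) :
    Equivariant (fun x => (χ (Multiplicative.ofAdd (w x)) : L)) (M.map (MvPolynomial.map f)) := by
  classical
  set c : X → L := fun x => (χ (Multiplicative.ofAdd (w x)) : L) with hc
  have hw : ∀ m : X →₀ ℕ, (m.prod fun x n => c x ^ n) = (χ (Multiplicative.ofAdd (Finsupp.weight w m)) : L) := by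
    intro m
    rw [Finsupp.weight_apply, Finsupp.sum, ofAdd_sum, map_prod, Units.coe_prod, Finsupp.prod]
    refine Finset.prod_congr rfl fun x _ => ?_
    rw [ofAdd_nsmul, map_pow, Units.val_pow_eq_pow_val]
  refine ⟨Matrix.diagonal fun i => (χ (Multiplicative.ofAdd (a i)) : L),
    Matrix.diagonal fun i => (χ (Multiplicative.ofAdd (b i)) : L), ?_, ?_, Or.inl ?_⟩
  · rw [Matrix.det_diagonal, ← Units.coe_prod]
    exact Units.isUnit _
  · rw [Matrix.det_diagonal, ← Units.coe_prod]
    exact Units.isUnit _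
  · have hdiag : ∀ v : ι → L, ((Matrix.diagonal v).map MvPolynomial.C : Matrix ι ι (MvPolynomial X L)) =
        Matrix.diagonal fun i => MvPolynomial.C (v i) := by
      intro v
      rw [Matrix.diagonal_map (map_zero _)]
    rw [hdiag, hdiag]
    ext1 i j
    rw [Matrix.mul_diagonal, Matrix.diagonal_mul, Matrix.map_apply, Matrix.map_apply]
    ext m
    rw [coeff_scale, hw, MvPolynomial.coeff_map, coeff_mul_C, MvPolynomial.coeff_C_mul, MvPolynomial.coeff_map]
    by_cases h : MvPolynomial.coeff m (M i j) = 0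
    · rw [h, map_zero, mul_zero, mul_zero, zero_mul]
    · rw [hM i j h, ofAdd_add, map_mul, Units.val_mul]
      ring

theorem tree_map {K L : Type} [Field K] [Field L] (f : K →+* L) {r : ℕ} (s v : ℕ) (i : Ix r) :
    MvPolynomial.map f (tree K r s v i) = tree L r s v i := by
  induction s generalizing v i with
  | zero => rw [tree, tree, MvPolynomial.map_X]
  | succ s ih =>
    rw [tree, tree, map_sum]
    refine Finset.sum_congr rfl fun j _ => ?_
    rw [map_sum]
    refine Finset.sum_congr rfl fun k _ => ?_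
    rw [map_mul, map_mul, MvPolynomial.map_X, ih, ih]

/-- the character of the gauge grading given by a family of units -/
noncomputable def chi {L : Type} [Field L] {r h : ℕ} (t : TE h → {i : Ix r // i ≠ 0} → Lˣ) :
    Multiplicative (TE h → {i : Ix r // i ≠ 0} → ℤ) →* Lˣ where
  toFun γ := ∏ e, ∏ i, t e i ^ (Multiplicative.toAdd γ) e i
  map_one' := by simp
  map_mul' a b := by
    rw [← Finset.prod_mul_distrib]
    refine Finset.prod_congr rfl fun e _ => ?_
    rw [← Finset.prod_mul_distrib]
    refine Finset.prod_congr rfl fun i _ => ?_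
    rw [toAdd_mul, Pi.add_apply, Pi.add_apply, _root_.zpow_add]

theorem prod_extOne {L : Type} [Field L] {r h : ℕ} (t : TE h → {i : Ix r // i ≠ 0} → Lˣ) (v : ℕ) (i : Ix r) :
    ∏ e : TE h, ∏ i' : {i : Ix r // i ≠ 0}, t e i' ^ (if v = e.1 ∧ i = i'.1 then (1 : ℤ) else 0) = extOne t v i := by
  classical
  by_cases hv : v ∈ Finset.Ico 2 (2 ^ (h + 1))
  · by_cases hi : i ≠ 0
    · rw [Finset.prod_eq_single (⟨v, hv⟩ : TE h), Finset.prod_eq_single (⟨i, hi⟩ : {i : Ix r // i ≠ 0})]
      · rw [if_pos ⟨rfl, rfl⟩, zpow_one]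
        exact (extOne_coe t ⟨v, hv⟩ ⟨i, hi⟩).symm
      · intro i' _ hi'
        rw [if_neg, zpow_zero]
        rintro ⟨_, h2⟩
        exact hi' (Subtype.ext h2.symm)
      · intro h
        exact absurd (Finset.mem_univ _) h
      · intro e _ he
        refine Finset.prod_eq_one fun i' _ => ?_
        rw [if_neg, zpow_zero]
        rintro ⟨h1, _⟩
        exact he (Subtype.ext h1.symm)
      · intro h
        exact absurd (Finset.mem_univ _) h
    · rw [not_not.1 hi, extOne_zero]
      refine Finset.prod_eq_one fun e _ => Finset.prod_eq_one fun i' _ => ?_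
      rw [if_neg, zpow_zero]
      rintro ⟨_, h2⟩
      exact i'.2 h2.symm
  · rw [extOne_out t hv]
    refine Finset.prod_eq_one fun e _ => Finset.prod_eq_one fun i' _ => ?_
    rw [if_neg, zpow_zero]
    rintro ⟨h1, _⟩
    rw [h1] at hv
    exact hv e.2

theorem chi_gauge {L : Type} [Field L] {r h : ℕ} (t : TE h → {i : Ix r // i ≠ 0} → Lˣ) (x : Vr r) :
    (chi t (Multiplicative.ofAdd fun (e : TE h) (i : {i : Ix r // i ≠ 0}) => gdeg e.1 i.1 x) : L) =
      treeGauge (extOne t) x := by
  unfold treeGauge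
  congr 1
  rw [← prod_extOne t, ← prod_extOne t, ← prod_extOne t, ← Finset.prod_inv_distrib, ← Finset.prod_inv_distrib,
    ← Finset.prod_mul_distrib, ← Finset.prod_mul_distrib]
  change ∏ e, ∏ i, t e i ^ gdeg e.1 i.1 x = _
  refine Finset.prod_congr rfl fun e _ => ?_
  rw [← Finset.prod_inv_distrib, ← Finset.prod_inv_distrib, ← Finset.prod_mul_distrib, ← Finset.prod_mul_distrib]
  refine Finset.prod_congr rfl fun i _ => ?_
  unfold gdeg
  rw [_root_.zpow_sub, _root_.zpow_sub]

/-- The lower bound for homogeneous weakly skew circuits, over every field. -/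
theorem ws_lower {K : Type} [Field K] {r h : ℕ} (hh : 1 ≤ h) (hr : 1 ≤ r) (C : Circuit K (Vr r)) (hC : C.WeaklySkew)
    (hC2 : HomComputes h C (tree K r h 1 0)) : (2 ^ r - 1) ^ ((h + 1) / 2) ≤ C.size := by
  classical
  obtain ⟨φ, hφ, hout, hhom⟩ := hC2
  set w : Vr r → TE h → {i : Ix r // i ≠ 0} → ℤ := fun x e i => gdeg e.1 i.1 x with hw
  have hhom2 : ∀ n, ∃ d, MvPolynomial.IsWeightedHomogeneous w (φ n) d := by
    intro n
    have h1 : ∀ (e : TE h) (i : {i : Ix r // i ≠ 0}), ∃ d : ℤ,
        MvPolynomial.IsWeightedHomogeneous (gdeg e.1 i.1) (φ n) d := by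
      intro e i
      have he := Finset.mem_Ico.1 e.2
      exact hhom n e.1 i.1 he.1 he.2 i.2
    choose d hd using h1
    refine ⟨d, fun m hm => ?_⟩
    funext e i
    rw [← hd e i hm, Finsupp.weight_apply, Finsupp.weight_apply, Finsupp.sum, Finsupp.sum, Finset.sum_apply,
      Finset.sum_apply]
    rfl
  obtain ⟨ι, _, _, M, a, b, hcard, hdeg, hdet, hgr, _⟩ := ws_det w C hC φ hφ hhom2
  set L := AlgebraicClosure K
  obtain ⟨t, ht⟩ := exists_generic L (TE h) {i : Ix r // i ≠ 0} 4
  have hEq := equivariant_of_graded (algebraMap K L) w (chi t) hgr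
  have hc : (fun x => (chi t (Multiplicative.ofAdd (w x)) : L)) = treeGauge (extOne t) := funext fun x => chi_gauge t x
  rw [hc] at hEq
  have hrep : IsDetRep (M.map (MvPolynomial.map (algebraMap K L))) (tree L r h 1 0) := by
    refine ⟨fun i j => ?_, ?_⟩
    · rw [Matrix.map_apply]
      refine (Finset.sup_mono (MvPolynomial.support_map_subset _ _)).trans ?_
      exact hdeg i j
    · have h1 := (RingHom.map_det (MvPolynomial.map (algebraMap K L)) M).symm
      rw [hdet, hout, tree_map] at h1
      exact h1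
  have h1 := tree_lower hh hr (extOne t) (extOne_zero t) ?_ hrep hEq
  · omega
  · have h2 : (fun (e : TE h) (i : {i : Ix r // i ≠ 0}) => extOne t e.1 i.1) = t := by
      funext e i
      exact extOne_coe t e i
    rw [h2]
    exact ht

end Pool.Agent.Helper1x.EQ
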