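import Pool.Agent.Helper1x.EQ.Core

/-!
# Chains of sets of variables whose weights are eigenvalues
-/

set_option autoImplicit false

namespace Pool.Agent.Helper1x.EQ

open Matrix

variable {K ι X : Type*} [Field K] [Fintype ι] [DecidableEq ι] [DecidableEq X]

/-- the squarefree monomial of a set of variables -/
noncomputable def mono (S : Finset X) : X →₀ ℕ := ∑ x ∈ S, Finsupp.single x 1

theorem mono_insert {S : Finset X} {x : X} (hx : x ∉ S) : mono (insert x S) = Finsupp.single x 1 + mono S := by
  unfold mono
  rw [Finset.sum_insert hx]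

theorem mono_apply (S : Finset X) (x : X) : mono S x = if x ∈ S then 1 else 0 := by
  unfold mono
  rw [Finsupp.finsetSum_apply]
  simp only [Finsupp.single_apply]
  rw [Finset.sum_ite_eq']

theorem mono_prod (S : Finset X) (c : X → K) : (mono S).prod (fun x n => c x ^ n) = ∏ x ∈ S, c x := by
  classical
  induction S using Finset.induction_on with
  | empty => simp [mono]
  | insert x S hx ih =>
    rw [mono_insert hx, Finsupp.prod_add_index' (by simp) (by intro a b₁ b₂; rw [pow_add]), ih,
      Finsupp.prod_single_index (by simp), pow_one, Finset.prod_insert hx]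

theorem mono_erase {S : Finset X} {x : X} (hx : x ∈ S) : mono S = Finsupp.single x 1 + mono (S.erase x) := by
  rw [← mono_insert (Finset.notMem_erase x S), Finset.insert_erase hx]

theorem coeff_step {P : Matrix ι ι (MvPolynomial X K)} (hdeg : ∀ i j, (P i j).totalDegree ≤ 1)
    (h0 : ∀ i j, MvPolynomial.coeff 0 (P i j) = (1 : Matrix ι ι K) i j) {Y : ι → MvPolynomial X K}
    {d : MvPolynomial X K} {u : ι → K} (hY : P *ᵥ Y = d • fun i => MvPolynomial.C (u i)) {m : X →₀ ℕ}
    (hm : ∀ x, x ∈ m.support → ∀ j, MvPolynomial.coeff (m - Finsupp.single x 1) (Y j) = 0) (i : ι) :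
    MvPolynomial.coeff m (Y i) = MvPolynomial.coeff m d * u i := by
  classical
  have h1 := congrArg (MvPolynomial.coeff m) (congrFun hY i)
  simp only [Matrix.mulVec, dotProduct, Pi.smul_apply, smul_eq_mul] at h1
  rw [coeff_mul_C, MvPolynomial.coeff_sum] at h1
  rw [← h1]
  have h2 : ∀ j, MvPolynomial.coeff m (P i j * Y j) = (1 : Matrix ι ι K) i j * MvPolynomial.coeff m (Y j) := by
    intro j
    rw [MvPolynomial.coeff_mul, Finset.sum_eq_single (0, m)]
    · rw [h0]
    · rintro ⟨a, b⟩ hab hne
      rw [Finset.HasAntidiagonal.mem_antidiagonal] at hab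
      simp only at hab ⊢
      by_contra hcon
      have ha : MvPolynomial.coeff a (P i j) ≠ 0 := fun h => hcon (by rw [h, zero_mul])
      have hb : MvPolynomial.coeff b (Y j) ≠ 0 := fun h => hcon (by rw [h, mul_zero])
      have h3 := degree_le_of_coeff (hdeg i j) ha
      rcases Nat.lt_or_ge a.degree 1 with h4 | h4
      · have h5 : a = 0 := (Finsupp.degree_eq_zero_iff a).1 (by omega)
        apply hne
        rw [h5, zero_add] at hab
        rw [h5, hab]
      · obtain ⟨x, rfl⟩ := eq_single_of_degree (le_antisymm h3 h4)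
        have h5 : x ∈ m.support := by
          rw [Finsupp.mem_support_iff, ← hab, Finsupp.add_apply, Finsupp.single_eq_same]
          omega
        apply hb
        rw [← hm x h5 j]
        congr 1
        rw [← hab, add_tsub_cancel_left]
    · intro h
      exfalso
      apply h
      rw [Finset.HasAntidiagonal.mem_antidiagonal]
      simp
  rw [Finset.sum_congr rfl fun j _ => h2 j]
  simp [Matrix.one_apply]

theorem chain {N : Matrix ι ι (MvPolynomial X K)} (hdeg : ∀ i j, (N i j).totalDegree ≤ 1) {B D : Matrix ι ι K}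
    (hD : IsUnit D.det) {c : X → K}
    (hN : N.map (scale c) * D.map MvPolynomial.C = B.map MvPolynomial.C * N) {ρ : X} (hρ : c ρ = 1)
    (hdet : lin ρ N.det = Polynomial.X) :
    ∃ μ : K, (∃ y : ι → K, y ≠ 0 ∧ D *ᵥ y = μ • y) ∧
      ∀ S : Finset X, MvPolynomial.coeff (mono S) N.det ≠ 0 →
        (∀ S' ⊆ S, S'.Nonempty → S' ≠ S → ∏ x ∈ S', c x ≠ 1) →
        ∃ L : List X, L.Nodup ∧ L.toFinset = S ∧
          ∀ k < L.length, ∃ y : ι → K, y ≠ 0 ∧ D *ᵥ y = (μ * ∏ x ∈ (L.take k).toFinset, c x) • y := by
  classical
  obtain ⟨μ, δ, P, u, φ, hδ, hu0, hμ, hφu, hPdeg, hP0, hPD, hNP⟩ := core hdeg hN hρ hdet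
  have hμ0 : μ ≠ 0 := by
    intro h0
    apply hu0
    have h1 : D⁻¹ *ᵥ (D *ᵥ u) = u := by rw [Matrix.mulVec_mulVec, Matrix.nonsing_inv_mul _ hD, Matrix.one_mulVec]
    rw [hμ, h0, zero_smul, Matrix.mulVec_zero] at h1
    exact h1.symm
  refine ⟨μ, ⟨u, hu0, hμ⟩, ?_⟩
  intro S hS hgen
  set d := P.det with hd
  set Y : ι → MvPolynomial X K := P.adjugate *ᵥ (fun i => MvPolynomial.C (u i)) with hYdef
  have hY : P *ᵥ Y = d • fun i => MvPolynomial.C (u i) := by
    rw [hYdef, Matrix.mulVec_mulVec, Matrix.mul_adjugate, Matrix.smul_mulVec, Matrix.one_mulVec]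
  -- invariance of the determinant
  have hdC : (D.map MvPolynomial.C : Matrix ι ι (MvPolynomial X K)).det = MvPolynomial.C D.det := by
    rw [RingHom.map_det, RingHom.mapMatrix_apply]
  have hD0 : D.det ≠ 0 := hD.ne_zero
  have hCD0 : (MvPolynomial.C D.det : MvPolynomial X K) ≠ 0 := by
    rw [Ne, MvPolynomial.C_eq_zero]
    exact hD0
  have hdinv : scale c d = d := by
    have h1 := congrArg Matrix.det hPD
    rw [Matrix.det_mul, Matrix.det_mul, hdC, mul_comm] at h1
    have h2 := mul_left_cancel₀ hCD0 h1
    exact ((scale c).map_det P).trans h2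
  -- equivariance of `Y`
  have hadj : P.adjugate.map (scale c) * D.map MvPolynomial.C = D.map MvPolynomial.C * P.adjugate := by
    have h1 := congrArg Matrix.adjugate hPD
    rw [Matrix.adjugate_mul_distrib, Matrix.adjugate_mul_distrib] at h1
    have h2 : (P.map (scale c)).adjugate = P.adjugate.map (scale c) := by
      have := (scale c).map_adjugate P
      exact this.symm
    rw [h2] at h1
    have h3 : (D.map MvPolynomial.C : Matrix ι ι (MvPolynomial X K)) *
        ((D.map MvPolynomial.C).adjugate * P.adjugate.map (scale c)) * D.map MvPolynomial.C =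
        D.map MvPolynomial.C * (P.adjugate * (D.map MvPolynomial.C).adjugate) * D.map MvPolynomial.C := by rw [h1]
    rw [← Matrix.mul_assoc, Matrix.mul_adjugate, hdC, Matrix.smul_mul, Matrix.one_mul, Matrix.smul_mul,
      Matrix.mul_assoc (D.map MvPolynomial.C), Matrix.mul_assoc P.adjugate, Matrix.adjugate_mul, hdC,
      Matrix.mul_smul, Matrix.mul_one, Matrix.mul_smul] at h3
    ext1 i j
    have h4 := congrFun (congrFun h3 i) j
    simp only [Matrix.smul_apply, smul_eq_mul] at h4
    exact mul_left_cancel₀ hCD0 h4
  have hYeq : ∀ i, MvPolynomial.C μ * scale c (Y i) = ∑ j, MvPolynomial.C (D i j) * Y j := by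
    intro i
    have h1 : (P.adjugate.map (scale c) * D.map MvPolynomial.C) *ᵥ (fun i => MvPolynomial.C (u i)) =
        (D.map MvPolynomial.C * P.adjugate) *ᵥ (fun i => MvPolynomial.C (u i)) := by rw [hadj]
    rw [← Matrix.mulVec_mulVec, ← Matrix.mulVec_mulVec, ← hYdef] at h1
    have h2 : (D.map MvPolynomial.C : Matrix ι ι (MvPolynomial X K)) *ᵥ (fun i => MvPolynomial.C (u i)) =
        (MvPolynomial.C μ : MvPolynomial X K) • fun i => MvPolynomial.C (u i) := by
      funext k
      have h3 := congrFun hμ k
      simp only [Matrix.mulVec, dotProduct, Pi.smul_apply, smul_eq_mul, Matrix.map_apply] at h3 ⊢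
      rw [← map_mul, ← h3, map_sum]
      simp
    rw [h2, Matrix.mulVec_smul] at h1
    have h3 := congrFun h1 i
    simp only [Pi.smul_apply, smul_eq_mul] at h3
    have h4 : (P.adjugate.map (scale c) *ᵥ fun i => MvPolynomial.C (u i)) i = scale c (Y i) := by
      rw [hYdef]
      simp only [Matrix.mulVec, dotProduct, map_sum, map_mul, scale_C, Matrix.map_apply]
    rw [h4] at h3
    rw [h3]
    rfl
  have hYm : ∀ m : X →₀ ℕ, D *ᵥ (fun i => MvPolynomial.coeff m (Y i)) =
      (μ * m.prod fun x n => c x ^ n) • fun i => MvPolynomial.coeff m (Y i) := by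
    intro m
    funext i
    have h1 := congrArg (MvPolynomial.coeff m) (hYeq i)
    rw [MvPolynomial.coeff_C_mul, coeff_scale, MvPolynomial.coeff_sum] at h1
    simp only [MvPolynomial.coeff_C_mul] at h1
    simp only [Matrix.mulVec, dotProduct, Pi.smul_apply, smul_eq_mul]
    rw [← h1, mul_assoc]
  -- the coefficients of `d`
  have hdm : ∀ S' ⊆ S, S'.Nonempty → S' ≠ S → MvPolynomial.coeff (mono S') d = 0 := by
    intro S' h1 h2 h3
    have h4 := congrArg (MvPolynomial.coeff (mono S')) hdinv
    rw [coeff_scale, mono_prod] at h4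
    by_contra hcon
    apply hgen S' h1 h2 h3
    exact mul_right_cancel₀ hcon (by rw [h4, one_mul])
  have hd0 : d ≠ 0 := by
    intro h0
    have h1 : MvPolynomial.constantCoeff d = 1 := by
      rw [hd, RingHom.map_det, RingHom.mapMatrix_apply]
      have h2 : P.map MvPolynomial.constantCoeff = (1 : Matrix ι ι K) := by
        ext1 i j
        exact hP0 i j
      rw [h2, Matrix.det_one]
    rw [h0, map_zero] at h1
    exact zero_ne_one h1
  have hF : ∀ m : X →₀ ℕ, MvPolynomial.coeff m N.det =
      δ * (MvPolynomial.coeff m d - ∑ i, φ i * MvPolynomial.coeff m (Y i)) := by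
    intro m
    rw [hNP, MvPolynomial.coeff_C_mul, det_sub_rank_one P hd0, MvPolynomial.coeff_sub]
    congr 2
    rw [dotProduct, MvPolynomial.coeff_sum]
    refine Finset.sum_congr rfl fun i _ => ?_
    rw [MvPolynomial.coeff_C_mul]
  -- the last step
  have hA : ∃ x ∈ S, ∃ j, MvPolynomial.coeff (mono (S.erase x)) (Y j) ≠ 0 := by
    by_contra hcon
    push Not at hcon
    apply hS
    have h1 : ∀ i, MvPolynomial.coeff (mono S) (Y i) = MvPolynomial.coeff (mono S) d * u i := by
      intro i
      refine coeff_step hPdeg hP0 hY (fun x hx j => ?_) i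
      rw [Finsupp.mem_support_iff, mono_apply] at hx
      have hxS : x ∈ S := by
        by_contra h
        rw [if_neg h] at hx
        exact hx rfl
      rw [mono_erase hxS, add_tsub_cancel_left]
      exact hcon x hxS j
    rw [hF]
    simp only [h1]
    have h2 : ∑ i, φ i * (MvPolynomial.coeff (mono S) d * u i) = MvPolynomial.coeff (mono S) d * (φ ⬝ᵥ u) := by
      rw [dotProduct, Finset.mul_sum]
      exact Finset.sum_congr rfl fun i _ => by ring
    rw [h2, hφu]
    ring
  have hB : ∀ S' ⊆ S, S'.Nonempty → S' ≠ S → (∃ j, MvPolynomial.coeff (mono S') (Y j) ≠ 0) →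
      ∃ x ∈ S', ∃ j, MvPolynomial.coeff (mono (S'.erase x)) (Y j) ≠ 0 := by
    rintro S' h1 h2 h3 ⟨j, hj⟩
    by_contra hcon
    push Not at hcon
    apply hj
    rw [coeff_step hPdeg hP0 hY (fun x hx j => ?_) j, hdm S' h1 h2 h3, zero_mul]
    rw [Finsupp.mem_support_iff, mono_apply] at hx
    have hxS : x ∈ S' := by
      by_contra h
      rw [if_neg h] at hx
      exact hx rfl
    rw [mono_erase hxS, add_tsub_cancel_left]
    exact hcon x hxS j
  have hC : ∀ n : ℕ, ∀ S' ⊆ S, S'.card = n → S' ≠ S → (∃ j, MvPolynomial.coeff (mono S') (Y j) ≠ 0) →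
      ∃ L : List X, L.Nodup ∧ L.toFinset = S' ∧
        ∀ k ≤ L.length, ∃ j, MvPolynomial.coeff (mono (L.take k).toFinset) (Y j) ≠ 0 := by
    intro n
    induction n with
    | zero =>
      intro S' _ h2 _ h4
      rw [Finset.card_eq_zero] at h2
      subst h2
      refine ⟨[], List.nodup_nil, rfl, fun k _ => ?_⟩
      simpa using h4
    | succ n ih =>
      intro S' h1 h2 h3 h4
      obtain ⟨x, hx, h5⟩ := hB S' h1 (Finset.card_pos.1 (by omega)) h3 h4
      obtain ⟨L, hL1, hL2, hL3⟩ := ih (S'.erase x) ((Finset.erase_subset _ _).trans h1)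
        (by rw [Finset.card_erase_of_mem hx]; omega) (by
          intro h
          have h6 : x ∈ S'.erase x := by rw [h]; exact h1 hx
          exact Finset.notMem_erase x S' h6) h5
      have hxL : x ∉ L := by
        intro h
        have : x ∈ L.toFinset := List.mem_toFinset.2 h
        rw [hL2] at this
        exact Finset.notMem_erase x S' this
      refine ⟨L ++ [x], ?_, ?_, ?_⟩
      · rw [List.nodup_append]
        refine ⟨hL1, List.nodup_singleton x, ?_⟩
        intro a ha b hb
        rw [List.mem_singleton] at hb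
        subst hb
        intro hab
        subst hab
        exact hxL ha
      · rw [List.toFinset_append, hL2]
        ext y
        simp only [Finset.mem_union, Finset.mem_erase, List.mem_toFinset, List.mem_singleton]
        constructor
        · rintro (h | h)
          · exact h.2
          · rw [h]; exact hx
        · intro h
          by_cases hy : y = x
          · exact Or.inr hy
          · exact Or.inl ⟨hy, h⟩
      · intro k hk
        rw [List.length_append, List.length_singleton] at hk
        rcases Nat.lt_or_ge L.length k with h6 | h6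
        · have h7 : k = (L ++ [x]).length := by rw [List.length_append, List.length_singleton]; omega
          rw [h7, List.take_length, List.toFinset_append, hL2]
          have h8 : S'.erase x ∪ [x].toFinset = S' := by
            ext y
            simp only [Finset.mem_union, Finset.mem_erase, List.mem_toFinset, List.mem_singleton]
            constructor
            · rintro (h | h)
              · exact h.2
              · rw [h]; exact hx
            · intro h
              by_cases hy : y = x
              · exact Or.inr hy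
              · exact Or.inl ⟨hy, h⟩
          rw [h8]
          exact h4
        · rw [List.take_append_of_le_length h6]
          exact hL3 k h6
  obtain ⟨x, hx, h5⟩ := hA
  obtain ⟨L, hL1, hL2, hL3⟩ := hC _ (S.erase x) (Finset.erase_subset _ _) rfl (by
    intro h
    have h6 : x ∈ S.erase x := by rw [h]; exact hx
    exact Finset.notMem_erase x S h6) h5
  have hxL : x ∉ L := by
    intro h
    have : x ∈ L.toFinset := List.mem_toFinset.2 h
    rw [hL2] at this
    exact Finset.notMem_erase x S this
  refine ⟨L ++ [x], ?_, ?_, ?_⟩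
  · rw [List.nodup_append]
    refine ⟨hL1, List.nodup_singleton x, ?_⟩
    intro a ha b hb
    rw [List.mem_singleton] at hb
    subst hb
    intro hab
    subst hab
    exact hxL ha
  · rw [List.toFinset_append, hL2]
    ext y
    simp only [Finset.mem_union, Finset.mem_erase, List.mem_toFinset, List.mem_singleton]
    constructor
    · rintro (h | h)
      · exact h.2
      · rw [h]; exact hx
    · intro h
      by_cases hy : y = x
      · exact Or.inr hy
      · exact Or.inl ⟨hy, h⟩
  · intro k hk
    rw [List.length_append, List.length_singleton] at hk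
    rw [List.take_append_of_le_length (by omega)]
    obtain ⟨j, hj⟩ := hL3 k (by omega)
    refine ⟨fun i => MvPolynomial.coeff (mono (L.take k).toFinset) (Y i), ?_, ?_⟩
    · intro h0
      exact hj (congrFun h0 j)
    · rw [hYm, mono_prod]

end Pool.Agent.Helper1x.EQ
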