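import Pool.Agent.Helper1x.EQ.Ker

/-!
# Normal form of an equivariant matrix of affine forms at a smooth zero of the determinant
-/

set_option autoImplicit false

namespace Pool.Agent.Helper1x.EQ

open Matrix

/-- The matrix determinant lemma with the adjugate, over a domain. -/
theorem det_sub_rank_one {R ι : Type*} [CommRing R] [IsDomain R] [Fintype ι] [DecidableEq ι] (P : Matrix ι ι R)
    (hP : P.det ≠ 0) (a b : ι → R) :
    (P - vecMulVec a b).det = P.det - b ⬝ᵥ (P.adjugate *ᵥ a) := by
  classical
  -- over a field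
  have field : ∀ (F : Type _) [Field F] (Q : Matrix ι ι F) (x y : ι → F), Q.det ≠ 0 →
      (Q - vecMulVec x y).det = Q.det - y ⬝ᵥ (Q.adjugate *ᵥ x) := by
    intro F _ Q x y hQ
    have hu : IsUnit Q.det := isUnit_iff_ne_zero.2 hQ
    have h1 : Q - vecMulVec x y = Q + replicateCol Unit (-x) * replicateRow Unit y := by
      ext i j
      simp [vecMulVec_apply, Matrix.mul_apply, sub_eq_add_neg]
    rw [h1, det_add_replicateCol_mul_replicateRow hu, Matrix.det_unique (n := Unit)]
    simp only [Matrix.add_apply, Matrix.one_apply_eq]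
    have h2 : (replicateRow Unit y * Q⁻¹ * replicateCol Unit (-x)) default default = - (y ⬝ᵥ (Q⁻¹ *ᵥ x)) := by
      rw [Matrix.mul_assoc]
      simp only [Matrix.mul_apply, replicateRow_apply, replicateCol_apply, Pi.neg_apply, mul_neg,
        Finset.sum_neg_distrib, dotProduct, Matrix.mulVec]
    rw [h2, Matrix.inv_def, Matrix.smul_mulVec, dotProduct_smul, Ring.inverse_eq_inv', smul_eq_mul]
    field_simp
    ring
  have h := field (FractionRing R) (P.map (algebraMap R (FractionRing R)))
    (fun i => algebraMap R (FractionRing R) (a i)) (fun i => algebraMap R (FractionRing R) (b i)) (by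
      rw [← RingHom.mapMatrix_apply, ← RingHom.map_det]
      intro h0
      exact hP ((IsFractionRing.injective R (FractionRing R)) (by rw [h0, map_zero])))
  apply IsFractionRing.injective R (FractionRing R)
  rw [map_sub, RingHom.map_det, RingHom.map_det, RingHom.mapMatrix_apply, RingHom.mapMatrix_apply]
  have h3 : (P - vecMulVec a b).map (algebraMap R (FractionRing R)) =
      P.map (algebraMap R (FractionRing R)) - vecMulVec (fun i => algebraMap R (FractionRing R) (a i))
        (fun i => algebraMap R (FractionRing R) (b i)) := by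
    ext i j
    simp [vecMulVec_apply]
  rw [h3, h]
  congr 1
  rw [← RingHom.mapMatrix_apply, ← RingHom.map_adjugate, RingHom.mapMatrix_apply]
  simp [dotProduct, Matrix.mulVec, map_sum]

variable {K ι X : Type*} [Field K] [Fintype ι] [DecidableEq ι] [DecidableEq X]

/-- the diagonal substitution `x ↦ c x` -/
noncomputable def scale (c : X → K) : MvPolynomial X K →ₐ[K] MvPolynomial X K :=
  MvPolynomial.aeval fun x => MvPolynomial.C (c x) * MvPolynomial.X x

omit [DecidableEq X] in
theorem scale_C (c : X → K) (a : K) : scale c (MvPolynomial.C a) = MvPolynomial.C a := by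
  have h := (scale c).commutes a
  rwa [MvPolynomial.algebraMap_eq] at h

omit [DecidableEq X] in
theorem coeff_scale (c : X → K) (p : MvPolynomial X K) (m : X →₀ ℕ) :
    MvPolynomial.coeff m (scale c p) = (m.prod fun x n => c x ^ n) * MvPolynomial.coeff m p := by
  classical
  unfold scale
  induction p using MvPolynomial.induction_on' with
  | monomial u a =>
    rw [MvPolynomial.aeval_monomial]
    have h1 : (u.prod fun i k => (MvPolynomial.C (c i) * (MvPolynomial.X i : MvPolynomial X K)) ^ k) =
        MvPolynomial.C (u.prod fun v n => c v ^ n) * u.prod fun i k => (MvPolynomial.X i : MvPolynomial X K) ^ k := by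
      simp only [mul_pow]
      rw [Finsupp.prod_mul]
      congr 1
      rw [map_finsuppProd]
      refine Finset.prod_congr rfl fun v _ => ?_
      simp
    rw [h1, MvPolynomial.algebraMap_eq, ← mul_assoc, ← map_mul, ← MvPolynomial.monomial_eq,
      MvPolynomial.coeff_monomial, MvPolynomial.coeff_monomial]
    split_ifs with h
    · subst h; ring
    · simp
  | add p q hp hq => rw [map_add, MvPolynomial.coeff_add, MvPolynomial.coeff_add, hp, hq]; ring

/-- restriction to the line spanned by the coordinate vector of `ρ` -/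
noncomputable def lin (ρ : X) : MvPolynomial X K →ₐ[K] Polynomial K :=
  MvPolynomial.aeval fun x => if x = ρ then Polynomial.X else 0

theorem eq_single_of_degree {m : X →₀ ℕ} (h : m.degree = 1) : ∃ x, m = Finsupp.single x 1 := by
  have h1 : m ≠ 0 := by
    intro h0
    rw [h0, map_zero] at h
    exact zero_ne_one h
  obtain ⟨x, hx⟩ : ∃ x, m x ≠ 0 := by
    by_contra hcon
    push Not at hcon
    exact h1 (Finsupp.ext hcon)
  refine ⟨x, ?_⟩
  have hle : Finsupp.single x 1 ≤ m := by
    intro y
    rw [Finsupp.single_apply]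
    split_ifs with hy
    · subst hy; omega
    · exact Nat.zero_le _
  obtain ⟨r, hr⟩ := exists_add_of_le hle
  have h2 : r.degree = 0 := by
    have := congrArg Finsupp.degree hr
    rw [map_add, h, Finsupp.degree_single] at this
    omega
  rw [Finsupp.degree_eq_zero_iff] at h2
  rw [hr, h2, add_zero]

omit [DecidableEq X] in
theorem degree_le_of_coeff {p : MvPolynomial X K} {d : ℕ} (hp : p.totalDegree ≤ d) {m : X →₀ ℕ}
    (h : MvPolynomial.coeff m p ≠ 0) : m.degree ≤ d := by
  refine le_trans ?_ hp
  have := MvPolynomial.le_totalDegree (MvPolynomial.mem_support_iff.2 h)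
  exact this

theorem lin_affine (ρ : X) (p : MvPolynomial X K) (hp : p.totalDegree ≤ 1) :
    lin ρ p = Polynomial.C (MvPolynomial.coeff 0 p) +
      Polynomial.X * Polynomial.C (MvPolynomial.coeff (Finsupp.single ρ 1) p) := by
  have key : ∀ m ∈ p.support, lin ρ (MvPolynomial.monomial m (MvPolynomial.coeff m p)) =
      (if m = 0 then Polynomial.C (MvPolynomial.coeff 0 p) else 0) +
      (if m = Finsupp.single ρ 1 then
        Polynomial.X * Polynomial.C (MvPolynomial.coeff (Finsupp.single ρ 1) p) else 0) := by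
    intro m hm
    have h1 := degree_le_of_coeff hp (MvPolynomial.mem_support_iff.1 hm)
    rcases Nat.lt_or_ge m.degree 1 with h2 | h2
    · have h3 : m = 0 := (Finsupp.degree_eq_zero_iff m).1 (by omega)
      subst h3
      have h4 : (0 : X →₀ ℕ) ≠ Finsupp.single ρ 1 := by
        intro h
        have := congrFun (congrArg DFunLike.coe h) ρ
        simp at this
      rw [if_pos rfl, if_neg h4, add_zero]
      unfold lin
      rw [MvPolynomial.aeval_monomial]
      simp
    · obtain ⟨x, rfl⟩ := eq_single_of_degree (le_antisymm h1 h2)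
      have h4 : (Finsupp.single x 1 : X →₀ ℕ) ≠ 0 := by
        intro h
        have := congrFun (congrArg DFunLike.coe h) x
        simp at this
      rw [if_neg h4, zero_add]
      unfold lin
      rw [MvPolynomial.aeval_monomial]
      by_cases hx : x = ρ
      · subst hx
        rw [if_pos rfl, Finsupp.prod_single_index (by simp), pow_one, if_pos rfl, mul_comm]
        rfl
      · have h5 : (Finsupp.single x 1 : X →₀ ℕ) ≠ Finsupp.single ρ 1 := by
          intro h
          have := congrFun (congrArg DFunLike.coe h) x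
          simp [Ne.symm hx] at this
        rw [if_neg h5]
        simp [hx]
  conv_lhs => rw [p.as_sum, map_sum]
  rw [Finset.sum_congr rfl key, Finset.sum_add_distrib, Finset.sum_ite_eq', Finset.sum_ite_eq']
  congr 1
  · split_ifs with h
    · rfl
    · rw [MvPolynomial.notMem_support_iff.1 h]; simp
  · split_ifs with h
    · rfl
    · rw [MvPolynomial.notMem_support_iff.1 h]; simp

omit [DecidableEq X] in
theorem coeff_mul_C (m : X →₀ ℕ) (p : MvPolynomial X K) (a : K) :
    MvPolynomial.coeff m (p * MvPolynomial.C a) = MvPolynomial.coeff m p * a := by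
  rw [mul_comm, MvPolynomial.coeff_C_mul, mul_comm]

omit [DecidableEq ι] in
theorem mul_vMV (B : Matrix ι ι K) (a b : ι → K) : B * vecMulVec a b = vecMulVec (B *ᵥ a) b := by
  ext i j
  simp only [Matrix.mul_apply, vecMulVec_apply, Matrix.mulVec, dotProduct, Finset.sum_mul, mul_assoc]

omit [DecidableEq ι] in
theorem vMV_mul (B : Matrix ι ι K) (a b : ι → K) : vecMulVec a b * B = vecMulVec a (b ᵥ* B) := by
  ext i j
  simp only [Matrix.mul_apply, vecMulVec_apply, Matrix.vecMul, dotProduct, Finset.mul_sum, mul_assoc]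

theorem core {N : Matrix ι ι (MvPolynomial X K)} (hdeg : ∀ i j, (N i j).totalDegree ≤ 1) {B D : Matrix ι ι K}
    {c : X → K}
    (hN : N.map (scale c) * D.map MvPolynomial.C = B.map MvPolynomial.C * N) {ρ : X} (hρ : c ρ = 1)
    (hdet : lin ρ N.det = Polynomial.X) :
    ∃ (μ δ : K) (P : Matrix ι ι (MvPolynomial X K)) (u φ : ι → K), δ ≠ 0 ∧ u ≠ 0 ∧ D *ᵥ u = μ • u ∧
      φ ⬝ᵥ u = 1 ∧ (∀ i j, (P i j).totalDegree ≤ 1) ∧
      (∀ i j, MvPolynomial.coeff 0 (P i j) = (1 : Matrix ι ι K) i j) ∧
      P.map (scale c) * D.map MvPolynomial.C = D.map MvPolynomial.C * P ∧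
      N.det = MvPolynomial.C δ *
        (P - vecMulVec (fun i => MvPolynomial.C (u i)) (fun i => MvPolynomial.C (φ i))).det := by
  classical
  set L : Matrix ι ι K := N.map (MvPolynomial.coeff 0) with hL
  set A : Matrix ι ι K := N.map (MvPolynomial.coeff (Finsupp.single ρ 1)) with hA
  -- the restriction to the line
  have h1 : N.map (lin ρ) = L.map Polynomial.C + (Polynomial.X : Polynomial K) • A.map Polynomial.C := by
    ext1 i j
    rw [Matrix.map_apply, lin_affine ρ _ (hdeg i j)]
    rfl
  have h2 : (L.map Polynomial.C + (Polynomial.X : Polynomial K) • A.map Polynomial.C).det = Polynomial.X := by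
    rw [← h1, ← hdet]
    exact ((lin ρ).map_det N).symm
  obtain ⟨u, w, hu, hw, hwu, hku, hkw⟩ := kernels h2
  -- intertwining relations
  have hc0 : ∀ (p : MvPolynomial X K), MvPolynomial.coeff 0 (scale c p) = MvPolynomial.coeff 0 p := by
    intro p
    rw [coeff_scale]
    simp
  have hcρ : ∀ (p : MvPolynomial X K), MvPolynomial.coeff (Finsupp.single ρ 1) (scale c p) =
      MvPolynomial.coeff (Finsupp.single ρ 1) p := by
    intro p
    rw [coeff_scale, Finsupp.prod_single_index (by simp), hρ]
    simp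
  have hLD : L * D = B * L := by
    ext i j
    have h3 := congrArg (MvPolynomial.coeff 0) (congrFun (congrFun hN i) j)
    rw [Matrix.mul_apply, Matrix.mul_apply, MvPolynomial.coeff_sum, MvPolynomial.coeff_sum] at h3
    rw [Matrix.mul_apply, Matrix.mul_apply]
    simpa [hL, coeff_mul_C, MvPolynomial.coeff_C_mul, hc0] using h3
  have hAD : A * D = B * A := by
    ext i j
    have h3 := congrArg (MvPolynomial.coeff (Finsupp.single ρ 1)) (congrFun (congrFun hN i) j)
    rw [Matrix.mul_apply, Matrix.mul_apply, MvPolynomial.coeff_sum, MvPolynomial.coeff_sum] at h3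
    rw [Matrix.mul_apply, Matrix.mul_apply]
    simpa [hA, coeff_mul_C, MvPolynomial.coeff_C_mul, hcρ] using h3
  -- the eigenvalue
  obtain ⟨μ, hμ⟩ := hku (D *ᵥ u) (by rw [Matrix.mulVec_mulVec, hLD, ← Matrix.mulVec_mulVec, hu, Matrix.mulVec_zero])
  obtain ⟨μ', hμ'⟩ := hkw (w ᵥ* B) (by rw [Matrix.vecMul_vecMul, ← hLD, ← Matrix.vecMul_vecMul, hw, Matrix.zero_vecMul])
  have hμμ : μ' = μ := by
    have h3 : w ⬝ᵥ (A *ᵥ (D *ᵥ u)) = μ := by
      rw [hμ, Matrix.mulVec_smul, dotProduct_smul, hwu, smul_eq_mul, mul_one]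
    rw [Matrix.mulVec_mulVec, hAD, ← Matrix.mulVec_mulVec, Matrix.dotProduct_mulVec, hμ', smul_dotProduct, hwu,
      smul_eq_mul, mul_one] at h3
    exact h3
  subst hμμ
  have hu0 : u ≠ 0 := by
    intro h0
    rw [h0, Matrix.mulVec_zero, dotProduct_zero] at hwu
    exact zero_ne_one hwu
  -- the invertible matrix
  set φ : ι → K := w ᵥ* A with hφ
  have hφu : φ ⬝ᵥ u = 1 := by rw [hφ, ← Matrix.dotProduct_mulVec]; exact hwu
  set L' : Matrix ι ι K := L + vecMulVec (A *ᵥ u) φ with hL'
  have hvm : ∀ (a b x : ι → K), vecMulVec a b *ᵥ x = (b ⬝ᵥ x) • a := by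
    intro a b x
    funext i
    simp only [Matrix.mulVec, vecMulVec_apply, dotProduct, Pi.smul_apply, smul_eq_mul, Finset.sum_mul]
    exact Finset.sum_congr rfl fun j _ => by ring
  have hL'u : L' *ᵥ u = A *ᵥ u := by
    rw [hL', Matrix.add_mulVec, hu, hvm, hφu, one_smul, zero_add]
  have hdet' : L'.det ≠ 0 := by
    intro h0
    obtain ⟨x, hx0, hx⟩ := Matrix.exists_mulVec_eq_zero_iff.2 h0
    rw [hL', Matrix.add_mulVec, hvm] at hx
    have h3 : φ ⬝ᵥ x = 0 := by
      have h4 : w ⬝ᵥ (L *ᵥ x + (φ ⬝ᵥ x) • A *ᵥ u) = 0 := by rw [hx, dotProduct_zero]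
      rw [dotProduct_add, Matrix.dotProduct_mulVec, hw, zero_dotProduct, dotProduct_smul, hwu, smul_eq_mul,
        mul_one, zero_add] at h4
      exact h4
    rw [h3, zero_smul, add_zero] at hx
    obtain ⟨a, ha⟩ := hku x hx
    rw [ha, dotProduct_smul, hφu, smul_eq_mul, mul_one] at h3
    rw [h3, zero_smul] at ha
    exact hx0 ha
  have hunit : IsUnit L'.det := isUnit_iff_ne_zero.2 hdet'
  have hL'D : L' * D = B * L' := by
    rw [hL', Matrix.add_mul, Matrix.mul_add, hLD]
    congr 1
    rw [vMV_mul, mul_vMV, hφ, Matrix.vecMul_vecMul, hAD, ← Matrix.vecMul_vecMul, hμ', Matrix.mulVec_mulVec, ← hAD,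
      ← Matrix.mulVec_mulVec, hμ, Matrix.mulVec_smul, Matrix.smul_vecMul]
    ext i j
    simp only [vecMulVec_apply, Pi.smul_apply, smul_eq_mul]
    ring
  have hGB : L'⁻¹ * B = D * L'⁻¹ := by
    have h3 : L'⁻¹ * (B * L') * L'⁻¹ = L'⁻¹ * (L' * D) * L'⁻¹ := by rw [hL'D]
    rw [Matrix.mul_assoc, Matrix.mul_assoc B, Matrix.mul_nonsing_inv _ hunit, Matrix.mul_one, ← Matrix.mul_assoc L'⁻¹ L' D,
      Matrix.nonsing_inv_mul _ hunit, Matrix.one_mul] at h3
    exact h3
  have hGu : L'⁻¹ *ᵥ (A *ᵥ u) = u := by
    rw [← hL'u, Matrix.mulVec_mulVec, Matrix.nonsing_inv_mul _ hunit, Matrix.one_mulVec]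
  set G : Matrix ι ι K := L'⁻¹ with hG
  set V : Matrix ι ι (MvPolynomial X K) :=
    vecMulVec (fun i => MvPolynomial.C (u i)) (fun i => MvPolynomial.C (φ i)) with hV
  have hVmap : V = (vecMulVec u φ).map MvPolynomial.C := by
    ext1 i j
    simp [hV, vecMulVec_apply]
  have hmapmul : ∀ (S T : Matrix ι ι K), (S * T).map MvPolynomial.C =
      (S.map MvPolynomial.C * T.map MvPolynomial.C : Matrix ι ι (MvPolynomial X K)) := by
    intro S T
    ext1 i j
    simp [Matrix.mul_apply, map_sum]
  refine ⟨μ', L'.det, G.map MvPolynomial.C * N + V, u, φ, hdet', hu0, hμ, hφu, ?_, ?_, ?_, ?_⟩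
  · intro i j
    rw [Matrix.add_apply, Matrix.mul_apply]
    refine (MvPolynomial.totalDegree_add _ _).trans (max_le ?_ ?_)
    · refine (MvPolynomial.totalDegree_finsetSum _ _).trans (Finset.sup_le fun k _ => ?_)
      refine (MvPolynomial.totalDegree_mul _ _).trans ?_
      rw [Matrix.map_apply, MvPolynomial.totalDegree_C, zero_add]
      exact hdeg k j
    · rw [hVmap, Matrix.map_apply, MvPolynomial.totalDegree_C]
      exact Nat.zero_le _
  · intro i j
    have h3 : G * L + vecMulVec u φ = 1 := by
      have h4 : G * L' = 1 := Matrix.nonsing_inv_mul _ hunit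
      rw [hL', Matrix.mul_add] at h4
      rw [← h4, mul_vMV, hGu]
    rw [← h3, hVmap, Matrix.add_apply, Matrix.add_apply, MvPolynomial.coeff_add, Matrix.mul_apply, Matrix.mul_apply,
      MvPolynomial.coeff_sum, Matrix.map_apply, MvPolynomial.coeff_C, if_pos rfl]
    congr 1
    refine Finset.sum_congr rfl fun k _ => ?_
    rw [Matrix.map_apply, MvPolynomial.coeff_C_mul]
    rfl
  · have h3 : (G.map MvPolynomial.C * N + V).map (scale c) = G.map MvPolynomial.C * N.map (scale c) + V := by
      ext1 i j
      simp only [Matrix.map_apply, Matrix.add_apply, Matrix.mul_apply, map_add, map_sum, map_mul, scale_C]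
      congr 1
      rw [hVmap, Matrix.map_apply, scale_C]
    rw [h3, Matrix.add_mul, Matrix.mul_assoc, hN, ← Matrix.mul_assoc, ← hmapmul, hGB, hmapmul, Matrix.mul_add,
      Matrix.mul_assoc]
    congr 1
    rw [hVmap, ← hmapmul, ← hmapmul]
    congr 1
    rw [vMV_mul, mul_vMV, hφ, Matrix.vecMul_vecMul, hAD, ← Matrix.vecMul_vecMul, hμ', hμ, Matrix.smul_vecMul]
    ext i j
    simp only [vecMulVec_apply, Pi.smul_apply, smul_eq_mul]
    ring
  · have h3 : L'.map MvPolynomial.C * (G.map MvPolynomial.C * N + V - V) = N := by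
      rw [add_sub_cancel_right, ← Matrix.mul_assoc, ← hmapmul, Matrix.mul_nonsing_inv _ hunit]
      have h4 : (1 : Matrix ι ι K).map MvPolynomial.C = (1 : Matrix ι ι (MvPolynomial X K)) := by
        ext1 i j
        simp only [Matrix.map_apply, Matrix.one_apply]
        split_ifs <;> simp
      rw [h4, Matrix.one_mul]
    have h5 : (L'.map MvPolynomial.C : Matrix ι ι (MvPolynomial X K)).det = MvPolynomial.C L'.det := by
      rw [RingHom.map_det, RingHom.mapMatrix_apply]
    rw [← h5, ← Matrix.det_mul]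
    exact congrArg Matrix.det h3.symm

end Pool.Agent.Helper1x.EQ
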