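import Pool.Agent.Helper1x.EQ.Chain

/-!
# Counting eigenvalues: the lower bound for networks
-/

set_option autoImplicit false

namespace Pool.Agent.Helper1x.EQ

open Matrix Finset

variable {K ι X V E Λ : Type*} [Field K] [Fintype ι] [DecidableEq ι] [DecidableEq X] [Fintype V] [DecidableEq V]
  [Fintype E] [DecidableEq E] [Fintype Λ] [DecidableEq Λ]

/-- the signed incidence of the vertex `v` and the edge `e` -/
def inc (src tgt : E → V) (v : V) (e : E) : ℤ := (if src e = v then 1 else 0) - (if tgt e = v then 1 else 0)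

/-- the signed indicator of the edges between `U` and its complement -/
def cutv (src tgt : E → V) (U : Finset V) (e : E) : ℤ := (if src e ∈ U then 1 else 0) - (if tgt e ∈ U then 1 else 0)

omit [Fintype V] [Fintype E] [DecidableEq E] in
theorem sum_inc (src tgt : E → V) (U : Finset V) (e : E) : ∑ v ∈ U, inc src tgt v e = cutv src tgt U e := by
  unfold inc cutv
  rw [Finset.sum_sub_distrib]
  simp

omit [Fintype V] [Fintype E] [DecidableEq E] in
theorem cutv_ne_zero (src tgt : E → V) (U : Finset V) (e : E) :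
    cutv src tgt U e ≠ 0 ↔ ¬ (src e ∈ U ↔ tgt e ∈ U) := by
  unfold cutv
  by_cases h1 : src e ∈ U <;> by_cases h2 : tgt e ∈ U <;> simp [h1, h2]

/-- the exponent function of a labelling and a set of vertices -/
def expo (src tgt : E → V) (ℓ : E → Λ) (U : Finset V) (e : E) (i : Λ) : ℤ := if i = ℓ e then cutv src tgt U e else 0

omit [Fintype V] [DecidableEq E] in
theorem prod_expo {G : Type*} [CommGroup G] (src tgt : E → V) (t : E → Λ → G) (ℓ : E → Λ) (U : Finset V) :
    ∏ e, ∏ i, t e i ^ expo src tgt ℓ U e i = ∏ e, t e (ℓ e) ^ cutv src tgt U e := by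
  refine Finset.prod_congr rfl fun e _ => ?_
  rw [Finset.prod_eq_single (ℓ e)]
  · simp [expo]
  · intro i _ hi
    simp [expo, hi]
  · intro h
    exact absurd (Finset.mem_univ _) h

/-- The numbers `t e i` satisfy no multiplicative relation with exponents of absolute value at most `b`, except the trivial
relation. -/
def Generic {G E Λ : Type*} [CommGroup G] [Fintype E] [Fintype Λ] (b : ℕ) (t : E → Λ → G) : Prop :=
  ∀ a : E → Λ → ℤ, (∀ e i, |a e i| ≤ b) → ∏ e, ∏ i, t e i ^ a e i = 1 → a = 0

omit [Fintype V] [Fintype E] [DecidableEq E] [Fintype Λ] in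
theorem abs_expo_le (src tgt : E → V) (ℓ : E → Λ) (U : Finset V) (e : E) (i : Λ) : |expo src tgt ℓ U e i| ≤ 1 := by
  unfold expo cutv
  by_cases h0 : i = ℓ e <;> by_cases h1 : src e ∈ U <;> by_cases h2 : tgt e ∈ U <;> simp [h0, h1, h2]

theorem prod_zpow_eq {G J : Type*} [CommGroup G] (s : Finset J) (a : G) (f : J → ℤ) :
    ∏ v ∈ s, a ^ f v = a ^ ∑ v ∈ s, f v := by
  classical
  induction s using Finset.induction_on with
  | empty => simp
  | insert x s hx ih => rw [Finset.prod_insert hx, Finset.sum_insert hx, ih, _root_.zpow_add]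

/-- an eigenvalue is a root of the characteristic polynomial -/
theorem root_of_eigen [DecidableEq K] {D : Matrix ι ι K} {a : K} {y : ι → K} (hy : y ≠ 0) (h : D *ᵥ y = a • y) :
    a ∈ D.charpoly.roots.toFinset := by
  rw [Multiset.mem_toFinset, Polynomial.mem_roots (Matrix.charpoly_monic D).ne_zero, Polynomial.IsRoot.def,
    Matrix.eval_charpoly]
  apply Matrix.exists_mulVec_eq_zero_iff.1
  refine ⟨y, hy, ?_⟩
  rw [Matrix.sub_mulVec, h]
  funext i
  simp [Matrix.scalar_apply]

theorem lower_abs {N : Matrix ι ι (MvPolynomial X K)} (hdeg : ∀ i j, (N i j).totalDegree ≤ 1) {B D : Matrix ι ι K}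
    (hD : IsUnit D.det) {c : X → K}
    (hN : N.map (scale c) * D.map MvPolynomial.C = B.map MvPolynomial.C * N) {ρ : X} (hρ : c ρ = 1)
    (hdet : lin ρ N.det = Polynomial.X)
    (src tgt : E → V) (t : E → Λ → Kˣ) (hind : Generic 2 t)
    (ξ : (E → Λ) → V → X) (hξ : ∀ ℓ, Function.Injective (ξ ℓ))
    (hc : ∀ ℓ v, c (ξ ℓ v) = ((∏ e, t e (ℓ e) ^ inc src tgt v e : Kˣ) : K))
    (hcoef : ∀ ℓ, MvPolynomial.coeff (mono (univ.image (ξ ℓ))) N.det ≠ 0)
    (hconn : ∀ U : Finset V, U.Nonempty → U ≠ univ → ∃ e, ¬ (src e ∈ U ↔ tgt e ∈ U))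
    (w : ℕ) (hw1 : 1 ≤ w) [Nonempty Λ]
    (hw : ∀ L : List V, L.Nodup → L.toFinset = univ → ∃ k, k < L.length ∧
      w ≤ (univ.filter fun e => ¬ (src e ∈ (L.take k).toFinset ↔ tgt e ∈ (L.take k).toFinset)).card) :
    Fintype.card Λ ^ w + 1 ≤ Fintype.card ι := by
  classical
  obtain ⟨μ, ⟨y0, hy0, hy0'⟩, hch⟩ := chain hdeg hD hN hρ hdet
  have hμ0 : μ ≠ 0 := by
    intro h0
    apply hy0
    have h1 : D⁻¹ *ᵥ (D *ᵥ y0) = y0 := by rw [Matrix.mulVec_mulVec, Matrix.nonsing_inv_mul _ hD, Matrix.one_mulVec]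
    rw [hy0', h0, zero_smul, Matrix.mulVec_zero] at h1
    exact h1.symm
  -- the weight of a set of vertices
  have hwt : ∀ (ℓ : E → Λ) (U : Finset V), ∏ x ∈ U.image (ξ ℓ), c x =
      ((∏ e, t e (ℓ e) ^ cutv src tgt U e : Kˣ) : K) := by
    intro ℓ U
    rw [Finset.prod_image (fun a _ b _ hab => hξ ℓ hab)]
    rw [Finset.prod_congr rfl fun v _ => hc ℓ v, ← Units.coe_prod]
    congr 1
    rw [Finset.prod_comm]
    refine Finset.prod_congr rfl fun e _ => ?_
    rw [← sum_inc]
    exact prod_zpow_eq _ _ _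
  -- for every labelling there is a good cut
  have key : ∀ ℓ : E → Λ, ∃ U : Finset V, w ≤ (univ.filter fun e => cutv src tgt U e ≠ 0).card ∧
      μ * ((∏ e, t e (ℓ e) ^ cutv src tgt U e : Kˣ) : K) ∈ D.charpoly.roots.toFinset := by
    intro ℓ
    obtain ⟨L, hL1, hL2, hL3⟩ := hch (univ.image (ξ ℓ)) (hcoef ℓ) (by
      intro S' hS' hne hneq
      -- the preimage
      set U : Finset V := univ.filter fun v => ξ ℓ v ∈ S' with hU
      have h1 : U.image (ξ ℓ) = S' := by
        ext x
        simp only [hU, Finset.mem_image, Finset.mem_filter, Finset.mem_univ, true_and]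
        constructor
        · rintro ⟨v, hv, rfl⟩
          exact hv
        · intro hx
          obtain ⟨v, _, rfl⟩ := Finset.mem_image.1 (hS' hx)
          exact ⟨v, hx, rfl⟩
      rw [← h1, hwt]
      intro h2
      have h3 : (∏ e, t e (ℓ e) ^ cutv src tgt U e : Kˣ) = 1 := Units.ext (by rw [h2]; rfl)
      rw [← prod_expo] at h3
      have h4 := hind _ (fun e i => (abs_expo_le src tgt ℓ U e i).trans (by norm_num)) h3
      obtain ⟨e, he⟩ := hconn U (by
        rw [← h1] at hne
        exact (Finset.image_nonempty).1 hne) (by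
        intro hU'
        apply hneq
        rw [← h1, hU'])
      rw [← cutv_ne_zero] at he
      apply he
      have h5 := congrFun (congrFun h4 e) (ℓ e)
      simpa [expo] using h5)
    -- the list of vertices
    have hinv : ∀ x ∈ L, ∃ v, ξ ℓ v = x := by
      intro x hx
      have : x ∈ univ.image (ξ ℓ) := by rw [← hL2]; exact List.mem_toFinset.2 hx
      obtain ⟨v, _, hv⟩ := Finset.mem_image.1 this
      exact ⟨v, hv⟩
    obtain ⟨L', hL'⟩ : ∃ L' : List V, L'.map (ξ ℓ) = L := by
      clear hL1 hL2 hL3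
      induction L with
      | nil => exact ⟨[], rfl⟩
      | cons a L ih =>
        obtain ⟨v, hv⟩ := hinv a (by simp)
        obtain ⟨L', hL'⟩ := ih (fun x hx => hinv x (by simp [hx]))
        exact ⟨v :: L', by rw [List.map_cons, hv, hL']⟩
    have hnd : L'.Nodup := by
      rw [← hL'] at hL1
      exact List.Nodup.of_map _ hL1
    have hfull : L'.toFinset = univ := by
      ext v
      simp only [List.mem_toFinset, Finset.mem_univ, iff_true]
      have h1 : ξ ℓ v ∈ L := by
        rw [← List.mem_toFinset, hL2]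
        exact Finset.mem_image_of_mem _ (Finset.mem_univ v)
      rw [← hL', List.mem_map] at h1
      obtain ⟨a, ha, hav⟩ := h1
      rwa [← hξ ℓ hav]
    obtain ⟨k, hk, hk'⟩ := hw L' hnd hfull
    obtain ⟨y, hy, hyD⟩ := hL3 k (by rw [← hL', List.length_map]; exact hk)
    refine ⟨(L'.take k).toFinset, ?_, ?_⟩
    · simpa only [cutv_ne_zero] using hk'
    · have h2 := root_of_eigen hy hyD
      have h3 : (L.take k).toFinset = (L'.take k).toFinset.image (ξ ℓ) := by
        rw [← hL', ← List.map_take]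
        ext x
        rw [List.mem_toFinset, List.mem_map, Finset.mem_image]
        simp only [List.mem_toFinset]
      rw [h3, hwt] at h2
      exact h2
  choose U hU1 hU2 using key
  set ν : (E → Λ) → Kˣ := fun ℓ => ∏ e, t e (ℓ e) ^ cutv src tgt (U ℓ) e with hν
  -- equal eigenvalues
  have heq : ∀ ℓ ℓ' : E → Λ, ν ℓ = ν ℓ' → ∀ e, cutv src tgt (U ℓ) e ≠ 0 → ℓ' e = ℓ e := by
    intro ℓ ℓ' h e he
    have h1 : ∏ e, ∏ i, t e i ^ (expo src tgt ℓ (U ℓ) e i - expo src tgt ℓ' (U ℓ') e i) = 1 := by
      have h2 : ∏ e, ∏ i, t e i ^ (expo src tgt ℓ (U ℓ) e i - expo src tgt ℓ' (U ℓ') e i) =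
          (∏ e, ∏ i, t e i ^ expo src tgt ℓ (U ℓ) e i) / ∏ e, ∏ i, t e i ^ expo src tgt ℓ' (U ℓ') e i := by
        rw [← Finset.prod_div_distrib]
        refine Finset.prod_congr rfl fun e _ => ?_
        rw [← Finset.prod_div_distrib]
        refine Finset.prod_congr rfl fun i _ => ?_
        rw [_root_.zpow_sub, div_eq_mul_inv]
      rw [h2, prod_expo, prod_expo, div_eq_one]
      exact h
    have h3 := congrFun (congrFun (hind _ (fun e i => (abs_sub _ _).trans (by
      have := abs_expo_le src tgt ℓ (U ℓ) e i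
      have := abs_expo_le src tgt ℓ' (U ℓ') e i
      push_cast
      linarith)) h1) e) (ℓ e)
    simp only [expo, if_true, Pi.zero_apply] at h3
    by_contra hne
    rw [if_neg (fun h => hne h.symm), sub_zero] at h3
    exact he h3
  -- the number of values
  have hfib : ∀ b ∈ univ.image ν, (univ.filter fun ℓ => ν ℓ = b).card ≤ Fintype.card Λ ^ (Fintype.card E - w) := by
    intro b hb
    obtain ⟨ℓ0, _, rfl⟩ := Finset.mem_image.1 hb
    set Q : Finset E := univ.filter fun e => cutv src tgt (U ℓ0) e ≠ 0 with hQ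
    have h1 : (univ.filter fun ℓ => ν ℓ = ν ℓ0) ⊆ Fintype.piFinset fun e => if e ∈ Q then {ℓ0 e} else univ := by
      intro ℓ hℓ
      rw [Finset.mem_filter] at hℓ
      rw [Fintype.mem_piFinset]
      intro e
      split_ifs with he
      · rw [Finset.mem_singleton]
        rw [hQ, Finset.mem_filter] at he
        exact heq ℓ0 ℓ hℓ.2.symm e he.2
      · exact Finset.mem_univ _
    refine (Finset.card_le_card h1).trans ?_
    rw [Fintype.card_piFinset]
    have h2 : ∀ e, (if e ∈ Q then ({ℓ0 e} : Finset Λ) else univ).card = if e ∈ Q then 1 else Fintype.card Λ := by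
      intro e
      split_ifs
      · exact Finset.card_singleton _
      · exact Finset.card_univ
    rw [Finset.prod_congr rfl fun e _ => h2 e, Finset.prod_ite]
    rw [Finset.prod_const_one, one_mul, Finset.prod_const]
    apply Nat.pow_le_pow_right Fintype.card_pos
    have h3 : (univ.filter fun e => e ∉ Q).card + (univ.filter fun e => e ∈ Q).card = Fintype.card E := by
      rw [add_comm, Finset.card_filter_add_card_filter_not, Finset.card_univ]
    have h4 : (univ.filter fun e => e ∈ Q).card = Q.card := by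
      congr 1
      ext e
      simp
    have h5 : w ≤ Q.card := hU1 ℓ0
    omega
  have hcard := Finset.card_le_mul_card_image (f := ν) (univ : Finset (E → Λ)) _ hfib
  rw [Finset.card_univ, Fintype.card_fun] at hcard
  have hwE : w ≤ Fintype.card E := by
    obtain ⟨ℓ⟩ : Nonempty (E → Λ) := inferInstance
    exact (hU1 ℓ).trans (Finset.card_le_univ _)
  have hpos : 0 < Fintype.card Λ := Fintype.card_pos
  have himg : Fintype.card Λ ^ w ≤ (univ.image ν).card := by
    have h1 : Fintype.card Λ ^ Fintype.card E = Fintype.card Λ ^ (Fintype.card E - w) * Fintype.card Λ ^ w := by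
      rw [← pow_add]
      congr 1
      omega
    rw [h1] at hcard
    exact Nat.le_of_mul_le_mul_left hcard (pow_pos hpos _)
  -- one is not a value
  have hone : (1 : Kˣ) ∉ univ.image ν := by
    intro h
    obtain ⟨ℓ, _, hℓ⟩ := Finset.mem_image.1 h
    simp only [hν] at hℓ
    rw [← prod_expo] at hℓ
    have h1 := hind _ (fun e i => (abs_expo_le src tgt ℓ (U ℓ) e i).trans (by norm_num)) hℓ
    have h2 : 0 < (univ.filter fun e => cutv src tgt (U ℓ) e ≠ 0).card := lt_of_lt_of_le hw1 (hU1 ℓ)
    obtain ⟨e, he⟩ := Finset.card_pos.1 h2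
    rw [Finset.mem_filter] at he
    apply he.2
    have h3 := congrFun (congrFun h1 e) (ℓ e)
    simpa [expo] using h3
  have hins : (insert (1 : Kˣ) (univ.image ν)).card ≤ D.charpoly.roots.toFinset.card := by
    apply Finset.card_le_card_of_injOn (fun b : Kˣ => μ * (b : K))
    · intro b hb
      rw [Finset.mem_coe, Finset.mem_insert] at hb
      rcases hb with rfl | hb
      · have := root_of_eigen hy0 hy0'
        simpa using this
      · obtain ⟨ℓ, _, rfl⟩ := Finset.mem_image.1 hb
        exact hU2 ℓ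
    · intro a _ b _ hab
      exact Units.ext (mul_left_cancel₀ hμ0 hab)
  rw [Finset.card_insert_of_notMem hone] at hins
  have hroots : D.charpoly.roots.toFinset.card ≤ Fintype.card ι := by
    refine (Multiset.toFinset_card_le _).trans ?_
    refine (Polynomial.card_roots' _).trans ?_
    rw [Matrix.charpoly_natDegree_eq_dim]
  omega

end Pool.Agent.Helper1x.EQ
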