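import Mathlib

/-!
# The kernel of a matrix `L` with `det (L + s A) = s`
-/

set_option autoImplicit false

namespace Pool.Agent.Helper1x.EQ

open Matrix

variable {K ι : Type*} [Field K] [Fintype ι] [DecidableEq ι]

theorem kernel_line {L : Matrix ι ι K} {i j : ι} (hij : L.adjugate i j ≠ 0) {x u : ι → K}
    (hx : L *ᵥ x = 0) (hu : L *ᵥ u = 0) (hu0 : u ≠ 0) : ∃ a : K, x = a • u := by
  -- a vector of the kernel whose `i`-th coordinate vanishes is zero
  have key : ∀ v : ι → K, L *ᵥ v = 0 → v i = 0 → v = 0 := by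
    intro v hv hvi
    by_contra hne
    apply hij
    rw [Matrix.adjugate_apply]
    apply Matrix.exists_mulVec_eq_zero_iff.1
    refine ⟨v, hne, ?_⟩
    funext k
    by_cases hk : k = j
    · subst hk
      simp [Matrix.mulVec, Matrix.updateRow_self, hvi]
    · have := congrFun hv k
      simpa [Matrix.mulVec, Matrix.updateRow_ne hk] using this
  have hui : u i ≠ 0 := fun h => hu0 (key u hu h)
  refine ⟨x i / u i, ?_⟩
  have h1 := key (x - (x i / u i) • u) (by rw [mulVec_sub, mulVec_smul, hx, hu]; simp)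
    (by simp only [Pi.sub_apply, Pi.smul_apply, smul_eq_mul]; field_simp; ring)
  exact sub_eq_zero.1 h1

theorem kernels {L A : Matrix ι ι K}
    (h : (L.map Polynomial.C + (Polynomial.X : Polynomial K) • A.map Polynomial.C).det = Polynomial.X) :
    ∃ u w : ι → K, L *ᵥ u = 0 ∧ w ᵥ* L = 0 ∧ w ⬝ᵥ (A *ᵥ u) = 1 ∧
      (∀ x, L *ᵥ x = 0 → ∃ a : K, x = a • u) ∧ (∀ y, y ᵥ* L = 0 → ∃ a : K, y = a • w) := by
  classical
  have hev : (L.map Polynomial.C + (Polynomial.X : Polynomial K) • A.map Polynomial.C).map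
      (Polynomial.evalRingHom 0) = L := by
    ext i j
    simp
  have hdet : L.det = 0 := by
    have h1 := congrArg (Polynomial.evalRingHom (0 : K)) h
    rw [RingHom.map_det, RingHom.mapMatrix_apply, hev] at h1
    simpa using h1
  obtain ⟨u, hu0, hu⟩ := Matrix.exists_mulVec_eq_zero_iff.2 hdet
  set Ls := L.map Polynomial.C + (Polynomial.X : Polynomial K) • A.map Polynomial.C with hLs
  have h2 : Ls *ᵥ (fun i => Polynomial.C (u i)) =
      (Polynomial.X : Polynomial K) • (fun i => Polynomial.C ((A *ᵥ u) i)) := by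
    funext i
    have h3 : (L *ᵥ u) i = 0 := by rw [hu]; rfl
    simp only [hLs, Matrix.add_mulVec, Pi.add_apply, Matrix.smul_mulVec, Pi.smul_apply, smul_eq_mul]
    have h4 : ((L.map Polynomial.C) *ᵥ (fun i => Polynomial.C (u i))) i = Polynomial.C ((L *ᵥ u) i) := by
      simp [Matrix.mulVec, dotProduct, map_sum]
    have h5 : ((A.map Polynomial.C) *ᵥ (fun i => Polynomial.C (u i))) i = Polynomial.C ((A *ᵥ u) i) := by
      simp [Matrix.mulVec, dotProduct, map_sum]
    rw [h4, h5, h3]
    simp
  have h3 : Ls.adjugate *ᵥ (fun i => Polynomial.C ((A *ᵥ u) i)) = fun i => Polynomial.C (u i) := by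
    have h4 : Ls.adjugate *ᵥ (Ls *ᵥ (fun i => Polynomial.C (u i))) =
        (Polynomial.X : Polynomial K) • (fun i => Polynomial.C (u i)) := by
      rw [Matrix.mulVec_mulVec, Matrix.adjugate_mul, h, Matrix.smul_mulVec, Matrix.one_mulVec]
    rw [h2, Matrix.mulVec_smul] at h4
    funext i
    have h5 := congrFun h4 i
    simp only [Pi.smul_apply, smul_eq_mul] at h5
    exact mul_left_cancel₀ Polynomial.X_ne_zero h5
  have h4 : L.adjugate *ᵥ (A *ᵥ u) = u := by
    funext i
    have h5 := congrArg (Polynomial.evalRingHom (0 : K)) (congrFun h3 i)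
    have h6 : Ls.adjugate.map (Polynomial.evalRingHom (0 : K)) = L.adjugate := by
      rw [← RingHom.mapMatrix_apply, RingHom.map_adjugate, RingHom.mapMatrix_apply, hev]
    rw [← h6]
    simp only [Matrix.mulVec, dotProduct, map_sum, map_mul, Matrix.map_apply] at h5 ⊢
    simpa using h5
  -- a nonzero entry of the adjugate
  have h5 : ∃ i j, L.adjugate i j ≠ 0 := by
    by_contra hcon
    push Not at hcon
    apply hu0
    rw [← h4]
    funext i
    simp [Matrix.mulVec, dotProduct, hcon]
  obtain ⟨i, j, hij⟩ := h5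
  have hker : ∀ x, L *ᵥ x = 0 → ∃ a : K, x = a • u := fun x hx => kernel_line hij hx hu hu0
  -- the columns of the adjugate
  have hcol : ∀ l, L *ᵥ (fun k => L.adjugate k l) = 0 := by
    intro l
    funext k
    have h6 := congrFun (congrFun (Matrix.mul_adjugate L) k) l
    rw [hdet, zero_smul] at h6
    simpa [Matrix.mul_apply, Matrix.mulVec, dotProduct] using h6
  choose w hw using fun l => hker _ (hcol l)
  have hR : ∀ k l, L.adjugate k l = u k * w l := by
    intro k l
    have := congrFun (hw l) k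
    simp only [Pi.smul_apply, smul_eq_mul] at this
    rw [this, mul_comm]
  have hui : u i ≠ 0 := by
    intro h0
    apply hij
    rw [hR, h0, zero_mul]
  have hwL : w ᵥ* L = 0 := by
    funext k
    have h6 := congrFun (congrFun (Matrix.adjugate_mul L) i) k
    rw [hdet, zero_smul, Matrix.mul_apply] at h6
    simp only [hR, mul_assoc, ← Finset.mul_sum] at h6
    have h7 := (mul_eq_zero.1 h6).resolve_left hui
    simpa [Matrix.vecMul, dotProduct] using h7
  have hwA : w ⬝ᵥ (A *ᵥ u) = 1 := by
    have h6 := congrFun h4 i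
    rw [Matrix.mulVec] at h6
    simp only [dotProduct, hR, mul_assoc, ← Finset.mul_sum] at h6
    have h7 : u i * (w ⬝ᵥ (A *ᵥ u)) = u i * 1 := by rw [mul_one]; exact h6
    exact mul_left_cancel₀ hui h7
  refine ⟨u, w, hu, hwL, hwA, hker, ?_⟩
  intro y hy
  have hw0 : w ≠ 0 := by
    intro h0
    rw [h0, zero_dotProduct] at hwA
    exact zero_ne_one hwA
  have h6 : (Lᵀ).adjugate j i ≠ 0 := by
    rw [← Matrix.adjugate_transpose]
    exact hij
  exact kernel_line h6 (by rw [Matrix.mulVec_transpose]; exact hy) (by rw [Matrix.mulVec_transpose]; exact hwL) hw0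

end Pool.Agent.Helper1x.EQ
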