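import Pool.Agent.Helper1x.EQ.Sym

/-!
# Tensor network polynomials of graphs, their gauge symmetries, the lower bound by the cutwidth
-/

set_option autoImplicit false

namespace Pool.Agent.Helper1x.EQ

open Matrix Finset

section

variable {V E : Type*} [Fintype V] [DecidableEq V] [Fintype E] [DecidableEq E]

/-- The part at the vertex `v` of the labelling `ℓ` of the edges: the labels of the edges which are not incident with `v`
are replaced by `0`. -/
def loc {q : ℕ} (src tgt : E → V) (v : V) (ℓ : E → Fin (q + 1)) : E → Fin (q + 1) :=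
  fun e => if src e = v ∨ tgt e = v then ℓ e else 0

/-- The tensor network polynomial of the graph with bond dimension `q + 1`: the sum over all labellings `ℓ` of the edges by
`Fin (q + 1)` of the product over the vertices `v` of the entry of the tensor at `v` given by the labels of the edges at
`v`. -/
noncomputable def net (K : Type*) [Field K] (q : ℕ) (src tgt : E → V) : MvPolynomial (V × (E → Fin (q + 1))) K :=
  ∑ ℓ : E → Fin (q + 1), ∏ v : V, MvPolynomial.X (v, loc src tgt v ℓ)

/-- The gauge transformation given by the numbers `t e i`: the entry of the tensor at `v` with the labels `τ` is multiplied by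
`t e (τ e)` for each edge `e` which starts at `v` and divided by `t e (τ e)` for each edge `e` which ends at `v`. -/
noncomputable def gauge {K : Type*} [Field K] {q : ℕ} (src tgt : E → V) (t : E → Fin (q + 1) → Kˣ)
    (x : V × (E → Fin (q + 1))) : K := ((∏ e, t e (x.2 e) ^ inc src tgt x.1 e : Kˣ) : K)

/-- The number of edges between `U` and its complement. -/
def cutSize (src tgt : E → V) (U : Finset V) : ℕ := (univ.filter fun e => ¬ (src e ∈ U ↔ tgt e ∈ U)).card

/-- The graph is connected. -/
def Conn (src tgt : E → V) : Prop := ∀ U : Finset V, U.Nonempty → U ≠ univ → ∃ e, ¬ (src e ∈ U ↔ tgt e ∈ U)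

/-- The cutwidth: the least `w` such that the vertices can be ordered in such a way that at most `w` edges connect each
initial segment with its complement. -/
noncomputable def cutwidth (src tgt : E → V) : ℕ :=
  sInf {w : ℕ | ∃ L : List V, L.Nodup ∧ L.toFinset = univ ∧ ∀ k, cutSize src tgt (L.take k).toFinset ≤ w}

theorem exists_cut (src tgt : E → V) (L : List V) (h1 : L.Nodup) (h2 : L.toFinset = univ) :
    ∃ k, cutwidth src tgt ≤ cutSize src tgt (L.take k).toFinset := by
  by_contra hcon
  push Not at hcon
  have h3 : ∀ k, cutSize src tgt (L.take k).toFinset ≤ cutwidth src tgt - 1 := fun k => by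
    have := hcon k
    omega
  have h4 : cutwidth src tgt ≤ cutwidth src tgt - 1 := Nat.sInf_le ⟨L, h1, h2, h3⟩
  have h5 := hcon 0
  omega

theorem cutSize_univ (src tgt : E → V) : cutSize src tgt univ = 0 := by
  unfold cutSize
  simp

theorem one_le_cutwidth (src tgt : E → V) (hconn : Conn src tgt) (hV : 2 ≤ Fintype.card V) : 1 ≤ cutwidth src tgt := by
  have hne : {w : ℕ | ∃ L : List V, L.Nodup ∧ L.toFinset = univ ∧
      ∀ k, cutSize src tgt (L.take k).toFinset ≤ w}.Nonempty := by
    refine ⟨Fintype.card E, (univ : Finset V).toList, Finset.nodup_toList _, Finset.toList_toFinset _, fun k => ?_⟩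
    exact Finset.card_le_univ _
  obtain ⟨L, h1, h2, h3⟩ := Nat.sInf_mem hne
  by_contra hcon
  have h0 : cutwidth src tgt = 0 := by omega
  have hlen : L.length = Fintype.card V := by
    rw [← List.toFinset_card_of_nodup h1, h2, Finset.card_univ]
  have h4 : ((L.take 1).toFinset).card = 1 := by
    rw [List.toFinset_card_of_nodup (h1.sublist (List.take_sublist _ _)), List.length_take]
    omega
  obtain ⟨e, he⟩ := hconn (L.take 1).toFinset (Finset.card_pos.1 (by omega)) (by
    intro h
    rw [h, Finset.card_univ] at h4
    omega)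
  have h5 := h3 1
  have h6 : cutSize src tgt (L.take 1).toFinset = 0 := by
    change _ ≤ cutwidth src tgt at h5
    omega
  unfold cutSize at h6
  rw [Finset.card_eq_zero] at h6
  have : e ∈ (univ.filter fun e => ¬ (src e ∈ (L.take 1).toFinset ↔ tgt e ∈ (L.take 1).toFinset)) := by
    rw [Finset.mem_filter]
    exact ⟨Finset.mem_univ _, he⟩
  rw [h6] at this
  exact absurd this (Finset.notMem_empty _)

variable {K : Type*} [Field K] {q : ℕ}

theorem loc_src {src tgt : E → V} (ℓ : E → Fin (q + 1)) (e : E) : loc src tgt (src e) ℓ e = ℓ e := by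
  simp [loc]

/-- the gauge weight of a monomial of the tensor network polynomial -/
theorem gauge_loc (src tgt : E → V) (t : E → Fin (q + 1) → Kˣ) (v : V) (ℓ : E → Fin (q + 1)) :
    gauge src tgt t (v, loc src tgt v ℓ) = ((∏ e, t e (ℓ e) ^ inc src tgt v e : Kˣ) : K) := by
  unfold gauge
  congr 1
  refine Finset.prod_congr rfl fun e _ => ?_
  simp only
  by_cases h : src e = v ∨ tgt e = v
  · simp [loc, h]
  · have h1 : inc src tgt v e = 0 := by
      push Not at h
      simp [inc, h.1, h.2]
    rw [h1, zpow_zero, zpow_zero]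

/-- the gauge transformations are symmetries -/
theorem gauge_symm (src tgt : E → V) (t : E → Fin (q + 1) → Kˣ) :
    scale (gauge src tgt t) (net K q src tgt) = net K q src tgt := by
  unfold net
  rw [map_sum]
  refine Finset.sum_congr rfl fun ℓ _ => ?_
  rw [map_prod]
  simp only [scale_X, gauge_loc]
  rw [Finset.prod_mul_distrib]
  have h1 : ∏ v : V, (MvPolynomial.C ((∏ e, t e (ℓ e) ^ inc src tgt v e : Kˣ) : K) :
      MvPolynomial (V × (E → Fin (q + 1))) K) = 1 := by
    rw [← map_prod, ← Units.coe_prod, Finset.prod_comm]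
    have h2 : ∀ e, ∏ v : V, t e (ℓ e) ^ inc src tgt v e = 1 := by
      intro e
      rw [prod_zpow_eq, sum_inc]
      simp [cutv]
    rw [Finset.prod_congr rfl fun e _ => h2 e]
    simp
  rw [h1, one_mul]

theorem net_degree (src tgt : E → V) : (net K q src tgt).totalDegree ≤ Fintype.card V := by
  unfold net
  refine (MvPolynomial.totalDegree_finsetSum _ _).trans (Finset.sup_le fun ℓ _ => ?_)
  refine (MvPolynomial.totalDegree_finsetProd _ _).trans ?_
  simp [MvPolynomial.totalDegree_X]

theorem prod_X_eq {X : Type*} [DecidableEq X] {ξ : V → X} (hξ : Function.Injective ξ) :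
    ∏ v : V, (MvPolynomial.X (ξ v) : MvPolynomial X K) = MvPolynomial.monomial (mono (univ.image ξ)) 1 := by
  unfold mono
  rw [Finset.sum_image (fun a _ b _ hab => hξ hab), MvPolynomial.monomial_sum_index, map_one, one_mul]
  rfl

theorem mono_injective {X : Type*} [DecidableEq X] : Function.Injective (mono : Finset X → (X →₀ ℕ)) := by
  intro S T h
  ext x
  have h1 := DFunLike.congr_fun h x
  rw [mono_apply, mono_apply] at h1
  by_cases hS : x ∈ S <;> by_cases hT : x ∈ T <;> simp_all

theorem coeff_net (src tgt : E → V) (ℓ : E → Fin (q + 1)) :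
    MvPolynomial.coeff (mono (univ.image fun v => (v, loc src tgt v ℓ))) (net K q src tgt) = 1 := by
  classical
  have hinj : ∀ ℓ : E → Fin (q + 1), Function.Injective (fun v => (v, loc src tgt v ℓ)) :=
    fun ℓ a b hab => congrArg Prod.fst hab
  unfold net
  rw [MvPolynomial.coeff_sum, Finset.sum_eq_single ℓ]
  · rw [prod_X_eq (hinj ℓ), MvPolynomial.coeff_monomial, if_pos rfl]
  · intro ℓ' _ hne
    rw [prod_X_eq (hinj ℓ'), MvPolynomial.coeff_monomial, if_neg]
    intro h
    apply hne
    have h1 := mono_injective h
    funext e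
    have h2 : (src e, loc src tgt (src e) ℓ') ∈ univ.image fun v => (v, loc src tgt v ℓ) := by
      rw [← h1]
      exact Finset.mem_image_of_mem _ (Finset.mem_univ (src e))
    obtain ⟨v, _, hv⟩ := Finset.mem_image.1 h2
    have h3 : v = src e := congrArg Prod.fst hv
    have h4 := congrArg Prod.snd hv
    simp only at h4
    rw [h3] at h4
    have h5 := congrFun h4 e
    rw [loc_src, loc_src] at h5
    exact h5.symm
  · intro h
    exact absurd (Finset.mem_univ _) h

/-- the base point: all entries with all labels zero are one, except the one at the vertex `v0` -/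
noncomputable def base (K : Type*) [Field K] (q : ℕ) (E : Type*) [Fintype E] [DecidableEq E] (v0 : V)
    (x : V × (E → Fin (q + 1))) : K :=
  if x.2 = 0 ∧ x.1 ≠ v0 then 1 else 0

theorem lin_trans_net (src tgt : E → V) (v0 : V) :
    lin (v0, 0) (trans (base K q E v0) (net K q src tgt)) = Polynomial.X := by
  classical
  unfold net
  rw [map_sum, map_sum]
  have hfac : ∀ x : V × (E → Fin (q + 1)), lin (v0, 0) (trans (base K q E v0) (MvPolynomial.X x)) =
      if x.2 = 0 then (if x.1 = v0 then (Polynomial.X : Polynomial K) else 1) else 0 := by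
    rintro ⟨v, τ⟩
    rw [trans_X, map_add]
    have h1 : ∀ a : K, lin (K := K) (v0, (0 : E → Fin (q + 1))) (MvPolynomial.C a) = Polynomial.C a := by
      intro a
      have := (lin (K := K) (v0, (0 : E → Fin (q + 1)))).commutes a
      rwa [MvPolynomial.algebraMap_eq, Polynomial.algebraMap_eq] at this
    rw [h1]
    unfold lin
    rw [MvPolynomial.aeval_X]
    simp only [base]
    by_cases hτ : τ = 0
    · by_cases hv : v = v0
      · simp [hτ, hv]
      · simp [hτ, hv]
    · have : ¬ ((v, τ) = (v0, 0)) := fun h => hτ (congrArg Prod.snd h)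
      simp [hτ]
  rw [Finset.sum_eq_single (0 : E → Fin (q + 1))]
  · rw [map_prod, map_prod]
    simp only [hfac]
    have h1 : ∀ v, loc src tgt v (0 : E → Fin (q + 1)) = 0 := by
      intro v
      funext e
      simp [loc]
    simp only [h1, if_true]
    rw [Finset.prod_ite_eq']
    simp
  · intro ℓ _ hℓ
    rw [map_prod, map_prod]
    obtain ⟨e, he⟩ : ∃ e, ℓ e ≠ 0 := by
      by_contra hcon
      push Not at hcon
      exact hℓ (funext hcon)
    apply Finset.prod_eq_zero (Finset.mem_univ (src e))
    rw [hfac, if_neg]
    intro h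
    apply he
    have h1 := congrFun h e
    simp only [loc_src] at h1
    exact h1
  · intro h
    exact absurd (Finset.mem_univ _) h

/-- The lower bound for the tensor network of a connected graph. -/
theorem net_lower {ι : Type*} [Fintype ι] [DecidableEq ι] (src tgt : E → V) (hconn : Conn src tgt)
    (hV : 2 ≤ Fintype.card V) (hq : 1 ≤ q) (t : E → Fin (q + 1) → Kˣ) (ht0 : ∀ e, t e 0 = 1)
    (hind : Generic 4 fun e (i : Fin q) => t e i.succ)
    {M : Matrix ι ι (MvPolynomial (V × (E → Fin (q + 1))) K)} (hM : IsDetRep M (net K q src tgt))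
    (hEq : Equivariant (gauge src tgt t) M) : q ^ cutwidth src tgt + 1 ≤ Fintype.card ι := by
  classical
  obtain ⟨v0⟩ : Nonempty V := Fintype.card_pos_iff.1 (by omega)
  have : Nonempty (Fin q) := ⟨⟨0, hq⟩⟩
  have h := lower_sym (Λ := Fin q) hM hEq (x0 := base K q E v0) (ρ := (v0, 0)) ?_ ?_ (lin_trans_net src tgt v0) src tgt
    (fun e i => t e i.succ) hind (fun ℓ v => (v, loc src tgt v fun e => (ℓ e).succ))
    (fun ℓ a b hab => congrArg Prod.fst hab) ?_ (net_degree src tgt) ?_ hconn (cutwidth src tgt)
    (one_le_cutwidth src tgt hconn hV) ?_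
  · rwa [Fintype.card_fin] at h
  · rintro ⟨v, τ⟩
    unfold base
    by_cases hx : τ = 0 ∧ v ≠ v0
    · have h1 : gauge src tgt t (v, τ) = (1 : K) := by
        unfold gauge
        simp [hx.1, ht0]
      rw [h1, one_mul]
    · simp [hx]
  · unfold gauge
    simp [ht0]
  · intro ℓ v
    exact gauge_loc src tgt t v _
  · intro ℓ
    rw [coeff_net]
    exact one_ne_zero
  · intro L h1 h2
    obtain ⟨k, hk⟩ := exists_cut src tgt L h1 h2
    refine ⟨k, ?_, hk⟩
    by_contra hcon
    have h3 : L.take k = L := List.take_of_length_le (by omega)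
    rw [h3, h2, cutSize_univ] at hk
    have := one_le_cutwidth src tgt hconn hV
    omega

end

end Pool.Agent.Helper1x.EQ
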