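import Pool.Agent.Helper1x.EQ.Net

/-!
# The transfer matrices of a tensor network along an order of the vertices
-/

set_option autoImplicit false

namespace Pool.Agent.Helper1x.EQ

open Matrix Finset

variable {V E : Type*} [Fintype V] [DecidableEq V] [Fintype E] [DecidableEq E] {q : ℕ}

/-- the edge `e` connects `U` with its complement -/
def IsCut (src tgt : E → V) (U : Finset V) (e : E) : Prop := ¬ (src e ∈ U ↔ tgt e ∈ U)

instance (src tgt : E → V) (U : Finset V) (e : E) : Decidable (IsCut src tgt U e) := by
  unfold IsCut; infer_instance

/-- the labelling is supported by the cut -/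
def Ok (src tgt : E → V) (U : Finset V) (α : E → Fin (q + 1)) : Prop := ∀ e, ¬ IsCut src tgt U e → α e = 0

instance (src tgt : E → V) (U : Finset V) (α : E → Fin (q + 1)) : Decidable (Ok src tgt U α) := by
  unfold Ok; infer_instance

/-- compatible labellings -/
def Compat (src tgt : E → V) (U U' : Finset V) (α α' : E → Fin (q + 1)) : Prop :=
  ∀ e, IsCut src tgt U e → IsCut src tgt U' e → α e = α' e

instance (src tgt : E → V) (U U' : Finset V) (α α' : E → Fin (q + 1)) : Decidable (Compat src tgt U U' α α') := by
  unfold Compat; infer_instance

/-- the labels at the vertex `v` -/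
def tau (src tgt : E → V) (U : Finset V) (v : V) (α α' : E → Fin (q + 1)) : E → Fin (q + 1) :=
  fun e => if src e = v ∨ tgt e = v then (if IsCut src tgt U e then α e else α' e) else 0

/-- the labellings of the edges with an end outside of `U` which extend `α` -/
def Zs (src tgt : E → V) (U : Finset V) (α : E → Fin (q + 1)) : Finset (E → Fin (q + 1)) :=
  univ.filter fun ℓ => ∀ e, (src e ∈ U → tgt e ∈ U → ℓ e = 0) ∧ (IsCut src tgt U e → ℓ e = α e)

/-- the polynomial of the part of the network outside of `U` -/
noncomputable def suf (K : Type*) [Field K] (src tgt : E → V) (U : Finset V) (α : E → Fin (q + 1)) :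
    MvPolynomial (V × (E → Fin (q + 1))) K :=
  ∑ ℓ ∈ Zs src tgt U α, ∏ v ∈ univ \ U, MvPolynomial.X (v, loc src tgt v ℓ)

variable {K : Type*} [Field K] {src tgt : E → V}

theorem suf_empty (α : E → Fin (q + 1)) : suf K src tgt ∅ α = net K q src tgt := by
  unfold suf net
  have h1 : Zs src tgt (∅ : Finset V) α = univ := by
    ext ℓ
    simp [Zs, IsCut]
  rw [h1, Finset.sdiff_empty]

theorem suf_univ (α : E → Fin (q + 1)) : suf K src tgt univ α = 1 := by
  unfold suf
  have h1 : Zs src tgt (univ : Finset V) α = {0} := by
    ext ℓ
    simp only [Zs, Finset.mem_filter, Finset.mem_univ, true_and, true_implies, Finset.mem_singleton]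
    constructor
    · intro h
      funext e
      exact (h e).1
    · rintro rfl e
      refine ⟨rfl, fun h => ?_⟩
      exact absurd h (by simp [IsCut])
  rw [h1, Finset.sum_singleton, Finset.sdiff_self, Finset.prod_empty]

theorem suf_step (hloop : ∀ e, src e ≠ tgt e) {U : Finset V} {v : V} (hv : v ∉ U) (α : E → Fin (q + 1)) :
    suf K src tgt U α = ∑ α' : E → Fin (q + 1),
      if Ok src tgt (insert v U) α' ∧ Compat src tgt U (insert v U) α α' then
        MvPolynomial.X (v, tau src tgt U v α α') * suf K src tgt (insert v U) α' else 0 := by
  classical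
  rw [← Finset.sum_filter]
  unfold suf
  simp only [Finset.mul_sum]
  rw [Finset.sum_sigma']
  have hins : ∀ x, x ∈ insert v U ↔ x = v ∨ x ∈ U := fun x => Finset.mem_insert
  refine Finset.sum_bij' (i := fun ℓ _ => (⟨fun e => if IsCut src tgt (insert v U) e then ℓ e else 0,
      fun e => if src e ∈ insert v U ∧ tgt e ∈ insert v U then 0 else ℓ e⟩ :
        Σ _ : E → Fin (q + 1), E → Fin (q + 1)))
    (j := fun p _ => fun e => if IsCut src tgt U e then α e else p.2 e) ?_ ?_ ?_ ?_ ?_
  · intro ℓ hℓ
    simp only [Zs, Finset.mem_filter, Finset.mem_univ, true_and] at hℓ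
    simp only [Finset.mem_sigma, Finset.mem_filter, Finset.mem_univ, true_and, Zs]
    refine ⟨⟨fun e he => if_neg he, fun e he he' => ?_⟩, fun e => ⟨fun h1 h2 => if_pos ⟨h1, h2⟩, fun he => ?_⟩⟩
    · beta_reduce
      rw [if_pos he']
      exact ((hℓ e).2 he).symm
    · beta_reduce
      rw [if_pos he, if_neg]
      rintro ⟨h1, h2⟩
      exact he ⟨fun _ => h2, fun _ => h1⟩
  · rintro ⟨α', ℓ'⟩ hp
    simp only [Finset.mem_sigma, Finset.mem_filter, Finset.mem_univ, true_and, Zs] at hp
    obtain ⟨⟨hok, hcomp⟩, hℓ'⟩ := hp
    simp only [Zs, Finset.mem_filter, Finset.mem_univ, true_and]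
    intro e
    refine ⟨fun h1 h2 => ?_, fun he => if_pos he⟩
    rw [if_neg]
    · exact (hℓ' e).1 (Finset.mem_insert_of_mem h1) (Finset.mem_insert_of_mem h2)
    · intro he
      exact he ⟨fun _ => h2, fun _ => h1⟩
  · intro ℓ hℓ
    simp only [Zs, Finset.mem_filter, Finset.mem_univ, true_and] at hℓ
    funext e
    simp only
    by_cases he : IsCut src tgt U e
    · rw [if_pos he]
      exact ((hℓ e).2 he).symm
    · rw [if_neg he]
      split_ifs with h
      · -- both ends are in `insert v U`
        have h3 : src e ∈ U ∧ tgt e ∈ U := by
          by_contra hcon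
          unfold IsCut at he
          rw [hins, hins] at h
          have := hloop e
          rcases h.1 with h1 | h1 <;> rcases h.2 with h2 | h2
          · exact this (h1.trans h2.symm)
          · exact hcon ⟨by
              by_contra h5
              exact he (fun h6 => h5 (h6.2 h2)), h2⟩
          · exact hcon ⟨h1, by
              by_contra h5
              exact he (fun h6 => h5 (h6.1 h1))⟩
          · exact hcon ⟨h1, h2⟩
        exact ((hℓ e).1 h3.1 h3.2).symm
      · rfl
  · rintro ⟨α', ℓ'⟩ hp
    simp only [Finset.mem_sigma, Finset.mem_filter, Finset.mem_univ, true_and, Zs] at hp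
    obtain ⟨⟨hok, hcomp⟩, hℓ'⟩ := hp
    have hα' : (fun e => if IsCut src tgt (insert v U) e then (if IsCut src tgt U e then α e else ℓ' e) else 0) = α' := by
      funext e
      split_ifs with h1 h2
      · exact hcomp e h2 h1
      · exact (hℓ' e).2 h1
      · exact (hok e h1).symm
    have hℓ'' : (fun e => if src e ∈ insert v U ∧ tgt e ∈ insert v U then 0 else
        (if IsCut src tgt U e then α e else ℓ' e)) = ℓ' := by
      funext e
      split_ifs with h1 h2
      · exact ((hℓ' e).1 h1.1 h1.2).symm
      · have h3 : IsCut src tgt (insert v U) e := by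
          unfold IsCut at h2 ⊢
          intro h4
          apply h1
          by_cases h5 : src e ∈ insert v U
          · exact ⟨h5, h4.1 h5⟩
          · exfalso
            have h6 : tgt e ∉ insert v U := fun h => h5 (h4.2 h)
            apply h2
            exact ⟨fun h => absurd (Finset.mem_insert_of_mem h) h5, fun h => absurd (Finset.mem_insert_of_mem h) h6⟩
        rw [hcomp e h2 h3]
        exact ((hℓ' e).2 h3).symm
      · rfl
    simp only [hα', hℓ'']
  · intro ℓ hℓ
    simp only [Zs, Finset.mem_filter, Finset.mem_univ, true_and] at hℓ
    simp only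
    have h1 : (univ \ U : Finset V) = insert v (univ \ insert v U) := by
      ext x
      simp only [Finset.mem_sdiff, Finset.mem_univ, true_and, Finset.mem_insert]
      by_cases hx : x = v
      · subst hx; simp [hv]
      · simp [hx]
    rw [h1, Finset.prod_insert (by simp)]
    congr 1
    · -- the entry at `v`
      congr 2
      funext e
      unfold loc tau
      beta_reduce
      split_ifs with h2 h3 h4
      · exact (hℓ e).2 h3
      · rfl
      · exfalso
        apply h4
        unfold IsCut at h3 ⊢
        rw [hins, hins]
        intro h5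
        have := hloop e
        rcases h2 with h2 | h2
        · have h6 : tgt e ∈ U := by
            rcases h5.1 (Or.inl h2) with h7 | h7
            · exact absurd (h2.trans h7.symm) this
            · exact h7
          apply h3
          intro h8
          apply hv
          rw [← h2]
          exact h8.2 h6
        · have h6 : src e ∈ U := by
            rcases h5.2 (Or.inl h2) with h7 | h7
            · exact absurd (h7.trans h2.symm) this
            · exact h7
          apply h3
          intro h8
          apply hv
          rw [← h2]
          exact h8.1 h6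
      · rfl
    · refine Finset.prod_congr rfl fun x hx => ?_
      congr 2
      funext e
      unfold loc
      beta_reduce
      split_ifs with h2 h3
      · exfalso
        rw [Finset.mem_sdiff] at hx
        apply hx.2
        rcases h2 with h2 | h2
        · rw [← h2]; exact h3.1
        · rw [← h2]; exact h3.2
      · rfl
      · rfl

end Pool.Agent.Helper1x.EQ
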