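import Pool.Agent.Helper1x.EQ.Count

/-!
# Equivariant determinantal representations: the lower bound
-/

set_option autoImplicit false

namespace Pool.Agent.Helper1x.EQ

open Matrix Finset

/-- `M` is a determinantal representation of `f`: a matrix of affine linear forms (polynomials of degree at most one) with
determinant `f`. -/
def IsDetRep {K X ι : Type*} [Field K] [Fintype ι] [DecidableEq ι] (M : Matrix ι ι (MvPolynomial X K))
    (f : MvPolynomial X K) : Prop :=
  (∀ i j, (M i j).totalDegree ≤ 1) ∧ M.det = f

/-- The matrix `M` is equivariant under the diagonal substitution `x ↦ c x`: there are invertible matrices `B` and `C` over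
`K` with `M (c x) = B M (x) C` or `M (c x) = B M (x)ᵀ C`. -/
def Equivariant {K X ι : Type*} [Field K] [Fintype ι] [DecidableEq ι] (c : X → K)
    (M : Matrix ι ι (MvPolynomial X K)) : Prop :=
  ∃ B C : Matrix ι ι K, IsUnit B.det ∧ IsUnit C.det ∧
    (M.map (scale c) = B.map MvPolynomial.C * M * C.map MvPolynomial.C ∨
      M.map (scale c) = B.map MvPolynomial.C * M.transpose * C.map MvPolynomial.C)

section

variable {K X : Type*} [Field K]

/-- the translation of the variables by `x0` -/
noncomputable def trans (x0 : X → K) : MvPolynomial X K →ₐ[K] MvPolynomial X K :=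
  MvPolynomial.aeval fun x => MvPolynomial.X x + MvPolynomial.C (x0 x)

theorem trans_C (x0 : X → K) (a : K) : trans x0 (MvPolynomial.C a) = MvPolynomial.C a := by
  have h := (trans x0).commutes a
  rwa [MvPolynomial.algebraMap_eq] at h

theorem trans_X (x0 : X → K) (x : X) : trans x0 (MvPolynomial.X x) = MvPolynomial.X x + MvPolynomial.C (x0 x) := by
  unfold trans
  rw [MvPolynomial.aeval_X]

theorem scale_X (c : X → K) (x : X) : scale c (MvPolynomial.X x) = MvPolynomial.C (c x) * MvPolynomial.X x := by
  unfold scale
  rw [MvPolynomial.aeval_X]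

theorem scale_trans {c x0 : X → K} (h : ∀ x, c x * x0 x = x0 x) (p : MvPolynomial X K) :
    scale c (trans x0 p) = trans x0 (scale c p) := by
  have h1 : (scale c).comp (trans x0) = (trans x0).comp (scale c) := by
    apply MvPolynomial.algHom_ext
    intro x
    simp only [AlgHom.comp_apply, trans_X, scale_X, map_add, map_mul, scale_C, trans_C]
    rw [mul_add, ← map_mul, h]
  exact DFunLike.congr_fun h1 p

/-- the coefficients of the monomials of degree at least the degree of `p` do not change -/
theorem coeff_trans_monomial (x0 : X → K) (n : ℕ) : ∀ (u : X →₀ ℕ) (a : K), u.degree = n → ∀ m : X →₀ ℕ,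
    n ≤ m.degree → MvPolynomial.coeff m (trans x0 (MvPolynomial.monomial u a)) =
      MvPolynomial.coeff m (MvPolynomial.monomial u a) := by
  classical
  induction n with
  | zero =>
    intro u a hu m _
    rw [Finsupp.degree_eq_zero_iff] at hu
    subst hu
    rw [← MvPolynomial.C_apply, trans_C]
  | succ n ih =>
    intro u a hu m hm
    obtain ⟨x, hx⟩ : ∃ x, u x ≠ 0 := by
      by_contra hcon
      push Not at hcon
      have h0 : u = 0 := Finsupp.ext hcon
      rw [h0, map_zero] at hu
      omega
    have hle : Finsupp.single x 1 ≤ u := by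
      intro y
      rw [Finsupp.single_apply]
      split_ifs with hy
      · subst hy; omega
      · exact Nat.zero_le _
    obtain ⟨r, hr⟩ := exists_add_of_le hle
    have hrd : r.degree = n := by
      have := congrArg Finsupp.degree hr
      rw [map_add, hu, Finsupp.degree_single] at this
      omega
    have h1 : MvPolynomial.monomial u a = MvPolynomial.monomial r a * MvPolynomial.X x := by
      rw [hr, add_comm, MvPolynomial.X, MvPolynomial.monomial_mul, mul_one]
    rw [h1, map_mul, trans_X, mul_add, MvPolynomial.coeff_add, coeff_mul_C, ih r a hrd m (by omega)]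
    have h2 : MvPolynomial.coeff m (MvPolynomial.monomial r a) = 0 := by
      rw [MvPolynomial.coeff_monomial, if_neg]
      intro h
      rw [← h, hrd] at hm
      omega
    rw [h2, zero_mul, add_zero, MvPolynomial.coeff_mul_X', MvPolynomial.coeff_mul_X']
    split_ifs with hxm
    · refine ih r a hrd _ ?_
      have hle2 : Finsupp.single x 1 ≤ m := by
        intro y
        rw [Finsupp.single_apply]
        split_ifs with hy
        · subst hy
          rw [Finsupp.mem_support_iff] at hxm
          omega
        · exact Nat.zero_le _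
      obtain ⟨r', hr'⟩ := exists_add_of_le hle2
      have h4 : m - Finsupp.single x 1 = r' := by rw [hr', add_tsub_cancel_left]
      have h5 := congrArg Finsupp.degree hr'
      rw [map_add, Finsupp.degree_single] at h5
      rw [h4]
      omega
    · rfl

theorem coeff_trans_top (x0 : X → K) {d : ℕ} {p : MvPolynomial X K} (hp : p.totalDegree ≤ d) {m : X →₀ ℕ}
    (hm : d ≤ m.degree) : MvPolynomial.coeff m (trans x0 p) = MvPolynomial.coeff m p := by
  conv_lhs => rw [p.as_sum, map_sum, MvPolynomial.coeff_sum]
  conv_rhs => rw [p.as_sum, MvPolynomial.coeff_sum]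
  refine Finset.sum_congr rfl fun u hu => ?_
  refine coeff_trans_monomial x0 u.degree u _ rfl m ?_
  exact (degree_le_of_coeff hp (MvPolynomial.mem_support_iff.1 hu)).trans hm

theorem totalDegree_trans (x0 : X → K) (p : MvPolynomial X K) : (trans x0 p).totalDegree ≤ p.totalDegree := by
  classical
  refine Finset.sup_le fun m hm => ?_
  change m.degree ≤ p.totalDegree
  by_contra hcon
  have h1 : MvPolynomial.coeff m (trans x0 p) = MvPolynomial.coeff m p :=
    coeff_trans_top x0 le_rfl (le_of_lt (not_le.1 hcon))
  rw [MvPolynomial.mem_support_iff, h1] at hm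
  exact hcon (degree_le_of_coeff (le_refl p.totalDegree) hm)

theorem scale_scale (c c' : X → K) (p : MvPolynomial X K) :
    scale c (scale c' p) = scale (fun x => c x * c' x) p := by
  have h1 : (scale c).comp (scale c') = scale (fun x => c x * c' x) := by
    apply MvPolynomial.algHom_ext
    intro x
    simp only [AlgHom.comp_apply, scale_X, map_mul, scale_C]
    ring
  exact DFunLike.congr_fun h1 p

end

variable {K ι X V E Λ : Type*} [Field K] [Fintype ι] [DecidableEq ι] [DecidableEq X] [Fintype V] [DecidableEq V]
  [Fintype E] [DecidableEq E] [Fintype Λ] [DecidableEq Λ]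

omit [DecidableEq X] in
theorem map_C_mul (S T : Matrix ι ι K) : (S * T).map MvPolynomial.C =
    (S.map MvPolynomial.C * T.map MvPolynomial.C : Matrix ι ι (MvPolynomial X K)) := by
  ext1 i j
  simp [Matrix.mul_apply, map_sum]

omit [DecidableEq X] in
theorem map_C_one : ((1 : Matrix ι ι K).map MvPolynomial.C : Matrix ι ι (MvPolynomial X K)) = 1 := by
  ext1 i j
  simp only [Matrix.map_apply, Matrix.one_apply]
  split_ifs <;> simp

omit [DecidableEq X] in
/-- the square of the substitution is equivariant without transposition -/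
theorem Equivariant.square {c : X → K} {M : Matrix ι ι (MvPolynomial X K)} (h : Equivariant c M) :
    ∃ B C : Matrix ι ι K, IsUnit B.det ∧ IsUnit C.det ∧
      M.map (scale fun x => c x * c x) = B.map MvPolynomial.C * M * C.map MvPolynomial.C := by
  obtain ⟨B, C, hB, hC, h⟩ := h
  have hBs : ∀ S : Matrix ι ι K, (S.map MvPolynomial.C).map (scale c) =
      (S.map MvPolynomial.C : Matrix ι ι (MvPolynomial X K)) := by
    intro S
    ext1 i j
    rw [Matrix.map_apply, Matrix.map_apply, scale_C]
  have hmul : ∀ S T : Matrix ι ι (MvPolynomial X K), (S * T).map (scale c) = S.map (scale c) * T.map (scale c) := by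
    intro S T
    ext1 i j
    simp [Matrix.mul_apply, map_sum]
  have h2 : M.map (scale fun x => c x * c x) = (M.map (scale c)).map (scale c) := by
    ext1 i j
    rw [Matrix.map_apply, Matrix.map_apply, Matrix.map_apply, scale_scale]
  rcases h with h | h
  · refine ⟨B * B, C * C, by rw [Matrix.det_mul]; exact hB.mul hB, by rw [Matrix.det_mul]; exact hC.mul hC, ?_⟩
    rw [h2, h, hmul, hmul, hBs, hBs, h, map_C_mul, map_C_mul]
    simp only [Matrix.mul_assoc]
  · refine ⟨B * C.transpose, B.transpose * C, by rw [Matrix.det_mul, Matrix.det_transpose]; exact hB.mul hC,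
      by rw [Matrix.det_mul, Matrix.det_transpose]; exact hB.mul hC, ?_⟩
    have htr : M.transpose.map (scale c) = (M.map (scale c)).transpose := rfl
    rw [h2, h, hmul, hmul, hBs, hBs, htr, h, map_C_mul, map_C_mul, Matrix.transpose_mul, Matrix.transpose_mul,
      Matrix.transpose_transpose]
    have hT : ∀ S : Matrix ι ι K, (S.map MvPolynomial.C).transpose =
        (S.transpose.map MvPolynomial.C : Matrix ι ι (MvPolynomial X K)) := fun S => rfl
    rw [hT, hT]
    simp only [Matrix.mul_assoc]

/-- The lower bound for the size of a determinantal representation which is equivariant under one diagonal substitution. -/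
theorem lower_sym {M : Matrix ι ι (MvPolynomial X K)} {f : MvPolynomial X K} (hM : IsDetRep M f) {c : X → K}
    (hEq : Equivariant c M) {x0 : X → K} (hx0 : ∀ x, c x * x0 x = x0 x) {ρ : X} (hρ : c ρ = 1)
    (hlin : lin ρ (trans x0 f) = Polynomial.X)
    (src tgt : E → V) (t : E → Λ → Kˣ) (hind : Generic 4 t)
    (ξ : (E → Λ) → V → X) (hξ : ∀ ℓ, Function.Injective (ξ ℓ))
    (hc : ∀ ℓ v, c (ξ ℓ v) = ((∏ e, t e (ℓ e) ^ inc src tgt v e : Kˣ) : K))
    (hfdeg : f.totalDegree ≤ Fintype.card V)
    (hcoef : ∀ ℓ, MvPolynomial.coeff (mono (univ.image (ξ ℓ))) f ≠ 0)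
    (hconn : ∀ U : Finset V, U.Nonempty → U ≠ univ → ∃ e, ¬ (src e ∈ U ↔ tgt e ∈ U))
    (w : ℕ) (hw1 : 1 ≤ w) [Nonempty Λ]
    (hw : ∀ L : List V, L.Nodup → L.toFinset = univ → ∃ k, k < L.length ∧
      w ≤ (univ.filter fun e => ¬ (src e ∈ (L.take k).toFinset ↔ tgt e ∈ (L.take k).toFinset)).card) :
    Fintype.card Λ ^ w + 1 ≤ Fintype.card ι := by
  classical
  obtain ⟨hMdeg, hMdet⟩ := hM
  obtain ⟨B, C, hB, hC, hBC⟩ := hEq.square
  set c2 : X → K := fun x => c x * c x with hc2
  set N : Matrix ι ι (MvPolynomial X K) := M.map (trans x0) with hN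
  have hNdet : N.det = trans x0 f := by
    rw [← hMdet]
    exact ((trans x0).map_det M).symm
  have hx2 : ∀ x, c2 x * x0 x = x0 x := by
    intro x
    rw [hc2]
    simp only
    rw [mul_assoc, hx0, hx0]
  have hNeq : N.map (scale c2) * (C⁻¹).map MvPolynomial.C = B.map MvPolynomial.C * N := by
    have h1 : M.map (scale c2) * (C⁻¹).map MvPolynomial.C = B.map MvPolynomial.C * M := by
      rw [hBC, Matrix.mul_assoc, ← map_C_mul, Matrix.mul_nonsing_inv _ hC, map_C_one, Matrix.mul_one]
    have hTs : ∀ S : Matrix ι ι K, (S.map MvPolynomial.C).map (trans x0) =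
        (S.map MvPolynomial.C : Matrix ι ι (MvPolynomial X K)) := by
      intro S
      ext1 i j
      rw [Matrix.map_apply, Matrix.map_apply, trans_C]
    have hmul : ∀ S T : Matrix ι ι (MvPolynomial X K), (S * T).map (trans x0) = S.map (trans x0) * T.map (trans x0) := by
      intro S T
      ext1 i j
      simp [Matrix.mul_apply, map_sum]
    have h2 : N.map (scale c2) = (M.map (scale c2)).map (trans x0) := by
      ext1 i j
      rw [hN, Matrix.map_apply, Matrix.map_apply, Matrix.map_apply, Matrix.map_apply, scale_trans hx2]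
    rw [h2]
    have h3 := congrArg (fun S : Matrix ι ι (MvPolynomial X K) => S.map (trans x0)) h1
    simp only [hmul, hTs] at h3
    exact h3
  refine lower_abs (N := N) (fun i j => (totalDegree_trans x0 _).trans (hMdeg i j)) (D := C⁻¹)
    (by rw [Matrix.isUnit_nonsing_inv_det_iff]; exact hC) hNeq (ρ := ρ) (by rw [hc2]; simp only; rw [hρ, mul_one])
    (by rw [hNdet]; exact hlin) src tgt (fun e i => t e i * t e i) ?_ ξ hξ ?_ ?_ hconn w hw1 hw
  · intro a hab ha
    have h1 : ∏ e, ∏ i, t e i ^ (2 * a e i) = 1 := by
      rw [← ha]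
      refine Finset.prod_congr rfl fun e _ => Finset.prod_congr rfl fun i _ => ?_
      rw [_root_.mul_zpow, ← _root_.zpow_add, two_mul]
    have h2 := hind (fun e i => 2 * a e i) (fun e i => by
      have := hab e i
      rw [abs_mul]
      push_cast at this ⊢
      rw [abs_two]
      linarith) h1
    funext e i
    have h3 := congrFun (congrFun h2 e) i
    simp only [Pi.zero_apply] at h3 ⊢
    omega
  · intro ℓ v
    rw [hc2]
    simp only
    rw [hc ℓ v, ← Units.val_mul, ← Finset.prod_mul_distrib]
    congr 1
    refine Finset.prod_congr rfl fun e _ => ?_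
    rw [_root_.mul_zpow]
  · intro ℓ
    rw [hNdet, coeff_trans_top x0 hfdeg]
    · exact hcoef ℓ
    · unfold mono
      rw [map_sum, Finset.sum_congr rfl fun x _ => Finsupp.degree_single x 1, Finset.sum_const, smul_eq_mul, mul_one,
        Finset.card_image_of_injective _ (hξ ℓ), Finset.card_univ]

end Pool.Agent.Helper1x.EQ
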