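import Pool.Agent.Helper1x.EQ.Sym
import Pool.Agent.H20VP.Fam

/-!
# The lower bound for the tensor network of the complete binary tree
-/

set_option autoImplicit false

namespace Pool.Agent.Helper1x.EQ

open Matrix Finset Pool.Agent.H20VP

/-- the vertices of the complete binary tree of height `h` -/
abbrev TV (h : ℕ) : Type := {v : ℕ // v ∈ Finset.Ico 1 (2 ^ (h + 1))}

/-- the edges: the edge number `e` connects `e` and `e / 2` -/
abbrev TE (h : ℕ) : Type := {e : ℕ // e ∈ Finset.Ico 2 (2 ^ (h + 1))}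

def tsrc {h : ℕ} (e : TE h) : TV h := ⟨e.1, by
  have := Finset.mem_Ico.1 e.2
  exact Finset.mem_Ico.2 ⟨by omega, this.2⟩⟩

def ttgt {h : ℕ} (e : TE h) : TV h := ⟨e.1 / 2, by
  have := Finset.mem_Ico.1 e.2
  exact Finset.mem_Ico.2 ⟨by omega, by omega⟩⟩

/-- The gauge transformation of the tensor network of the binary tree given by the numbers `t u i`: the variable
`x_v(i, j, k)` is multiplied by `t v i / (t (2 v) j * t (2 v + 1) k)`. -/
noncomputable def treeGauge {K : Type} [Field K] {r : ℕ} (t : ℕ → Ix r → Kˣ) (x : Vr r) : K :=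
  ((t x.1 x.2.1 * (t (2 * x.1) x.2.2.1)⁻¹ * (t (2 * x.1 + 1) x.2.2.2)⁻¹ : Kˣ) : K)

section

variable {K : Type} [Field K] {r h : ℕ}

/-- the labelling of all natural numbers given by a labelling of the edges -/
def lab (ℓ : TE h → {i : Ix r // i ≠ 0}) (u : ℕ) : Ix r := if hu : u ∈ Finset.Ico 2 (2 ^ (h + 1)) then (ℓ ⟨u, hu⟩).1 else 0

theorem lab_coe (ℓ : TE h → {i : Ix r // i ≠ 0}) (e : TE h) : lab ℓ e.1 = (ℓ e).1 := by
  unfold lab
  rw [dif_pos e.2]

theorem lab_out (ℓ : TE h → {i : Ix r // i ≠ 0}) {u : ℕ} (hu : u ∉ Finset.Ico 2 (2 ^ (h + 1))) : lab ℓ u = 0 := by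
  unfold lab
  rw [dif_neg hu]

/-- the variable of the vertex `v` selected by a labelling -/
def sel (L : ℕ → Ix r) (v : ℕ) : Vr r := (v, L v, L (2 * v), L (2 * v + 1))

theorem prod_ind {G : ℕ → Kˣ} (hG : ∀ u, u ∉ Finset.Ico 2 (2 ^ (h + 1)) → G u = 1) (x : ℕ) :
    ∏ e : TE h, G e.1 ^ (if e.1 = x then (1 : ℤ) else 0) = G x := by
  classical
  by_cases hx : x ∈ Finset.Ico 2 (2 ^ (h + 1))
  · rw [Finset.prod_eq_single (⟨x, hx⟩ : TE h)]
    · simp
    · intro e _ he
      rw [if_neg (fun h => he (Subtype.ext h)), zpow_zero]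
    · intro h
      exact absurd (Finset.mem_univ _) h
  · rw [hG x hx]
    refine Finset.prod_eq_one fun e _ => ?_
    rw [if_neg, zpow_zero]
    rintro rfl
    exact hx e.2

theorem treeGauge_sel (t : ℕ → Ix r → Kˣ) (ht0 : ∀ u, t u 0 = 1) (ℓ : TE h → {i : Ix r // i ≠ 0}) (v : TV h) :
    treeGauge t (sel (lab ℓ) v.1) = ((∏ e : TE h, t e.1 (ℓ e).1 ^ inc tsrc ttgt v e : Kˣ) : K) := by
  classical
  unfold treeGauge sel
  congr 1
  simp only
  set G : ℕ → Kˣ := fun u => t u (lab ℓ u) with hG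
  have hG1 : ∀ u, u ∉ Finset.Ico 2 (2 ^ (h + 1)) → G u = 1 := by
    intro u hu
    rw [hG]
    simp only
    rw [lab_out ℓ hu, ht0]
  have h1 : ∀ e : TE h, t e.1 (ℓ e).1 ^ inc tsrc ttgt v e = G e.1 ^ (if e.1 = v.1 then (1 : ℤ) else 0) *
      (G e.1 ^ (if e.1 = 2 * v.1 then (1 : ℤ) else 0))⁻¹ * (G e.1 ^ (if e.1 = 2 * v.1 + 1 then (1 : ℤ) else 0))⁻¹ := by
    intro e
    have h2 : t e.1 (ℓ e).1 = G e.1 := by rw [hG]; simp only; rw [lab_coe]
    rw [h2, ← _root_.zpow_neg, ← _root_.zpow_neg, ← _root_.zpow_add, ← _root_.zpow_add]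
    congr 1
    have hv := Finset.mem_Ico.1 v.2
    have h3 : (tsrc e = v) ↔ e.1 = v.1 := ⟨fun h => congrArg Subtype.val h, fun h => Subtype.ext h⟩
    have h4 : (ttgt e = v) ↔ (e.1 = 2 * v.1 ∨ e.1 = 2 * v.1 + 1) := by
      constructor
      · intro h
        have h5 : e.1 / 2 = v.1 := congrArg Subtype.val h
        omega
      · intro h
        apply Subtype.ext
        change e.1 / 2 = v.1
        omega
    unfold inc
    by_cases h5 : e.1 = v.1 <;> by_cases h6 : e.1 = 2 * v.1 <;> by_cases h7 : e.1 = 2 * v.1 + 1 <;>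
      simp [h3, h4, h5, h6, h7] <;> omega
  rw [Finset.prod_congr rfl fun e _ => h1 e, Finset.prod_mul_distrib, Finset.prod_mul_distrib, Finset.prod_inv_distrib,
    Finset.prod_inv_distrib, prod_ind hG1, prod_ind hG1, prod_ind hG1]

/-- the base point -/
noncomputable def tbase (K : Type) [Field K] (r : ℕ) (x : Vr r) : K := if x.1 ≠ 1 ∧ x.2 = 0 then 1 else 0

theorem theta_X (x : Vr r) : lin ((1, 0) : Vr r) (trans (tbase K r) (MvPolynomial.X x)) =
    if x.2 = 0 then (if x.1 = 1 then (Polynomial.X : Polynomial K) else 1) else 0 := by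
  rw [trans_X, map_add]
  have h1 : ∀ a : K, lin (K := K) ((1, 0) : Vr r) (MvPolynomial.C a) = Polynomial.C a := by
    intro a
    have := (lin (K := K) ((1, 0) : Vr r)).commutes a
    rwa [MvPolynomial.algebraMap_eq, Polynomial.algebraMap_eq] at this
  rw [h1]
  unfold lin
  rw [MvPolynomial.aeval_X]
  obtain ⟨v, τ⟩ := x
  simp only [tbase]
  by_cases hτ : τ = 0
  · by_cases hv : v = 1
    · simp [hτ, hv]
    · simp [hτ, hv]
  · have : ¬ ((v, τ) = ((1, 0) : Vr r)) := fun h => hτ (congrArg Prod.snd h)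
    simp [hτ]

theorem theta_tree (t v : ℕ) (hv : 2 ≤ v) (i : Ix r) :
    lin ((1, 0) : Vr r) (trans (tbase K r) (tree K r t v i)) = if i = 0 then 1 else 0 := by
  classical
  induction t generalizing v i with
  | zero =>
    rw [tree, theta_X]
    have h1 : ((i, (0 : Ix r), (0 : Ix r)) = 0) ↔ i = 0 := by
      constructor
      · intro h; exact congrArg Prod.fst h
      · rintro rfl; rfl
    simp only [h1, show ¬ v = 1 by omega, if_false]
  | succ t ih =>
    rw [tree, map_sum, map_sum]
    simp only [map_sum, map_mul, theta_X]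
    rw [Finset.sum_eq_single (0 : Ix r), Finset.sum_eq_single (0 : Ix r)]
    · rw [ih (2 * v) (by omega), ih (2 * v + 1) (by omega), if_pos rfl, mul_one, mul_one]
      have h1 : ((i, (0 : Ix r), (0 : Ix r)) = 0) ↔ i = 0 := by
        constructor
        · intro h; exact congrArg Prod.fst h
        · rintro rfl; rfl
      simp only [h1]
      rw [if_neg (show ¬ v = 1 by omega)]
    · intro k _ hk
      rw [if_neg, zero_mul, zero_mul]
      intro h
      exact hk (congrArg (fun x => x.2.2) h)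
    · intro h
      exact absurd (Finset.mem_univ _) h
    · intro j _ hj
      refine Finset.sum_eq_zero fun k _ => ?_
      rw [if_neg, zero_mul, zero_mul]
      intro h
      exact hj (congrArg (fun x => x.2.1) h)
    · intro h
      exact absurd (Finset.mem_univ _) h

theorem theta_root (t : ℕ) : lin ((1, 0) : Vr r) (trans (tbase K r) (tree K r t 1 0)) = Polynomial.X := by
  classical
  cases t with
  | zero =>
    rw [tree, theta_X]
    exact (if_pos rfl).trans (if_pos rfl)
  | succ t =>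
    rw [tree, map_sum, map_sum]
    simp only [map_sum, map_mul, theta_X]
    rw [Finset.sum_eq_single (0 : Ix r), Finset.sum_eq_single (0 : Ix r)]
    · rw [theta_tree t (2 * 1) (by omega), theta_tree t (2 * 1 + 1) (by omega), if_pos rfl, mul_one, mul_one]
      exact (if_pos rfl).trans (if_pos trivial)
    · intro k _ hk
      rw [if_neg, zero_mul, zero_mul]
      intro h
      exact hk (congrArg (fun x => x.2.2) h)
    · intro h
      exact absurd (Finset.mem_univ _) h
    · intro j _ hj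
      refine Finset.sum_eq_zero fun k _ => ?_
      rw [if_neg, zero_mul, zero_mul]
      intro h
      exact hj (congrArg (fun x => x.2.1) h)
    · intro h
      exact absurd (Finset.mem_univ _) h

/-- keep only the selected variables -/
noncomputable def psi (K : Type) [Field K] (L : ℕ → Ix r) : MvPolynomial (Vr r) K →ₐ[K] MvPolynomial ℕ K :=
  MvPolynomial.aeval fun x => if x = sel L x.1 then MvPolynomial.X x.1 else 0

theorem psi_coeff (L : ℕ → Ix r) (S : Finset ℕ) (f : MvPolynomial (Vr r) K) :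
    MvPolynomial.coeff (mono S) (psi K L f) = MvPolynomial.coeff (mono (S.image (sel L))) f := by
  classical
  have hselinj : Function.Injective (sel L) := fun a b hab => congrArg Prod.fst hab
  induction f using MvPolynomial.induction_on' with
  | monomial u a =>
    unfold psi
    rw [MvPolynomial.aeval_monomial, MvPolynomial.coeff_monomial]
    by_cases hu : ∀ x ∈ u.support, x = sel L x.1
    · have h1 : (u.prod fun i k => (if i = sel L i.1 then (MvPolynomial.X i.1 : MvPolynomial ℕ K) else 0) ^ k) =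
          MvPolynomial.monomial (u.mapDomain Prod.fst) 1 := by
        rw [Finsupp.prod]
        rw [Finset.prod_congr rfl fun x hx => by rw [if_pos (hu x hx), MvPolynomial.X, MvPolynomial.monomial_pow, one_pow]]
        rw [Finsupp.mapDomain, Finsupp.sum, MvPolynomial.monomial_sum_index, map_one, one_mul]
        refine Finset.prod_congr rfl fun x _ => ?_
        congr 1
        rw [Finsupp.smul_single, smul_eq_mul, mul_one]
      rw [h1, MvPolynomial.algebraMap_eq, MvPolynomial.coeff_C_mul, MvPolynomial.coeff_monomial]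
      have h2 : u.mapDomain Prod.fst = mono S ↔ u = mono (S.image (sel L)) := by
        constructor
        · intro h
          have h3 : (u.mapDomain Prod.fst).mapDomain (sel L) = u := by
            rw [← Finsupp.mapDomain_comp]
            conv_rhs => rw [← Finsupp.mapDomain_id (v := u)]
            exact Finsupp.mapDomain_congr fun x hx => (hu x hx).symm
          rw [← h3, h]
          unfold mono
          rw [Finset.sum_image (fun a _ b _ hab => hselinj hab), Finsupp.mapDomain_finsetSum]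
          refine Finset.sum_congr rfl fun x _ => ?_
          rw [Finsupp.mapDomain_single]
        · intro h
          rw [h]
          unfold mono
          rw [Finset.sum_image (fun a _ b _ hab => hselinj hab), Finsupp.mapDomain_finsetSum]
          refine Finset.sum_congr rfl fun x _ => ?_
          rw [Finsupp.mapDomain_single]
          rfl
      by_cases h3 : u.mapDomain Prod.fst = mono S
      · rw [if_pos h3, if_pos (h2.1 h3), mul_one]
      · rw [if_neg h3, if_neg (fun h => h3 (h2.2 h)), mul_zero]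
    · push Not at hu
      obtain ⟨x, hx, hx'⟩ := hu
      have h1 : (u.prod fun i k => (if i = sel L i.1 then (MvPolynomial.X i.1 : MvPolynomial ℕ K) else 0) ^ k) = 0 := by
        rw [Finsupp.prod]
        apply Finset.prod_eq_zero hx
        rw [if_neg hx', zero_pow (Finsupp.mem_support_iff.1 hx)]
      rw [h1, mul_zero, MvPolynomial.coeff_zero, if_neg]
      intro h
      have h2 := Finsupp.mem_support_iff.1 hx
      rw [h, mono_apply] at h2
      have h3 : x ∈ S.image (sel L) := by
        by_contra h4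
        rw [if_neg h4] at h2
        exact h2 rfl
      obtain ⟨y, _, rfl⟩ := Finset.mem_image.1 h3
      exact hx' rfl
  | add p q hp hq => rw [map_add, MvPolynomial.coeff_add, MvPolynomial.coeff_add, hp, hq]

theorem psi_X (L : ℕ → Ix r) (v : ℕ) (i j k : Ix r) : psi K L (MvPolynomial.X (v, i, j, k)) =
    if i = L v ∧ j = L (2 * v) ∧ k = L (2 * v + 1) then MvPolynomial.X v else 0 := by
  unfold psi
  rw [MvPolynomial.aeval_X]
  have h1 : ((v, i, j, k) = sel L (v, i, j, k).1) ↔ (i = L v ∧ j = L (2 * v) ∧ k = L (2 * v + 1)) := by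
    unfold sel
    simp only [Prod.mk.injEq, true_and]
  simp only [h1]

theorem psi_tree (L : ℕ → Ix r) (t v : ℕ) (hL : ∀ u, v * 2 ^ (t + 1) ≤ u → L u = 0) (i : Ix r) :
    psi K L (tree K r t v i) = if i = L v then MvPolynomial.monomial (Mn t v) 1 else 0 := by
  classical
  induction t generalizing v i with
  | zero =>
    rw [tree, psi_X, hL (2 * v) (by omega), hL (2 * v + 1) (by omega), Mn]
    by_cases hi : i = L v
    · rw [if_pos hi, if_pos ⟨hi, rfl, rfl⟩]; rfl
    · rw [if_neg hi, if_neg (fun h => hi h.1)]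
  | succ t ih =>
    rw [tree, map_sum]
    simp only [map_sum, map_mul, psi_X]
    have ih1 := ih (2 * v) (fun u hu => hL u (le_trans (by rw [pow_succ 2 (t + 1)]; nlinarith) hu))
    have ih2 := ih (2 * v + 1) (fun u hu => hL u (le_trans (by
      rw [pow_succ 2 (t + 1), show v * (2 ^ (t + 1) * 2) = 2 * v * 2 ^ (t + 1) by ring]
      exact Nat.mul_le_mul_right _ (by omega)) hu))
    simp only [ih1, ih2]
    rw [Finset.sum_eq_single (L (2 * v)), Finset.sum_eq_single (L (2 * v + 1))]
    · by_cases hi : i = L v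
      · rw [if_pos hi, if_pos ⟨hi, rfl, rfl⟩, if_pos rfl, if_pos rfl, Mn, MvPolynomial.X, MvPolynomial.monomial_mul,
          MvPolynomial.monomial_mul, add_assoc]
        simp
      · rw [if_neg hi, if_neg (fun h => hi h.1), zero_mul, zero_mul]
    · intro k _ hk
      rw [if_neg (fun h => hk h.2.2), zero_mul, zero_mul]
    · intro h
      exact absurd (Finset.mem_univ _) h
    · intro j _ hj
      refine Finset.sum_eq_zero fun k _ => ?_
      rw [if_neg (fun h => hj h.2.1), zero_mul, zero_mul]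
    · intro h
      exact absurd (Finset.mem_univ _) h

theorem sub_one_iff (h u : ℕ) : Sub 1 h u ↔ u ∈ Finset.Ico 1 (2 ^ (h + 1)) := by
  constructor
  · rintro ⟨s, hs, hs'⟩
    have h1 : 0 < u := by
      rcases Nat.eq_zero_or_pos u with h0 | h0
      · rw [h0, Nat.zero_div] at hs'; omega
      · exact h0
    rw [Finset.mem_Ico]
    refine ⟨h1, ?_⟩
    have h4 : u < 2 ^ s * 2 := by
      have h5 : u / 2 ^ s < 2 := by omega
      exact (Nat.div_lt_iff_lt_mul (by positivity)).1 h5 |>.trans_eq (mul_comm _ _)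
    calc u < 2 ^ s * 2 := h4
      _ = 2 ^ (s + 1) := by rw [pow_succ]
      _ ≤ 2 ^ (h + 1) := Nat.pow_le_pow_right (by norm_num) (by omega)
  · intro hu
    rw [Finset.mem_Ico] at hu
    refine ⟨Nat.log 2 u, ?_, ?_⟩
    · have := Nat.log_lt_of_lt_pow (by omega) hu.2
      omega
    · have h1 : 2 ^ Nat.log 2 u ≤ u := Nat.pow_log_le_self 2 (by omega)
      have h2 : u < 2 ^ (Nat.log 2 u + 1) := Nat.lt_pow_succ_log_self (by norm_num) u
      rw [pow_succ] at h2
      have h3 : 1 ≤ u / 2 ^ Nat.log 2 u := (Nat.one_le_div_iff (by positivity)).2 h1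
      have h4 : u / 2 ^ Nat.log 2 u < 2 := (Nat.div_lt_iff_lt_mul (by positivity)).2 (by omega)
      omega

theorem Mn_eq (h : ℕ) : Mn h 1 = mono (Finset.Ico 1 (2 ^ (h + 1))) := by
  classical
  ext u
  rw [mono_apply]
  by_cases hu : u ∈ Finset.Ico 1 (2 ^ (h + 1))
  · rw [if_pos hu]
    exact (Mn_apply h 1 u le_rfl).1 ((sub_one_iff h u).2 hu)
  · rw [if_neg hu]
    exact (Mn_apply h 1 u le_rfl).2 (fun h1 => hu ((sub_one_iff h u).1 h1))

theorem coeff_tree (ℓ : TE h → {i : Ix r // i ≠ 0}) :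
    MvPolynomial.coeff (mono (univ.image fun v : TV h => sel (lab ℓ) v.1)) (tree K r h 1 0) = 1 := by
  classical
  have h1 : (univ.image fun v : TV h => sel (lab ℓ) v.1) = (Finset.Ico 1 (2 ^ (h + 1))).image (sel (lab ℓ)) := by
    ext x
    simp only [Finset.mem_image, Finset.mem_univ, true_and, Subtype.exists]
    constructor
    · rintro ⟨a, ha, rfl⟩
      exact ⟨a, ha, rfl⟩
    · rintro ⟨a, ha, rfl⟩
      exact ⟨a, ha, rfl⟩
  rw [h1, ← psi_coeff, psi_tree]
  · rw [if_pos, Mn_eq, MvPolynomial.coeff_monomial, if_pos rfl]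
    exact (lab_out ℓ (by simp)).symm
  · intro u hu
    apply lab_out
    rw [Finset.mem_Ico]
    omega

theorem tree_conn (U : Finset (TV h)) (hne : U.Nonempty) (hun : U ≠ univ) :
    ∃ e : TE h, ¬ (tsrc e ∈ U ↔ ttgt e ∈ U) := by
  classical
  by_contra hcon
  push Not at hcon
  have hroot : (1 : ℕ) ∈ Finset.Ico 1 (2 ^ (h + 1)) := Finset.mem_Ico.2 ⟨le_rfl, Nat.one_lt_two_pow (by omega)⟩
  have key : ∀ (n : ℕ) (hn : n ∈ Finset.Ico 1 (2 ^ (h + 1))), (⟨n, hn⟩ : TV h) ∈ U ↔ (⟨1, hroot⟩ : TV h) ∈ U := by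
    intro n
    induction n using Nat.strong_induction_on with
    | _ n ih =>
      intro hn
      have hn' := Finset.mem_Ico.1 hn
      by_cases h1 : n = 1
      · subst h1
        exact Iff.rfl
      · have he : n ∈ Finset.Ico 2 (2 ^ (h + 1)) := Finset.mem_Ico.2 ⟨by omega, hn'.2⟩
        have h2 := hcon ⟨n, he⟩
        have h3 : n / 2 ∈ Finset.Ico 1 (2 ^ (h + 1)) := Finset.mem_Ico.2 ⟨by omega, by omega⟩
        exact Iff.trans h2 (ih (n / 2) (by omega) h3)
  by_cases h1 : (⟨1, hroot⟩ : TV h) ∈ U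
  · apply hun
    ext v
    simp only [Finset.mem_univ, iff_true]
    exact (key v.1 v.2).2 h1
  · obtain ⟨v, hv⟩ := hne
    exact h1 ((key v.1 v.2).1 hv)

theorem tree_cut (hh : 1 ≤ h) (L : List (TV h)) (_hnd : L.Nodup) (hfull : L.toFinset = univ) :
    ∃ k, k < L.length ∧ (h + 1) / 2 ≤
      (univ.filter fun e : TE h => ¬ (tsrc e ∈ (L.take k).toFinset ↔ ttgt e ∈ (L.take k).toFinset)).card := by
  classical
  obtain ⟨m, hm⟩ : ∃ m, (h + 1) / 2 = m + 1 := ⟨(h + 1) / 2 - 1, by omega⟩
  rw [hm]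
  have hmh : 2 * m + 1 ≤ h := by omega
  obtain ⟨τ, hτ, Q, hQ, hQ'⟩ := cut (fun τ u => ∃ hu : u ∈ Finset.Ico 1 (2 ^ (h + 1)), (⟨u, hu⟩ : TV h) ∈ L.take τ)
    (fun τ τ' u hle => by
      rintro ⟨hu, hu'⟩
      exact ⟨hu, (List.take_subset_take_left L hle) hu'⟩)
    (fun τ u u' h1 h2 => by
      rintro ⟨hu, h3⟩ ⟨hu', h4⟩
      rcases Nat.lt_or_ge τ L.length with h5 | h5
      · rw [List.take_succ_eq_append_getElem h5, List.mem_append, List.mem_singleton] at h3 h4
        rcases h3 with h3 | h3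
        · exact absurd ⟨hu, h3⟩ h1
        · rcases h4 with h4 | h4
          · exact absurd ⟨hu', h4⟩ h2
          · have h6 := h3.trans h4.symm
            exact congrArg Subtype.val h6
      · rw [List.take_of_length_le (by omega)] at h3
        exact absurd ⟨hu, by rw [List.take_of_length_le h5]; exact h3⟩ h1)
    L.length m 1 le_rfl
    (fun u _ => by
      rintro ⟨_, h1⟩
      simp at h1)
    (fun u hu => by
      have h1 : Sub 1 h u := by
        obtain ⟨s, hs, hs'⟩ := hu
        exact ⟨s, by omega, hs'⟩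
      have h2 := (sub_one_iff h u).1 h1
      refine ⟨h2, ?_⟩
      rw [List.take_length, ← List.mem_toFinset, hfull]
      exact Finset.mem_univ _)
  have hcard : m + 1 ≤ (univ.filter fun e : TE h =>
      ¬ (tsrc e ∈ (L.take τ).toFinset ↔ ttgt e ∈ (L.take τ).toFinset)).card := by
    refine hQ.trans ?_
    have hEd : ∀ u ∈ Q, u ∈ Finset.Ico 2 (2 ^ (h + 1)) := by
      intro u hu
      obtain ⟨⟨s, hs, hs'⟩, hne, _⟩ := hQ' u hu
      have h1 : Sub 1 h u := ⟨s, by omega, hs'⟩
      have h2 := Finset.mem_Ico.1 ((sub_one_iff h u).1 h1)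
      exact Finset.mem_Ico.2 ⟨by omega, h2.2⟩
    rw [← Finset.card_attach (s := Q)]
    refine Finset.card_le_card_of_injOn (fun u => ⟨u.1, hEd u.1 u.2⟩) ?_ ?_
    · intro u _
      refine Finset.mem_coe.2 (Finset.mem_filter.2 ⟨Finset.mem_univ _, ?_⟩)
      obtain ⟨_, _, h3⟩ := hQ' u.1 u.2
      rw [List.mem_toFinset, List.mem_toFinset]
      intro h4
      apply h3
      constructor
      · rintro ⟨_, h5⟩
        exact ⟨_, h4.1 h5⟩
      · rintro ⟨_, h5⟩
        exact ⟨_, h4.2 h5⟩
    · intro u _ u' _ h3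
      simp only [Subtype.mk.injEq] at h3
      exact Subtype.ext h3
  refine ⟨τ, ?_, hcard⟩
  by_contra hcon
  have h3 : L.take τ = L := List.take_of_length_le (by omega)
  rw [h3, hfull] at hcard
  simp at hcard

/-- The lower bound for the tensor network of the complete binary tree of height `h`. -/
theorem tree_lower {ι : Type*} [Fintype ι] [DecidableEq ι] (hh : 1 ≤ h) (hr : 1 ≤ r) (t : ℕ → Ix r → Kˣ)
    (ht0 : ∀ u, t u 0 = 1)
    (hind : Generic 4 fun (e : TE h) (i : {i : Ix r // i ≠ 0}) => t e.1 i.1)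
    {M : Matrix ι ι (MvPolynomial (Vr r) K)} (hM : IsDetRep M (tree K r h 1 0))
    (hEq : Equivariant (treeGauge t) M) : (2 ^ r - 1) ^ ((h + 1) / 2) + 1 ≤ Fintype.card ι := by
  classical
  have hΛ : Fintype.card {i : Ix r // i ≠ 0} = 2 ^ r - 1 := by
    rw [Fintype.card_subtype_compl, Fintype.card_subtype_eq]
    simp [ZMod.card]
  have : Nonempty {i : Ix r // i ≠ 0} := by
    rw [← Fintype.card_pos_iff, hΛ]
    have : 2 ≤ 2 ^ r := by
      calc 2 = 2 ^ 1 := by norm_num
        _ ≤ 2 ^ r := Nat.pow_le_pow_right (by norm_num) hr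
    omega
  have hV : Fintype.card (TV h) = 2 ^ (h + 1) - 1 := by
    rw [Fintype.card_coe, Nat.card_Ico]
  have h := lower_sym (Λ := {i : Ix r // i ≠ 0}) hM hEq (x0 := tbase K r) (ρ := ((1, 0) : Vr r)) ?_ ?_ (theta_root h)
    (tsrc (h := h)) ttgt (fun e i => t e.1 i.1) hind (fun ℓ v => sel (lab ℓ) v.1)
    (fun ℓ a b hab => Subtype.ext (congrArg Prod.fst hab)) (fun ℓ v => treeGauge_sel t ht0 ℓ v) ?_
    (fun ℓ => by rw [coeff_tree]; exact one_ne_zero) tree_conn ((h + 1) / 2) (by omega) (tree_cut hh)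
  · rwa [hΛ] at h
  · rintro ⟨v, τ⟩
    unfold tbase
    by_cases hx : v ≠ 1 ∧ τ = 0
    · have h1 : treeGauge t (v, τ) = (1 : K) := by
        unfold treeGauge
        simp [hx.2, ht0]
      rw [h1, one_mul]
    · simp only
      rw [if_neg hx, mul_zero]
  · unfold treeGauge
    simp [ht0]
  · rw [hV]
    have := tree_degree K r h 1 0
    omega

end

end Pool.Agent.Helper1x.EQ
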